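import Pool.Agent.K7.H11.GG.Form

/-! The estimate for the forms. -/

set_option autoImplicit false

namespace Pool.Agent.K7.H11.GG

open MvPolynomial

lemma low_of_mem {σ : Type*} [DecidableEq σ] (i j : σ) (k : ℕ) {p : MvPolynomial σ ℂ}
    (hp : p ∈ (Ideal.span {X i, X j} : Ideal (MvPolynomial σ ℂ)) ^ k) :
    ∀ d ∈ p.support, k ≤ d i + d j := by
  induction k generalizing p with
  | zero => intro d _; exact Nat.zero_le _
  | succ k ih =>
    rw [pow_succ] at hp
    refine Submodule.mul_induction_on hp ?_ ?_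
    · intro r hr s hs d hd
      obtain ⟨a, b, rfl⟩ := Ideal.mem_span_pair.1 hs
      obtain ⟨d1, hd1, d2, hd2, rfl⟩ := Finset.mem_add.1 (support_mul _ _ hd)
      have h1 := ih hr d1 hd1
      have h2 : 1 ≤ d2 i + d2 j := by
        rcases Finset.mem_union.1 (support_add hd2) with h | h
        · rw [support_mul_X, Finset.mem_map] at h
          obtain ⟨e, -, rfl⟩ := h
          simp only [addRightEmbedding_apply, Finsupp.add_apply, Finsupp.single_eq_same]
          omega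
        · rw [support_mul_X, Finset.mem_map] at h
          obtain ⟨e, -, rfl⟩ := h
          simp only [addRightEmbedding_apply, Finsupp.add_apply, Finsupp.single_eq_same]
          omega
      simp only [Finsupp.add_apply]
      omega
    · intro x y hx hy d hd
      rcases Finset.mem_union.1 (support_add hd) with h | h
      · exact hx d h
      · exact hy d h

lemma factor_le {R x y : ℝ} {a b s : ℕ} (hR : 1 ≤ R) (hx0 : 0 ≤ x) (hy0 : 0 ≤ y) (hx : x ≤ R)
    (hy : y ≤ R) (hxy : y ^ 2 ≤ R * x) (hab : 2 * s ≤ a + b) :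
    x ^ a * y ^ b ≤ R ^ (a + b) * x ^ s := by
  have hR0 : 0 ≤ R := by linarith
  rcases le_or_gt s a with h | h
  · have h1 : x ^ a = x ^ s * x ^ (a - s) := by rw [← pow_add]; congr 1; omega
    have h2 : x ^ (a - s) ≤ R ^ a := (pow_le_pow_left₀ hx0 hx _).trans
      (pow_le_pow_right₀ hR (by omega))
    have h3 : y ^ b ≤ R ^ b := pow_le_pow_left₀ hy0 hy _
    calc x ^ a * y ^ b = x ^ s * (x ^ (a - s) * y ^ b) := by rw [h1]; ring
      _ ≤ x ^ s * (R ^ a * R ^ b) := by gcongr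
      _ = R ^ (a + b) * x ^ s := by rw [pow_add]; ring
  · have h1 : y ^ b = (y ^ 2) ^ (s - a) * y ^ (b - 2 * (s - a)) := by
      rw [← pow_mul, ← pow_add]; congr 1; omega
    have h2 : (y ^ 2) ^ (s - a) ≤ (R * x) ^ (s - a) := pow_le_pow_left₀ (by positivity) hxy _
    have h3 : y ^ (b - 2 * (s - a)) ≤ R ^ (b - 2 * (s - a)) := pow_le_pow_left₀ hy0 hy _
    calc x ^ a * y ^ b = x ^ a * ((y ^ 2) ^ (s - a) * y ^ (b - 2 * (s - a))) := by rw [h1]
      _ ≤ x ^ a * ((R * x) ^ (s - a) * R ^ (b - 2 * (s - a))) := by gcongr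
      _ = R ^ (b - (s - a)) * x ^ s := by
          rw [mul_pow]
          have e1 : x ^ s = x ^ a * x ^ (s - a) := by rw [← pow_add]; congr 1; omega
          have e2 : R ^ (b - (s - a)) = R ^ (s - a) * R ^ (b - 2 * (s - a)) := by
            rw [← pow_add]; congr 1; omega
          rw [e1, e2]
          ring
      _ ≤ R ^ (a + b) * x ^ s := by
          gcongr
          omega

variable {N : ℕ}

/-- the estimate in coordinates -/
lemma est_coord (Q : MvPolynomial (Fin N ⊕ Fin N) ℂ) (T : Finset (Fin N)) (s : ℕ)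
    (hQ : ∀ j ∈ T, ∀ d ∈ Q.support, 2 * s ≤ d (Sum.inl j) + d (Sum.inr j)) {R : ℝ} (hR : 1 ≤ R) :
    ∃ C : ℝ, 0 ≤ C ∧ ∀ x y : Fin N → ℂ, (∀ j, ‖x j‖ ≤ R) → (∀ j, ‖y j‖ ≤ R) →
      (∀ j ∈ T, ‖y j‖ ^ 2 ≤ R * ‖x j‖) →
      ‖eval (Sum.elim x y) Q‖ ≤ C * ∏ j ∈ T, ‖x j‖ ^ s := by
  classical
  have hR0 : 0 ≤ R := by linarith
  refine ⟨∑ d ∈ Q.support, ‖coeff d Q‖ * ∏ j, R ^ (d (Sum.inl j) + d (Sum.inr j)),
    Finset.sum_nonneg fun d _ => by positivity, ?_⟩
  intro x y hx hy hxy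
  rw [eval_eq', Finset.sum_mul]
  refine (norm_sum_le _ _).trans (Finset.sum_le_sum fun d hd => ?_)
  rw [norm_mul, mul_assoc]
  refine mul_le_mul_of_nonneg_left ?_ (norm_nonneg _)
  rw [norm_prod, Fintype.prod_sum_type, ← Finset.prod_mul_distrib]
  simp only [Sum.elim_inl, Sum.elim_inr, norm_pow]
  have h1 : ∏ j ∈ T, ‖x j‖ ^ s = ∏ j, if j ∈ T then ‖x j‖ ^ s else 1 := by
    rw [Finset.prod_ite_mem, Finset.univ_inter]
  rw [h1, ← Finset.prod_mul_distrib]
  refine Finset.prod_le_prod (fun j _ => by positivity) fun j _ => ?_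
  split_ifs with hj
  · exact factor_le hR (norm_nonneg _) (norm_nonneg _) (hx j) (hy j) (hxy j hj) (hQ j hj d hd)
  · rw [mul_one, pow_add]
    exact mul_le_mul (pow_le_pow_left₀ (norm_nonneg _) (hx j) _)
      (pow_le_pow_left₀ (norm_nonneg _) (hy j) _) (by positivity) (by positivity)

/-- the pairing -/
def dot (a v : Fin N → ℂ) : ℂ := ∑ j, a j * v j

lemma eval_lin {σ : Type*} (a : Fin N → ℂ) (e : Fin N → σ) (x : σ → ℂ) :
    eval x (lin a e) = dot a fun j => x (e j) := by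
  unfold lin dot
  rw [map_sum]
  refine Finset.sum_congr rfl fun j _ => ?_
  rw [map_mul, eval_C, eval_X]

/-- extension of independent linear forms to coordinates -/
lemma exists_coord {S : Type} [Finite S] (a : S → Fin N → ℂ) (ha : LinearIndependent ℂ a) :
    ∃ (b G : Matrix (Fin N) (Fin N) ℂ) (e : S → Fin N), Function.Injective e ∧
      (∀ i, b (e i) = a i) ∧ b * G = 1 ∧ G * b = 1 := by
  classical
  set B := Module.Basis.extend ha.linearIndepOn_id with hB
  have hfin : Fintype.card (ha.linearIndepOn_id.extend (Set.subset_univ _)) = N := by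
    rw [← Module.finrank_eq_card_basis B, Module.finrank_fin_fun]
  have eqv : (ha.linearIndepOn_id.extend (Set.subset_univ (Set.range a))) ≃ Fin N :=
    Fintype.equivFinOfCardEq hfin
  set B' := B.reindex eqv with hB'
  have hsub := ha.linearIndepOn_id.subset_extend (Set.subset_univ (Set.range a))
  set b : Matrix (Fin N) (Fin N) ℂ := Matrix.of fun j => B' j with hb
  have hu : IsUnit b := by
    rw [← Matrix.linearIndependent_rows_iff_isUnit]
    exact B'.linearIndependent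
  refine ⟨b, b⁻¹, fun i => eqv ⟨a i, hsub ⟨i, rfl⟩⟩, ?_, ?_, ?_, ?_⟩
  · intro i j hij
    have := congrArg Subtype.val (eqv.injective hij)
    exact ha.injective this
  · intro i
    change B' (eqv _) = a i
    rw [hB', Module.Basis.reindex_apply, Equiv.symm_apply_apply, hB, Module.Basis.extend_apply_self]
  · exact Matrix.mul_nonsing_inv _ ((Matrix.isUnit_iff_isUnit_det _).1 hu)
  · exact Matrix.nonsing_inv_mul _ ((Matrix.isUnit_iff_isUnit_det _).1 hu)

lemma dot_mulVec (a v : Fin N → ℂ) (M : Matrix (Fin N) (Fin N) ℂ) :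
    dot a (M.mulVec v) = dot (fun l => ∑ j, a j * M j l) v := by
  unfold dot Matrix.mulVec dotProduct
  simp only [Finset.mul_sum, Finset.sum_mul]
  rw [Finset.sum_comm]
  refine Finset.sum_congr rfl fun l _ => Finset.sum_congr rfl fun j _ => ?_
  ring

/-- the linear change of variables -/
noncomputable def tau (G : Matrix (Fin N) (Fin N) ℂ) :
    MvPolynomial (Fin N ⊕ Fin N) ℂ →ₐ[ℂ] MvPolynomial (Fin N ⊕ Fin N) ℂ :=
  aeval (Sum.elim (fun j => lin (G j) Sum.inl) (fun j => lin (G j) Sum.inr))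

lemma eval_tau (G : Matrix (Fin N) (Fin N) ℂ) (Q : MvPolynomial (Fin N ⊕ Fin N) ℂ)
    (x y : Fin N → ℂ) :
    eval (Sum.elim x y) (tau G Q) = eval (Sum.elim (G.mulVec x) (G.mulVec y)) Q := by
  have h : (aeval (R := ℂ) (Sum.elim x y)).comp (tau G) =
      aeval (R := ℂ) (Sum.elim (G.mulVec x) (G.mulVec y)) := by
    apply MvPolynomial.algHom_ext
    rintro (j | j)
    · rw [AlgHom.comp_apply, tau, aeval_X, aeval_X, Sum.elim_inl, Sum.elim_inl]
      exact eval_lin (G j) Sum.inl (Sum.elim x y)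
    · rw [AlgHom.comp_apply, tau, aeval_X, aeval_X, Sum.elim_inr, Sum.elim_inr]
      exact eval_lin (G j) Sum.inr (Sum.elim x y)
  have h1 := congrArg (fun f => f Q) h
  simp only [AlgHom.comp_apply] at h1
  rw [← coe_aeval_eq_eval, ← coe_aeval_eq_eval]
  exact h1

lemma tau_lin (G : Matrix (Fin N) (Fin N) ℂ) (a : Fin N → ℂ) :
    tau G (lin a Sum.inl) = lin (fun l => ∑ j, a j * G j l) Sum.inl ∧
    tau G (lin a Sum.inr) = lin (fun l => ∑ j, a j * G j l) Sum.inr := by
  have hC : ∀ c : ℂ, tau G (C c) = C c := fun c => (tau G).commutes c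
  constructor
  · unfold lin
    rw [map_sum]
    have h1 : ∀ j, tau G (C (a j) * X (Sum.inl j)) = ∑ l, C (a j * G j l) * X (Sum.inl l) := by
      intro j
      rw [map_mul, hC, tau, aeval_X, Sum.elim_inl, lin, Finset.mul_sum]
      refine Finset.sum_congr rfl fun l _ => ?_
      rw [C_mul, mul_assoc]
    simp only [h1, map_sum, Finset.sum_mul]
    rw [Finset.sum_comm]
  · unfold lin
    rw [map_sum]
    have h1 : ∀ j, tau G (C (a j) * X (Sum.inr j)) = ∑ l, C (a j * G j l) * X (Sum.inr l) := by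
      intro j
      rw [map_mul, hC, tau, aeval_X, Sum.elim_inr, lin, Finset.mul_sum]
      refine Finset.sum_congr rfl fun l _ => ?_
      rw [C_mul, mul_assoc]
    simp only [h1, map_sum, Finset.sum_mul]
    rw [Finset.sum_comm]

lemma lin_single {σ : Type*} (i : Fin N) (e : Fin N → σ) :
    lin (fun l => if i = l then (1 : ℂ) else 0) e = X (e i) := by
  unfold lin
  rw [Finset.sum_eq_single i]
  · simp only [if_true, C_1, one_mul]
  · intro j _ hj
    simp only [if_neg (Ne.symm hj), C_0, zero_mul]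
  · intro h
    exact absurd (Finset.mem_univ i) h

variable {m : ℕ}

/-- the estimate for independent linear forms -/
lemma est_indep {S : Type} [Fintype S] (a : S → Fin (m + 2) → ℂ) (ha : LinearIndependent ℂ a)
    (Q : MvPolynomial (Fin (m + 2) ⊕ Fin (m + 2)) ℂ) (s : ℕ)
    (hQ : ∀ i, Q ∈ I2 (a i) ^ (2 * s)) (R : ℝ) :
    ∃ C : ℝ, 0 ≤ C ∧ ∀ v w : Fin (m + 2) → ℂ, ‖v‖ ≤ R → ‖w‖ ≤ R →
      (∀ i, ‖dot (a i) w‖ ^ 2 ≤ R * ‖dot (a i) v‖) →
      ‖eval (Sum.elim v w) Q‖ ≤ C * ∏ i, ‖dot (a i) v‖ ^ s := by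
  classical
  obtain ⟨b, G, e, hinj, hbe, hbG, hGb⟩ := exists_coord a ha
  have hlow : ∀ j ∈ Finset.univ.image e, ∀ d ∈ (tau G Q).support,
      2 * s ≤ d (Sum.inl j) + d (Sum.inr j) := by
    intro j hj
    obtain ⟨i, -, rfl⟩ := Finset.mem_image.1 hj
    apply low_of_mem
    have h1 := Ideal.mem_map_of_mem (tau G).toRingHom (hQ i)
    rw [Ideal.map_pow, I2, Ideal.map_span, Set.image_pair] at h1
    have h2 : (fun l => ∑ j, a i j * G j l) = fun l => if e i = l then (1 : ℂ) else 0 := by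
      funext l
      have h3 : (b * G) (e i) l = (1 : Matrix _ _ ℂ) (e i) l := by rw [hbG]
      rw [Matrix.mul_apply, Matrix.one_apply] at h3
      rw [← h3]
      refine Finset.sum_congr rfl fun j _ => ?_
      rw [← hbe i]
    have h4 : (tau G).toRingHom (lin (a i) Sum.inl) = X (Sum.inl (e i)) := by
      change tau G (lin (a i) Sum.inl) = _
      rw [(tau_lin G (a i)).1, h2, lin_single]
    have h5 : (tau G).toRingHom (lin (a i) Sum.inr) = X (Sum.inr (e i)) := by
      change tau G (lin (a i) Sum.inr) = _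
      rw [(tau_lin G (a i)).2, h2, lin_single]
    rw [h4, h5] at h1
    exact h1
  set K : ℝ := ∑ i, ∑ j, ‖b i j‖ with hK
  have hK0 : 0 ≤ K := Finset.sum_nonneg fun i _ => Finset.sum_nonneg fun j _ => norm_nonneg _
  obtain ⟨C, hC0, hC⟩ := est_coord (tau G Q) (Finset.univ.image e) s hlow
    (R := max 1 (max R (K * R))) (le_max_left _ _)
  refine ⟨C, hC0, fun v w hv hw hvw => ?_⟩
  have hR0 : 0 ≤ R := (norm_nonneg v).trans hv
  have hbd : ∀ (u : Fin (m + 2) → ℂ), ‖u‖ ≤ R → ∀ j, ‖(b.mulVec u) j‖ ≤ K * R := by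
    intro u hu j
    have h1 : ‖(b.mulVec u) j‖ ≤ ∑ l, ‖b j l‖ * ‖u l‖ := by
      unfold Matrix.mulVec dotProduct
      refine (norm_sum_le _ _).trans (Finset.sum_le_sum fun l _ => ?_)
      rw [norm_mul]
    refine h1.trans ?_
    calc ∑ l, ‖b j l‖ * ‖u l‖ ≤ ∑ l, ‖b j l‖ * R := by
          refine Finset.sum_le_sum fun l _ => ?_
          exact mul_le_mul_of_nonneg_left ((norm_le_pi_norm u l).trans hu) (norm_nonneg _)
      _ = (∑ l, ‖b j l‖) * R := by rw [Finset.sum_mul]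
      _ ≤ K * R := by
          refine mul_le_mul_of_nonneg_right ?_ hR0
          exact Finset.single_le_sum (f := fun i => ∑ l, ‖b i l‖)
            (fun i _ => Finset.sum_nonneg fun j _ => norm_nonneg _) (Finset.mem_univ j)
  have hdot : ∀ (u : Fin (m + 2) → ℂ) i, (b.mulVec u) (e i) = dot (a i) u := by
    intro u i
    rw [← hbe i]
    rfl
  have h1 := hC (b.mulVec v) (b.mulVec w)
    (fun j => (hbd v hv j).trans ((le_max_right _ _).trans (le_max_right _ _)))
    (fun j => (hbd w hw j).trans ((le_max_right _ _).trans (le_max_right _ _))) (by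
      intro j hj
      obtain ⟨i, -, rfl⟩ := Finset.mem_image.1 hj
      rw [hdot, hdot]
      refine (hvw i).trans ?_
      exact mul_le_mul_of_nonneg_right ((le_max_left _ _).trans (le_max_right _ _))
        (norm_nonneg _))
  rw [eval_tau, Matrix.mulVec_mulVec, Matrix.mulVec_mulVec, hGb, Matrix.one_mulVec,
    Matrix.one_mulVec, Finset.prod_image (fun i _ j _ h => hinj h)] at h1
  simpa only [hdot] using h1

lemma continuous_dot (a : Fin N → ℂ) : Continuous fun v => dot a v := by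
  unfold dot
  exact continuous_finsetSum _ fun j _ => continuous_const.mul (continuous_apply j)

/-- general position at all points -/
def GenPos {I : Type} (a : I → Fin (m + 2) → ℂ) : Prop :=
  ∀ v : Fin (m + 2) → ℂ, v ≠ 0 → LinearIndependent ℂ fun i : {i // dot (a i) v = 0} => a i

/-- **The estimate.** -/
theorem est {I : Type} [Fintype I] (a : I → Fin (m + 2) → ℂ) (ha : GenPos a)
    (Q : MvPolynomial (Fin (m + 2) ⊕ Fin (m + 2)) ℂ) (s : ℕ)
    (hQ : ∀ i, Q ∈ I2 (a i) ^ (2 * s)) (R : ℝ) :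
    ∃ C : ℝ, 0 ≤ C ∧ ∀ v w : Fin (m + 2) → ℂ, ‖v‖ = 1 → ‖w‖ ≤ R →
      (∀ i, ‖dot (a i) w‖ ^ 2 ≤ R * ‖dot (a i) v‖) →
      ‖eval (Sum.elim v w) Q‖ ≤ C * ∏ i, ‖dot (a i) v‖ ^ s := by
  classical
  have hcomp : IsCompact (Metric.sphere (0 : Fin (m + 2) → ℂ) 1) := isCompact_sphere _ _
  have main : ∃ C : ℝ, 0 ≤ C ∧ ∀ v ∈ Metric.sphere (0 : Fin (m + 2) → ℂ) 1,
      ∀ w : Fin (m + 2) → ℂ, ‖w‖ ≤ R → (∀ i, ‖dot (a i) w‖ ^ 2 ≤ R * ‖dot (a i) v‖) →
      ‖eval (Sum.elim v w) Q‖ ≤ C * ∏ i, ‖dot (a i) v‖ ^ s := by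
    refine hcomp.induction_on (p := fun K => ∃ C : ℝ, 0 ≤ C ∧ ∀ v ∈ K,
      ∀ w : Fin (m + 2) → ℂ, ‖w‖ ≤ R → (∀ i, ‖dot (a i) w‖ ^ 2 ≤ R * ‖dot (a i) v‖) →
      ‖eval (Sum.elim v w) Q‖ ≤ C * ∏ i, ‖dot (a i) v‖ ^ s) ?_ ?_ ?_ ?_
    · exact ⟨0, le_rfl, fun v hv => absurd hv (Set.notMem_empty v)⟩
    · rintro K K' hKK ⟨C, hC0, hC⟩
      exact ⟨C, hC0, fun v hv => hC v (hKK hv)⟩
    · rintro K K' ⟨C, hC0, hC⟩ ⟨C', hC0', hC'⟩
      refine ⟨max C C', hC0.trans (le_max_left _ _), fun v hv w hw hvw => ?_⟩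
      have hp : 0 ≤ ∏ i, ‖dot (a i) v‖ ^ s := by positivity
      rcases hv with hv | hv
      · exact (hC v hv w hw hvw).trans (mul_le_mul_of_nonneg_right (le_max_left _ _) hp)
      · exact (hC' v hv w hw hvw).trans (mul_le_mul_of_nonneg_right (le_max_right _ _) hp)
    · intro v0 hv0
      have hv00 : v0 ≠ 0 := by
        rintro rfl
        rw [mem_sphere_zero_iff_norm, norm_zero] at hv0
        exact zero_ne_one hv0
      obtain ⟨C, hC0, hC⟩ := est_indep (fun i : {i // dot (a i) v0 = 0} => a i) (ha v0 hv00) Q s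
        (fun i => hQ i) (max R 1)
      -- the other linear forms are bounded from below near `v0`
      set P : (Fin (m + 2) → ℂ) → ℝ := fun v =>
        ∏ i : {i // ¬ dot (a i) v0 = 0}, ‖dot (a i) v‖ ^ s with hP
      have hPc : Continuous P := continuous_finsetProd _ fun i _ =>
        (continuous_dot (a i)).norm.pow s
      have hP0 : 0 < P v0 := Finset.prod_pos fun i _ => pow_pos (norm_pos_iff.2 i.2) _
      have hev : ∀ᶠ v in nhds v0, P v0 / 2 < P v :=
        hPc.continuousAt.eventually_const_lt (by linarith)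
      refine ⟨{v | P v0 / 2 < P v} ∩ Metric.sphere 0 1,
        Filter.inter_mem (mem_nhdsWithin_of_mem_nhds hev) self_mem_nhdsWithin,
        C / (P v0 / 2), by positivity, ?_⟩
      rintro v ⟨hv, hv1⟩ w hw hvw
      have hv' : P v0 / 2 < P v := hv
      have hvn : ‖v‖ = 1 := mem_sphere_zero_iff_norm.1 hv1
      have h1 := hC v w (by rw [hvn]; exact le_max_right _ _) (hw.trans (le_max_left _ _))
        (fun i => (hvw i).trans (mul_le_mul_of_nonneg_right (le_max_left _ _) (norm_nonneg _)))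
      have h2 : ∏ i, ‖dot (a i) v‖ ^ s = (∏ i : {i // dot (a i) v0 = 0}, ‖dot (a i) v‖ ^ s) *
          P v := (Fintype.prod_subtype_mul_prod_subtype (fun i => dot (a i) v0 = 0)
            (fun i => ‖dot (a i) v‖ ^ s)).symm
      rw [h2]
      refine h1.trans ?_
      have h3 : 0 ≤ ∏ i : {i // dot (a i) v0 = 0}, ‖dot (a i) v‖ ^ s := by positivity
      calc C * ∏ i : {i // dot (a i) v0 = 0}, ‖dot (a i) v‖ ^ s
          = C / (P v0 / 2) * ((∏ i : {i // dot (a i) v0 = 0}, ‖dot (a i) v‖ ^ s) *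
            (P v0 / 2)) := by
            field_simp
        _ ≤ _ := by gcongr
  obtain ⟨C, hC0, hC⟩ := main
  exact ⟨C, hC0, fun v w hv hw hvw => hC v (mem_sphere_zero_iff_norm.2 hv) w hw hvw⟩

end Pool.Agent.K7.H11.GG
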