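import Mathlib

/-! Bounded holomorphic functions all of whose zeros are multiple. -/

set_option autoImplicit false

namespace Pool.Agent.K7.H11.GG

open Metric Set

/-- If all zeros of the bounded holomorphic function `u` are multiple then
`|u' z0| ^ 2 ≤ C |u z0|`. -/
theorem landau {u : ℂ → ℂ} {z0 : ℂ} {δ M : ℝ} (hδ : 0 < δ)
    (hu : DifferentiableOn ℂ u (ball z0 δ)) (hM : ∀ z ∈ ball z0 δ, ‖u z‖ ≤ M)
    (hz : ∀ z ∈ ball z0 δ, u z = 0 → deriv u z = 0) :
    ‖deriv u z0‖ ^ 2 ≤ 256 * M / δ ^ 2 * ‖u z0‖ := by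
  have hM0 : 0 ≤ M := (norm_nonneg _).trans (hM z0 (mem_ball_self hδ))
  set b := deriv u z0 with hb
  rcases eq_or_ne b 0 with h0 | h0
  · rw [h0, norm_zero, zero_pow two_ne_zero]
    positivity
  have hbpos : 0 < ‖b‖ := norm_pos_iff.2 h0
  have hsub : ∀ z : ℂ, ∀ r s : ℝ, z ∈ ball z0 s → r + s ≤ δ → closedBall z r ⊆ ball z0 δ := by
    intro z r s hz hrs w hw
    rw [mem_ball] at hz ⊢
    rw [mem_closedBall] at hw
    have := dist_triangle w z z0
    linarith
  -- first derivative
  have h1 : ∀ z ∈ ball z0 (δ / 2), ‖deriv u z‖ ≤ 4 * M / δ := by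
    intro z hz
    have hs := hsub z (δ / 4) (δ / 2) hz (by linarith)
    have h := Complex.norm_deriv_le_of_forall_mem_sphere_norm_le (c := z) (R := δ / 4) (C := M)
      (by positivity) ((hu.mono hs).diffContOnCl_ball (U := closedBall z (δ / 4)) subset_rfl)
      (fun w hw => hM w (hs (sphere_subset_closedBall hw)))
    calc ‖deriv u z‖ ≤ M / (δ / 4) := h
      _ = 4 * M / δ := by field_simp
  have hdu : DifferentiableOn ℂ (deriv u) (ball z0 δ) := hu.deriv isOpen_ball
  -- second derivative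
  have h2 : ∀ z ∈ ball z0 (δ / 4), ‖deriv (deriv u) z‖ ≤ 32 * M / δ ^ 2 := by
    intro z hz
    have hs : closedBall z (δ / 8) ⊆ ball z0 (δ / 2) := by
      intro w hw
      rw [mem_ball] at hz ⊢
      rw [mem_closedBall] at hw
      have := dist_triangle w z z0
      linarith
    have hs' : closedBall z (δ / 8) ⊆ ball z0 δ := hs.trans (ball_subset_ball (by linarith))
    have h := Complex.norm_deriv_le_of_forall_mem_sphere_norm_le (c := z) (R := δ / 8)
      (C := 4 * M / δ) (f := deriv u)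
      (by positivity) ((hdu.mono hs').diffContOnCl_ball (U := closedBall z (δ / 8)) subset_rfl)
      (fun w hw => h1 w (hs (sphere_subset_closedBall hw)))
    calc ‖deriv (deriv u) z‖ ≤ 4 * M / δ / (δ / 8) := h
      _ = 32 * M / δ ^ 2 := by field_simp; ring
  have hb1 : ‖b‖ ≤ 4 * M / δ := h1 z0 (mem_ball_self (by positivity))
  have hMpos : 0 < M := by
    rcases hM0.eq_or_lt with h | h
    · rw [← h] at hb1
      simp at hb1
      exact absurd hb1 h0
    · exact h
  have h3 : ∀ z ∈ ball z0 (δ / 4), ‖deriv u z - b‖ ≤ 32 * M / δ ^ 2 * ‖z - z0‖ := by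
    intro z hz
    exact (convex_ball z0 (δ / 4)).norm_image_sub_le_of_norm_deriv_le (f := deriv u)
      (fun w hw => (hdu w (ball_subset_ball (by linarith) hw)).differentiableAt
        (isOpen_ball.mem_nhds (ball_subset_ball (by linarith) hw))) h2
      (mem_ball_self (by positivity)) hz
  set r := ‖b‖ * δ ^ 2 / (64 * M) with hr
  have hrpos : 0 < r := by positivity
  have hrδ : r < δ / 4 := by
    have : r ≤ δ / 16 := by
      rw [hr, div_le_iff₀ (by positivity)]
      rw [le_div_iff₀ hδ] at hb1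
      nlinarith
    linarith
  have hcb : closedBall z0 r ⊆ ball z0 (δ / 4) := closedBall_subset_ball hrδ
  have h4 : ∀ z ∈ closedBall z0 r, ‖deriv u z - b‖ ≤ ‖b‖ / 2 := by
    intro z hz
    refine (h3 z (hcb hz)).trans ?_
    have h5 : ‖z - z0‖ ≤ r := by rw [← dist_eq_norm]; exact hz
    calc 32 * M / δ ^ 2 * ‖z - z0‖ ≤ 32 * M / δ ^ 2 * r := by gcongr
      _ = ‖b‖ / 2 := by rw [hr]; field_simp; norm_num
  have hnz : ∀ z ∈ closedBall z0 r, u z ≠ 0 := by
    intro z hzr h
    have h5 := h4 z hzr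
    rw [hz z ((ball_subset_ball (by linarith)) (hcb hzr)) h, zero_sub, norm_neg] at h5
    linarith
  -- lower bound on the circle
  have hdiff : ∀ w ∈ closedBall z0 r, DifferentiableAt ℂ u w := fun w hw =>
    (hu w (ball_subset_ball (by linarith) (hcb hw))).differentiableAt
      (isOpen_ball.mem_nhds (ball_subset_ball (by linarith) (hcb hw)))
  have h5 : ∀ z ∈ closedBall z0 r, ‖(u z - b * z) - (u z0 - b * z0)‖ ≤ ‖b‖ / 2 * ‖z - z0‖ := by
    intro z hz
    refine (convex_closedBall z0 r).norm_image_sub_le_of_norm_deriv_le (f := fun z => u z - b * z)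
      (fun w hw => (hdiff w hw).sub (differentiableAt_id.const_mul b)) (fun w hw => ?_)
      (mem_closedBall_self hrpos.le) hz
    have : deriv (fun z => u z - b * z) w = deriv u w - b := by
      have e1 : HasDerivAt (fun z : ℂ => b * z) b w := by
        simpa using (hasDerivAt_id w).const_mul b
      exact ((hdiff w hw).hasDerivAt.sub e1).deriv
    rw [this]
    exact h4 w hw
  by_contra hcon
  push Not at hcon
  have ha : ‖u z0‖ < ‖b‖ * r / 4 := by
    have e1 : ‖b‖ * r / 4 = ‖b‖ ^ 2 / (256 * M / δ ^ 2) := by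
      rw [hr]; field_simp; norm_num
    rw [e1, lt_div_iff₀ (by positivity), mul_comm]
    exact hcon
  have h6 : ∀ z ∈ sphere z0 r, ‖(u z)⁻¹‖ ≤ (‖b‖ * r / 4)⁻¹ := by
    intro z hzs
    rw [norm_inv]
    apply inv_anti₀ (by positivity)
    have h7 := h5 z (sphere_subset_closedBall hzs)
    have h8 : ‖z - z0‖ = r := by rw [← dist_eq_norm]; exact hzs
    have h9 : ‖b * (z - z0)‖ = ‖b‖ * r := by rw [norm_mul, h8]
    have h10 : b * (z - z0) = u z - u z0 - ((u z - b * z) - (u z0 - b * z0)) := by ring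
    have h11 : ‖b * (z - z0)‖ ≤ ‖u z‖ + ‖u z0‖ + ‖(u z - b * z) - (u z0 - b * z0)‖ := by
      rw [h10]
      exact (norm_sub_le _ _).trans (add_le_add_left (norm_sub_le _ _) _)
    rw [h8] at h7
    rw [h9] at h11
    linarith
  have h7 : ‖(u z0)⁻¹‖ ≤ (‖b‖ * r / 4)⁻¹ := by
    refine Complex.norm_le_of_forall_mem_frontier_norm_le (f := fun z => (u z)⁻¹)
      (U := ball z0 r) isBounded_ball ?_ ?_ (subset_closure (mem_ball_self hrpos))
    · apply DifferentiableOn.diffContOnCl_ball (U := closedBall z0 r) _ subset_rfl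
      intro w hw
      exact ((hdiff w hw).inv (hnz w hw)).differentiableWithinAt
    · intro z hz
      rw [frontier_ball z0 hrpos.ne'] at hz
      exact h6 z hz
  rw [norm_inv] at h7
  have h8 : 0 < ‖u z0‖ := norm_pos_iff.2 (hnz z0 (mem_closedBall_self hrpos.le))
  have h9 := (inv_le_inv₀ h8 (by positivity)).1 h7
  linarith

end Pool.Agent.K7.H11.GG
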