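import Pool.Agent.Y190.OP.Zf
import Pool.Agent.K7.H11.GG.Landau
import Pool.Agent.K7.H11.GG.Est

/-! Brody's reparametrization for entire curves which are ramified over hyperplanes. -/

set_option autoImplicit false

namespace Pool.Agent.K7.H11.GG

open Filter Topology Metric Set
open Pool.Agent.Y190.OP

variable {N : ℕ}

/-- Brody's reparametrization -/
theorem rescale' {Ψ : ℂ → Mat N} (hΨ : HolP univ Ψ) (hne : ¬ ∀ z, Ψ z = Ψ 0) {M : ℝ}
    (hM : 0 < M) : ∃ (a : ℂ) (ρ : ℝ), 0 < ρ ∧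
      (∀ z ∈ ball (0 : ℂ) (M / 2), ‖fderiv ℝ (fun z => Ψ (aff a ρ z)) z‖ ≤ 2) ∧
      ‖fderiv ℝ (fun z => Ψ (aff a ρ z)) 0‖ = 1 := by
  have h1 : ∃ z1, fderiv ℝ Ψ z1 ≠ 0 := by
    by_contra hcon
    push Not at hcon
    apply hne
    intro z
    exact is_const_of_fderiv_eq_zero (𝕜 := ℝ) (fun w => hΨ.differentiableAt (mem_univ w)) hcon z 0
  obtain ⟨z1, hz1⟩ := h1
  have hpos : 0 < ‖fderiv ℝ Ψ z1‖ := norm_pos_iff.2 hz1
  set R : ℝ := (M + 1) / ‖fderiv ℝ Ψ z1‖ with hR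
  have hRpos : 0 < R := by positivity
  have hgn : ∀ z, ‖fderiv ℝ (fun z => Ψ (aff z1 R z)) z‖ = R * ‖fderiv ℝ Ψ (aff z1 R z)‖ :=
    fun z => norm_fderiv_aff hRpos.le (hΨ.differentiableAt (mem_univ _))
  have hcont : Continuous fun z => ‖fderiv ℝ Ψ (aff z1 R z)‖ := by
    have h2 : Continuous (fderiv ℝ Ψ) := continuous_iff_continuousAt.2 fun z =>
      hΨ.continuousAt_fderiv (mem_univ z)
    exact (h2.comp (aff_diff z1 R).continuous).norm
  have hcont2 : Continuous fun z => (1 - ‖z‖) * (R * ‖fderiv ℝ Ψ (aff z1 R z)‖) :=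
    (continuous_const.sub continuous_norm).mul (continuous_const.mul hcont)
  obtain ⟨z0, hz0, hmax⟩ := (isCompact_closedBall (0 : ℂ) 1).exists_isMaxOn
    ⟨0, mem_closedBall_self zero_le_one⟩ hcont2.continuousOn
  have hmax' : ∀ z ∈ closedBall (0 : ℂ) 1, (1 - ‖z‖) * (R * ‖fderiv ℝ Ψ (aff z1 R z)‖) ≤
      (1 - ‖z0‖) * (R * ‖fderiv ℝ Ψ (aff z1 R z0)‖) := fun z hz => hmax hz
  set D := R * ‖fderiv ℝ Ψ (aff z1 R z0)‖ with hD
  have h0 : M < (1 - ‖z0‖) * D := by
    have h3 := hmax' 0 (mem_closedBall_self zero_le_one)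
    have h4 : aff z1 R 0 = z1 := by simp [aff]
    rw [norm_zero, sub_zero, one_mul, h4, hR, div_mul_cancel₀ _ hpos.ne'] at h3
    linarith
  have hz0n : ‖z0‖ ≤ 1 := mem_closedBall_zero_iff.1 hz0
  have hDnn : 0 ≤ D := by positivity
  have hz0lt : 0 < 1 - ‖z0‖ := by
    by_contra hcon
    push Not at hcon
    have := mul_nonpos_of_nonpos_of_nonneg hcon hDnn
    linarith
  have hDpos : 0 < D := by
    by_contra hcon
    push Not at hcon
    have : D = 0 := le_antisymm hcon hDnn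
    rw [this] at h0
    linarith
  set ρ := 1 / D with hρ
  have hρpos : 0 < ρ := by positivity
  have hρD : ρ * D = 1 := by rw [hρ]; field_simp
  have hcomp : ∀ z, aff z1 R (aff z0 ρ z) = aff (aff z1 R z0) (R * ρ) z := by
    intro z
    unfold aff
    push_cast
    ring
  have hnormf : ∀ z, ‖fderiv ℝ (fun z => Ψ (aff (aff z1 R z0) (R * ρ) z)) z‖ =
      ρ * (R * ‖fderiv ℝ Ψ (aff z1 R (aff z0 ρ z))‖) := by
    intro z
    rw [norm_fderiv_aff (by positivity) (hΨ.differentiableAt (mem_univ _)), hcomp]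
    ring
  have hnorm : ∀ z : ℂ, ‖aff z0 ρ z‖ ≤ ‖z0‖ + ρ * ‖z‖ := by
    intro z
    unfold aff
    refine (norm_add_le _ _).trans ?_
    rw [norm_mul, Complex.norm_real, Real.norm_of_nonneg hρpos.le]
  have hρM : ρ * M < 1 - ‖z0‖ := by
    have := mul_lt_mul_of_pos_left h0 hρpos
    calc ρ * M < ρ * ((1 - ‖z0‖) * D) := this
      _ = (1 - ‖z0‖) * (ρ * D) := by ring
      _ = 1 - ‖z0‖ := by rw [hρD, mul_one]
  refine ⟨aff z1 R z0, R * ρ, by positivity, fun z hz => ?_, ?_⟩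
  · have hz' : ‖z‖ < M / 2 := mem_ball_zero_iff.1 hz
    rw [hnormf]
    have h1 := hnorm z
    have h2 : ρ * ‖z‖ < ρ * (M / 2) := mul_lt_mul_of_pos_left hz' hρpos
    have h3 : (1 - ‖z0‖) / 2 ≤ 1 - ‖aff z0 ρ z‖ := by linarith
    have h4 := hmax' (aff z0 ρ z) (mem_closedBall_zero_iff.2 (by linarith))
    have h5 : (1 - ‖z0‖) / 2 * (R * ‖fderiv ℝ Ψ (aff z1 R (aff z0 ρ z))‖) ≤ (1 - ‖z0‖) * D :=
      (mul_le_mul_of_nonneg_right h3 (by positivity)).trans h4
    have h6 : R * ‖fderiv ℝ Ψ (aff z1 R (aff z0 ρ z))‖ ≤ 2 * D := by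
      by_contra hcon
      push Not at hcon
      have := mul_lt_mul_of_pos_left hcon (half_pos hz0lt)
      linarith
    calc ρ * (R * ‖fderiv ℝ Ψ (aff z1 R (aff z0 ρ z))‖) ≤ ρ * (2 * D) :=
          mul_le_mul_of_nonneg_left h6 hρpos.le
      _ = 2 * (ρ * D) := by ring
      _ = 2 := by rw [hρD, mul_one]
  · rw [hnormf 0]
    have : aff z0 ρ 0 = z0 := by simp [aff]
    rw [this]
    exact hρD

/-- the derivative of the affine coordinates -/
noncomputable def dv (j : Fin N) (M D : Mat N) : Fin N → ℂ :=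
  fun k => (D k j * M j j - M k j * D j j) / (M j j) ^ 2

lemma hasDerivAt_chart {φ : ℂ → Mat N} (hφ : HolP univ φ) {z : ℂ} {j : Fin N}
    (hj : φ z j j ≠ 0) (k : Fin N) :
    HasDerivAt (fun w => chart j (φ w) k) (dv j (φ z) (fderiv ℝ φ z 1) k) z := by
  have h1 : DifferentiableAt ℂ (fun w => chart j (φ w) k) z :=
    differentiableAt_pi.1 (hφ.diff_chart (mem_univ z) hj) k
  have h2 := h1.hasDerivAt
  have h3 : HasDerivAt (fun t : ℝ => chart j (φ (z + t)) k)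
      (deriv (fun w => chart j (φ w) k) z) 0 := by
    have h4 : HasDerivAt (fun w => chart j (φ (z + w)) k)
        (deriv (fun w => chart j (φ w) k) z) ((0 : ℝ) : ℂ) :=
      HasDerivAt.comp_const_add (f := fun w => chart j (φ w) k) z ((0 : ℝ) : ℂ)
        (by simpa using h2)
    exact h4.comp_ofReal
  have h5 : HasDerivAt (fun t : ℝ => φ (z + t)) (fderiv ℝ φ z 1) 0 := by
    have h6 : HasFDerivAt φ (fderiv ℝ φ z) (z + ((0 : ℝ) : ℂ)) := by
      simpa using (hφ.differentiableAt (mem_univ z)).hasFDerivAt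
    have h7 : HasDerivAt (fun t : ℝ => z + (t : ℂ)) 1 0 := by
      have := (Complex.ofRealCLM.hasDerivAt (x := (0 : ℝ))).const_add z
      simpa using this
    exact h6.comp_hasDerivAt 0 h7
  have h8 : ∀ k l, HasDerivAt (fun t : ℝ => φ (z + t) k l) (fderiv ℝ φ z 1 k l) 0 := fun k l =>
    (hasDerivAt_pi.1 ((hasDerivAt_pi.1 h5) k)) l
  have h9 := (h8 k j).div (h8 j j) (by simpa using hj)
  have h10 := h3.unique h9
  simp only [Complex.ofReal_zero, add_zero] at h10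
  rw [h10] at h2
  exact h2

/-- the zeros of the linear form on the curve are multiple -/
def Ram (a : Fin N → ℂ) (g : ℂ → Fin N → ℂ) : Prop :=
  ∀ z, dot a (g z) = 0 → deriv (fun z => dot a (g z)) z = 0

lemma diff_dot {g : ℂ → Fin N → ℂ} (a : Fin N → ℂ) {z : ℂ} (hg : DifferentiableAt ℂ g z) :
    DifferentiableAt ℂ (fun z => dot a (g z)) z := by
  unfold dot
  refine DifferentiableAt.fun_sum fun j _ => ?_
  exact (differentiableAt_pi.1 hg j).const_mul _

lemma Ram.aff {a : Fin N → ℂ} {g : ℂ → Fin N → ℂ} (h : Ram a g) (hg : Differentiable ℂ g)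
    (b : ℂ) (ρ : ℝ) : Ram a (fun z => g (aff b ρ z)) := by
  intro z hz
  have h1 := h _ hz
  have h2 : HasDerivAt (fun z => dot a (g z)) 0 (Pool.Agent.Y190.OP.aff b ρ z) := by
    rw [← h1]
    exact (diff_dot a (hg _)).hasDerivAt
  have h3 := h2.comp z (aff_diff b ρ z).hasDerivAt
  rw [zero_mul] at h3
  exact h3.deriv

lemma norm_Phi_le (u : Fin N → ℂ) (j k : Fin N) : ‖Phi u j k‖ ≤ 1 := by
  unfold Phi
  rw [nsq_eq, norm_div, norm_mul, Complex.norm_conj, Complex.norm_real, Real.norm_of_nonneg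
    (Finset.sum_nonneg fun l _ => by positivity)]
  apply div_le_one_of_le₀ _ (Finset.sum_nonneg fun l _ => by positivity)
  have h1 : ∀ l, ‖u l‖ ^ 2 ≤ ∑ l, ‖u l‖ ^ 2 := fun l =>
    Finset.single_le_sum (f := fun l => ‖u l‖ ^ 2) (fun i _ => by positivity) (Finset.mem_univ l)
  nlinarith [h1 j, h1 k, sq_nonneg (‖u j‖ - ‖u k‖)]

lemma norm_fd_le {φ : ℂ → Mat N} {z : ℂ} {C : ℝ} (h : ‖fderiv ℝ φ z‖ ≤ C) (j k : Fin N) :
    ‖fderiv ℝ φ z 1 j k‖ ≤ C := by
  have h1 := (fderiv ℝ φ z).le_opNorm 1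
  rw [norm_one, mul_one] at h1
  exact (((norm_le_pi_norm _ k).trans (norm_le_pi_norm _ j)).trans h1).trans h

lemma hasDerivAt_dot_chart (a : Fin N → ℂ) {φ : ℂ → Mat N} (hφ : HolP univ φ) {z : ℂ} {j : Fin N}
    (hj : φ z j j ≠ 0) : HasDerivAt (fun w => dot a (chart j (φ w)))
      (dot a (dv j (φ z) (fderiv ℝ φ z 1))) z := by
  unfold dot
  exact HasDerivAt.fun_sum fun k _ => (hasDerivAt_chart hφ hj k).const_mul (a k)

/-- the uniform estimate -/
theorem unif (a : Fin N → ℂ) (hN : 0 < N) : ∃ R : ℝ, 0 ≤ R ∧ ∀ g : ℂ → Fin N → ℂ,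
    Differentiable ℂ g → (∀ z, g z ≠ 0) → Ram a g → ∀ (z0 : ℂ) (j : Fin N),
      1 / (2 * (N : ℝ)) ≤ ‖Phi (g z0) j j‖ →
      (∀ z ∈ ball z0 1, ‖fderiv ℝ (fun z => Phi (g z)) z‖ ≤ 2) →
      ‖dot a (dv j (Phi (g z0)) (fderiv ℝ (fun z => Phi (g z)) z0 1))‖ ^ 2 ≤
        R * ‖dot a (chart j (Phi (g z0)))‖ := by
  have hN' : (1 : ℝ) ≤ N := by exact_mod_cast hN
  obtain ⟨c, hc⟩ : ∃ c : ℝ, c = 1 / (2 * (N : ℝ)) := ⟨_, rfl⟩
  have hcpos : 0 < c := by rw [hc]; positivity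
  have hc1 : c ≤ 1 / 2 := by
    rw [hc, div_le_div_iff₀ (by positivity) (by positivity)]
    linarith
  obtain ⟨M, hM⟩ : ∃ M : ℝ, M = ∑ k, ‖a k‖ * (2 / c) := ⟨_, rfl⟩
  have hM0 : 0 ≤ M := by rw [hM]; positivity
  refine ⟨256 * M / (c / 8) ^ 2, by positivity, ?_⟩
  intro g hg hg0 hr z0 j hj hd
  rw [← hc] at hj
  set φ : ℂ → Mat N := fun z => Phi (g z) with hφ
  have hφH : HolP univ φ := fun z _ => ⟨univ, g, isOpen_univ, mem_univ z, hg.differentiableOn,
    fun w _ => ⟨hg0 w, rfl⟩⟩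
  have hlow : ∀ w ∈ ball z0 (c / 8), c / 2 ≤ ‖φ w j j‖ := by
    intro w hw
    have hw1 : w ∈ ball z0 1 := ball_subset_ball (by linarith) hw
    have h1 : ‖φ w - φ z0‖ ≤ 2 * ‖w - z0‖ :=
      (convex_ball z0 1).norm_image_sub_le_of_norm_fderiv_le (𝕜 := ℝ)
        (fun x _ => hφH.differentiableAt (mem_univ x)) (fun x hx => hd x hx)
        (mem_ball_self one_pos) hw1
    have h2 : ‖w - z0‖ < c / 8 := by rw [← dist_eq_norm]; exact hw
    have h3 : ‖φ w j j - φ z0 j j‖ ≤ ‖φ w - φ z0‖ :=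
      (norm_le_pi_norm ((φ w - φ z0) j) j).trans (norm_le_pi_norm (φ w - φ z0) j)
    have h4 : ‖φ z0 j j‖ - ‖φ w j j‖ ≤ ‖φ w j j - φ z0 j j‖ := by
      rw [norm_sub_rev]
      exact norm_sub_norm_le _ _
    have h5 : c ≤ ‖φ z0 j j‖ := hj
    linarith
  have hne : ∀ w ∈ ball z0 (c / 8), φ w j j ≠ 0 := fun w hw => by
    have := hlow w hw
    intro h
    rw [h, norm_zero] at this
    linarith
  have hL := landau (u := fun w => dot a (chart j (φ w))) (z0 := z0) (δ := c / 8) (M := M)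
    (by positivity) ?_ ?_ ?_
  · rw [(hasDerivAt_dot_chart a hφH (hne z0 (mem_ball_self (by positivity)))).deriv] at hL
    exact hL
  · intro w hw
    exact (hasDerivAt_dot_chart a hφH (hne w hw)).differentiableAt.differentiableWithinAt
  · intro w hw
    rw [hM]
    unfold dot
    refine (norm_sum_le _ _).trans (Finset.sum_le_sum fun k _ => ?_)
    rw [norm_mul]
    refine mul_le_mul_of_nonneg_left ?_ (norm_nonneg _)
    unfold chart
    rw [norm_div, div_le_div_iff₀ (by linarith [hlow w hw]) hcpos]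
    have h1 := norm_Phi_le (g w) k j
    have h2 := hlow w hw
    have h3 : ‖φ w k j‖ ≤ 1 := h1
    nlinarith
  · intro w hw hw0
    have hgj : g w j ≠ 0 := (Phi_diag_ne (hg0 w)).1 (hne w hw)
    have hch : ∀ x, g x j ≠ 0 → dot a (chart j (φ x)) = (g x j)⁻¹ * dot a (g x) := by
      intro x hx
      rw [hφ]
      simp only
      rw [chart_Phi (hg0 x) hx]
      unfold dot
      rw [Finset.mul_sum]
      refine Finset.sum_congr rfl fun k _ => ?_
      rw [Pi.smul_apply, smul_eq_mul]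
      ring
    rw [hch w hgj] at hw0
    have hw1 : dot a (g w) = 0 := by
      rcases mul_eq_zero.1 hw0 with h | h
      · exact absurd h (inv_ne_zero hgj)
      · exact h
    have hgjd : DifferentiableAt ℂ (fun x => g x j) w := differentiableAt_pi.1 (hg w) j
    have hev : (fun x => dot a (chart j (φ x))) =ᶠ[𝓝 w] fun x => (g x j)⁻¹ * dot a (g x) := by
      filter_upwards [hgjd.continuousAt.eventually_ne hgj] with x hx
      exact hch x hx
    rw [hev.deriv_eq]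
    have h1 := (hgjd.inv hgj).hasDerivAt.mul (diff_dot a (hg w)).hasDerivAt
    rw [hr w hw1, hw1, mul_zero, mul_zero, add_zero] at h1
    exact h1.deriv

lemma sum_diag {M : Mat N} (hM : M ∈ PM) : ∑ j, M j j = 1 := by
  obtain ⟨u, hu, rfl⟩ := hM
  unfold Phi
  rw [← Finset.sum_div]
  exact div_self (nsq_ne hu)

/-- **Brody's lemma for curves ramified over hyperplanes.** -/
theorem brody_ram {I : Type} [Fintype I] (a : I → Fin N → ℂ) {g : ℂ → Fin N → ℂ}
    (hg : Differentiable ℂ g) (hg0 : ∀ z, g z ≠ 0) (hr : ∀ i, Ram (a i) g)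
    (hne : ¬ ∀ z, Phi (g z) = Phi (g 0)) :
    ∃ (G : ℂ → Fin N → ℂ) (R : ℝ), Differentiable ℂ G ∧ (∀ z, G z ≠ 0) ∧
      (¬ ∀ z, Phi (G z) = Phi (G 0)) ∧ ∀ z, ∃ (j : Fin N) (v w : Fin N → ℂ) (t : ℂ),
        ‖v‖ = 1 ∧ v j = 1 ∧ ‖w‖ ≤ R ∧ (∀ i, ‖dot (a i) w‖ ^ 2 ≤ R * ‖dot (a i) v‖) ∧
        G z j ≠ 0 ∧ G z = G z j • v ∧ deriv G z = G z j • w + t • v := by
  have hNpos : 0 < N := by
    rcases Nat.eq_zero_or_pos N with h | h
    · subst h
      exact absurd (Subsingleton.elim _ _) (hg0 0)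
    · exact h
  have hN' : (1 : ℝ) ≤ N := by exact_mod_cast hNpos
  set Ψ : ℂ → Mat N := fun z => Phi (g z) with hΨ
  have hΨH : HolP univ Ψ := fun z _ => ⟨univ, g, isOpen_univ, mem_univ z, hg.differentiableOn,
    fun w _ => ⟨hg0 w, rfl⟩⟩
  have h1 : ∀ n : ℕ, ∃ (b : ℂ) (ρ : ℝ), 0 < ρ ∧
      (∀ z ∈ ball (0 : ℂ) ((n + 1 : ℝ) / 2), ‖fderiv ℝ (fun z => Ψ (aff b ρ z)) z‖ ≤ 2) ∧
      ‖fderiv ℝ (fun z => Ψ (aff b ρ z)) 0‖ = 1 := fun n => rescale' hΨH hne (by positivity)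
  choose b ρ hρ hd hd0 using h1
  obtain ⟨h, hh⟩ : ∃ h : ℕ → ℂ → Mat N, h = fun n z => Ψ (aff (b n) (ρ n) z) := ⟨_, rfl⟩
  obtain ⟨gn, hgn⟩ : ∃ gn : ℕ → ℂ → Fin N → ℂ, gn = fun n z => g (aff (b n) (ρ n) z) := ⟨_, rfl⟩
  have hhg : ∀ n z, h n z = Phi (gn n z) := fun n z => by rw [hh, hgn]
  have hgn0 : ∀ n z, gn n z ≠ 0 := fun n z => by rw [hgn]; exact hg0 _
  have hgnd : ∀ n, Differentiable ℂ (gn n) := fun n => by
    rw [hgn]; exact hg.comp (aff_diff _ _)
  have hgnr : ∀ n i, Ram (a i) (gn n) := fun n i => by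
    rw [hgn]; exact (hr i).aff hg _ _
  have hH : ∀ n, HolP univ (h n) := fun n => by
    rw [hh]; exact (hΨH.aff (b n) (ρ n))
  have hHd : ∀ n : ℕ, ∀ z ∈ ball (0 : ℂ) ((n + 1 : ℝ) / 2), ‖fderiv ℝ (h n) z‖ ≤ 2 := fun n => by
    rw [hh]; exact hd n
  have hH0 : ∀ n, ‖fderiv ℝ (h n) 0‖ = 1 := fun n => by rw [hh]; exact hd0 n
  set 𝓤 : Ultrafilter ℕ := hyperfilter ℕ with h𝓤
  have hcof : ∀ R : ℝ, ∀ᶠ n : ℕ in (𝓤 : Filter ℕ), R ≤ n := by
    intro R
    have h2 : ∀ᶠ n : ℕ in atTop, R ≤ n := by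
      filter_upwards [eventually_ge_atTop ⌈R⌉₊] with n hn
      exact (Nat.le_ceil R).trans (by exact_mod_cast hn)
    have h3 : (𝓤 : Filter ℕ) ≤ atTop := by
      rw [← Nat.cofinite_eq_atTop]
      exact hyperfilter_le_cofinite
    exact h3 h2
  have hlim : ∀ z : ℂ, ∃ y ∈ (PM : Set (Mat N)), Tendsto (fun n => h n z) 𝓤 (𝓝 y) := by
    intro z
    set u : ℕ → Fin N → ℂ := fun n => (‖gn n z‖ : ℂ)⁻¹ • gn n z with hu
    have hun : ∀ n, u n ∈ sphere (0 : Fin N → ℂ) 1 := by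
      intro n
      rw [mem_sphere_zero_iff_norm, hu]
      simp only
      rw [norm_smul, norm_inv, Complex.norm_real, norm_norm]
      exact inv_mul_cancel₀ (norm_pos_iff.2 (hgn0 n z)).ne'
    have hun' : ∀ᶠ n in (𝓤 : Filter ℕ), u n ∈ sphere (0 : Fin N → ℂ) 1 :=
      Eventually.of_forall hun
    obtain ⟨v, hv, hvt⟩ := (isCompact_sphere (0 : Fin N → ℂ) 1).ultrafilter_le_nhds
      (𝓤.map u) (by
        rw [le_principal_iff]
        exact hun')
    have hvt' : Tendsto u 𝓤 (𝓝 v) := hvt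
    have hv0 : v ≠ 0 := by
      rintro rfl
      rw [mem_sphere_zero_iff_norm, norm_zero] at hv
      exact zero_ne_one hv
    refine ⟨Phi v, ⟨v, hv0, rfl⟩, ?_⟩
    refine (((continuousAt_Phi hv0).tendsto).comp hvt').congr fun n => ?_
    have hn : (‖gn n z‖ : ℂ)⁻¹ ≠ 0 := by
      apply inv_ne_zero
      exact_mod_cast (norm_pos_iff.2 (hgn0 n z)).ne'
    rw [Function.comp_apply, hu]
    simp only
    rw [Phi_smul hn, hhg]
  choose H hHmem hHt using hlim
  have hCC : ∀ R : ℝ, 0 < R → CConv (𝓤 : Filter ℕ) (ball 0 R) h H := by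
    intro R hR z hz
    rw [Metric.tendsto_nhds]
    intro ε hε
    have h2 := Metric.tendsto_nhds.1 (hHt z) (ε / 2) (by positivity)
    have h3 := hcof (2 * R)
    rw [eventually_prod_iff]
    refine ⟨_, h2.and h3, fun w => w ∈ ball (0 : ℂ) R ∧ dist w z < ε / 4, ?_, ?_⟩
    · have h4 : ∀ᶠ w in 𝓝 z, w ∈ ball (0 : ℂ) R := isOpen_ball.mem_nhds hz
      have h5 : ∀ᶠ w in 𝓝 z, dist w z < ε / 4 := ball_mem_nhds z (by positivity)
      exact h4.and h5
    · rintro n ⟨hn1, hn2⟩ w ⟨hw1, hw2⟩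
      have h6 : ‖h n w - h n z‖ ≤ 2 * ‖w - z‖ := by
        have hsub : ball (0 : ℂ) R ⊆ ball (0 : ℂ) ((n + 1 : ℝ) / 2) :=
          ball_subset_ball (by linarith)
        exact (convex_ball (0 : ℂ) R).norm_image_sub_le_of_norm_fderiv_le
          (fun x _ => (hH n).differentiableAt (mem_univ x))
          (fun x hx => hHd n x (hsub hx)) hz hw1
      calc dist (h n w) (H z) ≤ dist (h n w) (h n z) + dist (h n z) (H z) := dist_triangle _ _ _
        _ < ε / 2 + ε / 2 := by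
            refine add_lt_add ?_ hn1
            rw [dist_eq_norm]
            rw [dist_eq_norm] at hw2
            linarith
        _ = ε := by ring
  have hl := fun (R : ℝ) (hR : 0 < R) => holP_limit isOpen_ball (hCC R hR)
    (Eventually.of_forall fun n => (hH n).mono (subset_univ _)) (fun z _ => hHmem z)
  have hHol : HolP univ H := by
    intro z _
    exact (hl (‖z‖ + 1) (by positivity)).1 z (mem_ball_zero_iff.2 (by linarith))
  have hfd : ∀ z, Tendsto (fun n => fderiv ℝ (h n) z) 𝓤 (𝓝 (fderiv ℝ H z)) := fun z =>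
    (hl (‖z‖ + 1) (by positivity)).2 z (mem_ball_zero_iff.2 (by linarith))
  have hHn : ∀ z, ‖fderiv ℝ H z‖ ≤ 2 := by
    intro z
    refine le_of_tendsto (hfd z).norm ?_
    filter_upwards [hcof (2 * ‖z‖ + 2)] with n hn
    exact hHd n z (mem_ball_zero_iff.2 (by linarith))
  have hHne : ¬ ∀ z, H z = H 0 := by
    intro hc
    have hc1 : fderiv ℝ H 0 = 0 := by
      have : H = fun _ => H 0 := funext fun z => hc z
      rw [this]; simp
    have ht := hfd 0
    rw [hc1] at ht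
    have e1 := (ht.norm).eventually_lt_const (u := 1) (by simp)
    obtain ⟨n, hn⟩ := e1.exists
    rw [hH0 n] at hn
    exact lt_irrefl _ hn
  obtain ⟨G, hG, hG0, hGH⟩ := zero_free hHol
  choose R1 hR10 hR1 using fun i => unif (a i) hNpos
  set R : ℝ := ∑ i, R1 i + 4 * (N : ℝ) ^ 2 with hR
  have hRi : ∀ i, R1 i ≤ R := by
    intro i
    have := Finset.single_le_sum (f := R1) (fun i _ => hR10 i) (Finset.mem_univ i)
    rw [hR]
    nlinarith
  refine ⟨G, R, hG, hG0, fun hc => hHne fun z => by rw [hGH z, hGH 0, hc z], fun z => ?_⟩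
  -- the largest coordinate
  have : Nonempty (Fin N) := ⟨⟨0, hNpos⟩⟩
  obtain ⟨j, hj⟩ := Finite.exists_max fun j => ‖G z j‖
  have hGj : G z j ≠ 0 := by
    intro h0
    apply hG0 z
    funext k
    have := hj k
    rw [h0, norm_zero] at this
    exact norm_le_zero_iff.1 this
  have hHj : H z j j ≠ 0 := by
    rw [hGH z]; exact (Phi_diag_ne (hG0 z)).2 hGj
  have hdiag : ∀ k, ‖H z k k‖ ≤ ‖H z j j‖ := by
    intro k
    rw [hGH z]
    unfold Phi
    rw [norm_div, norm_div, norm_mul, norm_mul, Complex.norm_conj, Complex.norm_conj]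
    have := hj k
    gcongr
  have hHj1 : 1 / (N : ℝ) ≤ ‖H z j j‖ := by
    have h2 := sum_diag (hHmem z)
    have h3 : (1 : ℝ) ≤ ∑ k : Fin N, ‖H z k k‖ := by
      calc (1 : ℝ) = ‖∑ k, H z k k‖ := by rw [h2, norm_one]
        _ ≤ _ := norm_sum_le _ _
    have h4 : ∑ k : Fin N, ‖H z k k‖ ≤ N * ‖H z j j‖ := by
      calc ∑ k : Fin N, ‖H z k k‖ ≤ ∑ _k : Fin N, ‖H z j j‖ :=
            Finset.sum_le_sum fun k _ => hdiag k
        _ = N * ‖H z j j‖ := by simp
    rw [div_le_iff₀ (by linarith)]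
    linarith
  have hv : chart j (H z) = (G z j)⁻¹ • G z := by
    rw [hGH z]; exact chart_Phi (hG0 z) hGj
  refine ⟨j, chart j (H z), dv j (H z) (fderiv ℝ H z 1), deriv (fun z => G z j) z, ?_, ?_, ?_, ?_,
    hGj, ?_, ?_⟩
  · apply le_antisymm
    · rw [pi_norm_le_iff_of_nonneg zero_le_one]
      intro k
      rw [hv, Pi.smul_apply, smul_eq_mul, norm_mul, norm_inv]
      rw [inv_mul_le_iff₀ (norm_pos_iff.2 hGj), mul_one]
      exact hj k
    · have : ‖chart j (H z) j‖ = 1 := by rw [PM.chart_self hHj, norm_one]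
      rw [← this]
      exact norm_le_pi_norm _ j
  · exact PM.chart_self hHj
  · rw [pi_norm_le_iff_of_nonneg (by
      have : 0 ≤ ∑ i, R1 i := Finset.sum_nonneg fun i _ => hR10 i
      rw [hR]; positivity)]
    intro k
    unfold dv
    rw [norm_div, norm_pow]
    have e1 : ‖fderiv ℝ H z 1 k j * H z j j - H z k j * fderiv ℝ H z 1 j j‖ ≤ 4 := by
      refine (norm_sub_le _ _).trans ?_
      rw [norm_mul, norm_mul]
      have e2 := norm_fd_le (hHn z) k j
      have e3 := norm_fd_le (hHn z) j j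
      have e4 : ‖H z j j‖ ≤ 1 := by rw [hGH z]; exact norm_Phi_le _ _ _
      have e5 : ‖H z k j‖ ≤ 1 := by rw [hGH z]; exact norm_Phi_le _ _ _
      nlinarith [norm_nonneg (H z j j), norm_nonneg (H z k j),
        norm_nonneg (fderiv ℝ H z 1 k j), norm_nonneg (fderiv ℝ H z 1 j j)]
    have e6 : (1 / (N : ℝ)) ^ 2 ≤ ‖H z j j‖ ^ 2 := pow_le_pow_left₀ (by positivity) hHj1 2
    have e7 : 0 < (1 / (N : ℝ)) ^ 2 := by positivity
    calc ‖fderiv ℝ H z 1 k j * H z j j - H z k j * fderiv ℝ H z 1 j j‖ / ‖H z j j‖ ^ 2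
        ≤ 4 / (1 / (N : ℝ)) ^ 2 := by gcongr
      _ = 4 * (N : ℝ) ^ 2 := by field_simp
      _ ≤ R := by
          rw [hR]
          have : 0 ≤ ∑ i, R1 i := Finset.sum_nonneg fun i _ => hR10 i
          linarith
  · intro i
    have ht : Tendsto (fun n => h n z) 𝓤 (𝓝 (H z)) := hHt z
    have htd : Tendsto (fun n => fderiv ℝ (h n) z 1) 𝓤 (𝓝 (fderiv ℝ H z 1)) :=
      ((ContinuousLinearMap.apply ℝ (Mat N) (1 : ℂ)).continuous.tendsto _).comp (hfd z)
    have c1 : ∀ k l, Tendsto (fun n => h n z k l) 𝓤 (𝓝 (H z k l)) := fun k l =>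
      ((continuous_apply_apply k l).tendsto _).comp ht
    have c2 : ∀ k l, Tendsto (fun n => fderiv ℝ (h n) z 1 k l) 𝓤 (𝓝 (fderiv ℝ H z 1 k l)) :=
      fun k l => ((continuous_apply_apply k l).tendsto _).comp htd
    have c3 : Tendsto (fun n => dot (a i) (chart j (h n z))) 𝓤 (𝓝 (dot (a i) (chart j (H z)))) := by
      unfold dot chart
      exact tendsto_finsetSum _ fun k _ => ((c1 k j).div (c1 j j) hHj).const_mul _
    have c4 : Tendsto (fun n => dot (a i) (dv j (h n z) (fderiv ℝ (h n) z 1))) 𝓤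
        (𝓝 (dot (a i) (dv j (H z) (fderiv ℝ H z 1)))) := by
      unfold dot dv
      exact tendsto_finsetSum _ fun k _ => ((((c2 k j).mul (c1 j j)).sub
        ((c1 k j).mul (c2 j j))).div ((c1 j j).pow 2) (pow_ne_zero 2 hHj)).const_mul _
    have c5 : ‖dot (a i) (dv j (H z) (fderiv ℝ H z 1))‖ ^ 2 ≤
        R1 i * ‖dot (a i) (chart j (H z))‖ := by
      refine le_of_tendsto_of_tendsto (c4.norm.pow 2) (c3.norm.const_mul (R1 i)) ?_
      have e1 : ∀ᶠ n in (𝓤 : Filter ℕ), 1 / (2 * (N : ℝ)) < ‖h n z j j‖ := by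
        refine (c1 j j).norm.eventually_const_lt ?_
        refine lt_of_lt_of_le ?_ hHj1
        rw [div_lt_div_iff₀ (by positivity) (by positivity)]
        linarith
      filter_upwards [e1, hcof (2 * (‖z‖ + 1))] with n hn1 hn2
      have e2 := hR1 i (gn n) (hgnd n) (hgn0 n) (hgnr n i) z j
        (by rw [← hhg]; exact hn1.le) (by
          intro w hw
          have e3 : (fun z => Phi (gn n z)) = h n := funext fun z => (hhg n z).symm
          rw [e3]
          apply hHd n w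
          rw [mem_ball_zero_iff]
          have e4 : ‖w - z‖ < 1 := by rw [← dist_eq_norm]; exact hw
          have e5 : ‖w‖ ≤ ‖w - z‖ + ‖z‖ := by
            calc ‖w‖ = ‖(w - z) + z‖ := by rw [sub_add_cancel]
              _ ≤ _ := norm_add_le _ _
          linarith)
      have e3 : (fun z => Phi (gn n z)) = h n := funext fun z => (hhg n z).symm
      rw [e3, ← hhg] at e2
      exact e2
    exact c5.trans (mul_le_mul_of_nonneg_right (hRi i) (norm_nonneg _))
  · rw [hv, smul_smul, mul_inv_cancel₀ hGj, one_smul]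
  · have hGd : ∀ k, HasDerivAt (fun z => G z k) (deriv (fun z => G z k) z) z := fun k =>
      (differentiableAt_pi.1 (hG z) k).hasDerivAt
    have h2 : deriv G z = fun k => deriv (fun z => G z k) z := by
      exact (hasDerivAt_pi.2 hGd).deriv
    rw [h2]
    funext k
    have hev : (fun x => G x k) =ᶠ[𝓝 z] fun x => G x j * chart j (H x) k := by
      filter_upwards [(hGd j).continuousAt.eventually_ne hGj] with x hx
      rw [hGH x, chart_Phi (hG0 x) hx, Pi.smul_apply, smul_eq_mul, ← mul_assoc,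
        mul_inv_cancel₀ hx, one_mul]
    rw [hev.deriv_eq]
    have h3 : HasDerivAt (fun x => G x j * chart j (H x) k) _ z :=
      (hGd j).mul (hasDerivAt_chart hHol hHj k)
    rw [h3.deriv, Pi.add_apply, Pi.smul_apply, Pi.smul_apply, smul_eq_mul, smul_eq_mul]
    ring

end Pool.Agent.K7.H11.GG
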