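import Mathlib

/-! Existence of forms in the powers of the ideals of the hyperplanes in the tangent directions:
the dimension count. -/

set_option autoImplicit false

namespace Pool.Agent.K7.H11.GG

open MvPolynomial Finset

section Piv

variable {K σ κ : Type*} [CommRing K] [Fintype κ] [DecidableEq κ]

/-- the linear form `∑ j, a j * X (e j)` -/
noncomputable def lin (a : κ → K) (e : κ → σ) : MvPolynomial σ K := ∑ j, C (a j) * X (e j)

end Piv

section PivF

variable {K σ κ : Type*} [Field K] [Fintype κ] [DecidableEq κ]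

/-- the substitution which takes the linear form with coefficients `a` to the variable `e p` -/
noncomputable def piv (a : κ → K) (p : κ) (e : κ → σ) (j : κ) : MvPolynomial σ K :=
  if j = p then C (a p)⁻¹ * (X (e p) - ∑ i ∈ univ.erase p, C (a i) * X (e i)) else X (e j)

lemma piv_inv {τ : Type*} (a : κ → K) (p : κ) (e : κ → σ) (hp : a p ≠ 0)
    (S : MvPolynomial σ K →ₐ[K] MvPolynomial τ K) (e' : κ → τ)
    (hS : ∀ j, S (X (e j)) = if j = p then lin a e' else X (e' j)) (j : κ) :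
    S (piv a p e j) = X (e' j) := by
  unfold piv
  split_ifs with h
  · subst h
    rw [map_mul, map_sub, map_sum, hS, if_pos rfl]
    have h1 : ∀ c : K, S (C c) = C c := fun c => by
      exact S.commutes c
    rw [h1]
    have h2 : ∑ i ∈ univ.erase j, S (C (a i) * X (e i)) = ∑ i ∈ univ.erase j, C (a i) * X (e' i) := by
      refine Finset.sum_congr rfl fun i hi => ?_
      rw [map_mul, h1, hS, if_neg (Finset.ne_of_mem_erase hi)]
    rw [h2]
    unfold lin
    rw [← Finset.add_sum_erase univ _ (Finset.mem_univ j), add_sub_cancel_right, ← mul_assoc,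
      ← C_mul, inv_mul_cancel₀ hp, C_1, one_mul]
  · rw [hS, if_neg h]

end PivF

/-- the variables `X_0, …, X_{m+1}` and `ξ_0, …, ξ_m` -/
abbrev Sg (m : ℕ) := Fin (m + 2) ⊕ Fin (m + 1)

/-- the bidegree -/
def wt (m : ℕ) : Sg m → ℕ × ℕ := Sum.elim (fun _ => (1, 0)) (fun _ => (0, 1))

section Main

variable {K : Type*} [Field K] {m : ℕ}

/-- the change of variables -/
noncomputable def TT (a : Fin (m + 2) → K) : MvPolynomial (Sg m) K →ₐ[K] MvPolynomial (Sg m) K :=
  aeval (Sum.elim (piv a 1 Sum.inl) (piv (fun j => a j.succ) 0 Sum.inr))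

/-- the inverse change of variables -/
noncomputable def SS (a : Fin (m + 2) → K) : MvPolynomial (Sg m) K →ₐ[K] MvPolynomial (Sg m) K :=
  aeval (Sum.elim (fun j => if j = 1 then lin a Sum.inl else X (Sum.inl j))
    (fun j => if j = 0 then lin (fun j => a (Fin.succ j)) Sum.inr else X (Sum.inr j)))

lemma SS_TT (a : Fin (m + 2) → K) (ha : a 1 ≠ 0) (p : MvPolynomial (Sg m) K) :
    SS a (TT a p) = p := by
  have h : (SS a).comp (TT a) = AlgHom.id K _ := by
    apply MvPolynomial.algHom_ext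
    rintro (j | j)
    · rw [AlgHom.comp_apply, TT, aeval_X, Sum.elim_inl, AlgHom.id_apply]
      exact piv_inv a 1 _ ha (SS a) Sum.inl (fun j => by rw [SS, aeval_X, Sum.elim_inl]) j
    · rw [AlgHom.comp_apply, TT, aeval_X, Sum.elim_inr, AlgHom.id_apply]
      exact piv_inv (fun j => a (Fin.succ j)) 0 _ ha (SS a) Sum.inr
        (fun j => by rw [SS, aeval_X, Sum.elim_inr]) j
  have := congrArg (fun f => f p) h
  simpa using this

/-- a substitution by forms of the right weights preserves the weights -/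
lemma wh_aeval {σ τ M : Type*} [AddCommMonoid M] {w : σ → M} {w' : τ → M}
    {f : σ → MvPolynomial τ K} (hf : ∀ v, IsWeightedHomogeneous w' (f v) (w v))
    {p : MvPolynomial σ K} {n : M} (hp : IsWeightedHomogeneous w p n) :
    IsWeightedHomogeneous w' (aeval f p) n := by
  rw [aeval_def, eval₂_eq]
  refine IsWeightedHomogeneous.sum _ _ _ fun d hd => ?_
  have h1 : Finsupp.weight w d = n := hp (mem_support_iff.1 hd)
  rw [algebraMap_eq]
  refine IsWeightedHomogeneous.C_mul ?_ _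
  rw [← h1, Finsupp.weight_apply]
  refine IsWeightedHomogeneous.prod _ _ _ fun i _ => ?_
  exact (hf i).pow (d i)

lemma wh_lin {κ σ M : Type*} [Fintype κ] [AddCommMonoid M] {w : σ → M} {n : M} (a : κ → K)
    (e : κ → σ) (he : ∀ j, w (e j) = n) : IsWeightedHomogeneous w (lin a e) n := by
  refine IsWeightedHomogeneous.sum _ _ _ fun j _ => ?_
  refine IsWeightedHomogeneous.C_mul ?_ _
  rw [← he j]
  exact isWeightedHomogeneous_X K w (e j)

lemma wh_piv {κ σ M : Type*} [Fintype κ] [DecidableEq κ] [AddCommMonoid M] {w : σ → M} {n : M}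
    (a : κ → K) (p : κ) (e : κ → σ) (he : ∀ j, w (e j) = n) (j : κ) :
    IsWeightedHomogeneous w (piv a p e j) n := by
  unfold piv
  split_ifs with h
  · refine IsWeightedHomogeneous.C_mul ?_ _
    refine IsWeightedHomogeneous.sub ?_ ?_
    · rw [← he p]
      exact isWeightedHomogeneous_X K w _
    · refine IsWeightedHomogeneous.sum _ _ _ fun j _ => ?_
      refine IsWeightedHomogeneous.C_mul ?_ _
      rw [← he j]
      exact isWeightedHomogeneous_X K w (e j)
  · rw [← he j]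
    exact isWeightedHomogeneous_X K w (e j)

lemma wh_TT (a : Fin (m + 2) → K) {p : MvPolynomial (Sg m) K} {n : ℕ × ℕ}
    (hp : IsWeightedHomogeneous (wt m) p n) : IsWeightedHomogeneous (wt m) (TT a p) n := by
  refine wh_aeval (fun v => ?_) hp
  cases v with
  | inl j =>
    rw [Sum.elim_inl, show wt m (Sum.inl j) = ((1, 0) : ℕ × ℕ) from rfl]
    refine wh_piv (w := wt m) (n := ((1, 0) : ℕ × ℕ)) a 1 Sum.inl (fun i => ?_) j
    rfl
  | inr j =>
    rw [Sum.elim_inr, show wt m (Sum.inr j) = ((0, 1) : ℕ × ℕ) from rfl]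
    refine wh_piv (w := wt m) (n := ((0, 1) : ℕ × ℕ)) (fun j => a (Fin.succ j)) 0 Sum.inr
      (fun i => ?_) j
    rfl

/-- the ideal of the hyperplane -/
noncomputable def I1 {R : Type*} [CommRing R] (a : Fin (m + 2) → R) :
    Ideal (MvPolynomial (Sg m) R) :=
  Ideal.span {lin a Sum.inl, lin (fun j => a (Fin.succ j)) Sum.inr}

lemma mem_of_low {p : MvPolynomial (Sg m) K} {k : ℕ}
    (h : ∀ d ∈ p.support, k ≤ d (Sum.inl 1) + d (Sum.inr 0)) :
    p ∈ (Ideal.span {X (Sum.inl 1), X (Sum.inr 0)} : Ideal (MvPolynomial (Sg m) K)) ^ k := by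
  rw [p.as_sum]
  refine Ideal.sum_mem _ fun d hd => ?_
  set J : Ideal (MvPolynomial (Sg m) K) := Ideal.span {X (Sum.inl 1), X (Sum.inr 0)} with hJ
  have h1 : (monomial d (coeff d p)) = C (coeff d p) * ∏ i, X i ^ d i := by
    rw [monomial_eq, Finsupp.prod_fintype]
    intro i
    rw [pow_zero]
  rw [h1]
  apply Ideal.mul_mem_left
  have h2 : (∏ i : Sg m, (X i : MvPolynomial (Sg m) K) ^ d i) = (X (Sum.inl 1) ^ d (Sum.inl 1) *
      X (Sum.inr 0) ^ d (Sum.inr 0)) * ((∏ i ∈ univ.erase (1 : Fin (m + 2)),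
        X (Sum.inl i) ^ d (Sum.inl i)) * ∏ i ∈ univ.erase (0 : Fin (m + 1)),
        X (Sum.inr i) ^ d (Sum.inr i)) := by
    rw [Fintype.prod_sum_type, ← Finset.mul_prod_erase univ _ (Finset.mem_univ (1 : Fin (m + 2))),
      ← Finset.mul_prod_erase univ (fun i => X (Sum.inr i) ^ d (Sum.inr i))
        (Finset.mem_univ (0 : Fin (m + 1)))]
    ring
  rw [h2]
  apply Ideal.mul_mem_right
  have h3 : (X (Sum.inl 1) : MvPolynomial (Sg m) K) ^ d (Sum.inl 1) *
      X (Sum.inr 0) ^ d (Sum.inr 0) ∈ J ^ (d (Sum.inl 1) + d (Sum.inr 0)) := by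
    rw [pow_add]
    apply Ideal.mul_mem_mul
    · exact Ideal.pow_mem_pow (Ideal.subset_span (by simp)) _
    · exact Ideal.pow_mem_pow (Ideal.subset_span (by simp)) _
  exact Ideal.pow_le_pow_right (h d hd) h3

lemma mem_I1_of_low (a : Fin (m + 2) → K) (ha : a 1 ≠ 0) {p : MvPolynomial (Sg m) K} {k : ℕ}
    (h : ∀ d ∈ (TT a p).support, k ≤ d (Sum.inl 1) + d (Sum.inr 0)) : p ∈ I1 a ^ k := by
  have h1 := Ideal.mem_map_of_mem (SS a).toRingHom (mem_of_low h)
  have h2 : (SS a).toRingHom (TT a p) = p := SS_TT a ha p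
  rw [h2, Ideal.map_pow, Ideal.map_span] at h1
  have h3 : ((SS a).toRingHom '' {X (Sum.inl 1), X (Sum.inr 0)} : Set (MvPolynomial (Sg m) K)) =
      {lin a Sum.inl, lin (fun j => a (Fin.succ j)) Sum.inr} := by
    rw [Set.image_pair]
    congr 1
    · change SS a (X (Sum.inl 1)) = _
      rw [SS, aeval_X, Sum.elim_inl, if_pos rfl]
    · change {SS a (X (Sum.inr 0))} = _
      rw [SS, aeval_X, Sum.elim_inr, if_pos rfl]
  rw [h3] at h1
  exact h1

/-! ### counting -/

lemma mc_rec (s t : ℕ) : Nat.multichoose (s + 1) t * s = Nat.multichoose s t * (s + t) := by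
  rcases Nat.eq_zero_or_pos s with rfl | hs
  · rcases t with _ | t
    · simp
    · rw [Nat.multichoose_zero_succ]; simp
  · obtain ⟨s, rfl⟩ : ∃ s', s = s' + 1 := ⟨s - 1, by omega⟩
    rw [Nat.multichoose_eq, Nat.multichoose_eq]
    have h1 : s + 1 + 1 + t - 1 = (s + t) + 1 := by omega
    have h2 : s + 1 + t - 1 = s + t := by omega
    rw [h1, h2]
    have h3 := Nat.choose_mul_succ_eq (s + t) t
    have h4 : s + t + 1 - t = s + 1 := by omega
    rw [h4] at h3
    rw [← h3]
    ring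

lemma mc_pos (s t : ℕ) : 0 < Nat.multichoose (s + 1) t := by
  rw [Nat.multichoose_eq]
  apply Nat.choose_pos
  omega

lemma mc_mono_right (s : ℕ) {t t' : ℕ} (h : t ≤ t') :
    Nat.multichoose (s + 1) t ≤ Nat.multichoose (s + 1) t' := by
  induction h with
  | refl => exact le_rfl
  | step h ih =>
    refine ih.trans ?_
    rw [Nat.multichoose_succ_succ]
    exact Nat.le_add_left _ _

/-- the exponents of bidegree `(A, B)` -/
def Ex (m A B : ℕ) : Finset ((Fin (m + 2) →₀ ℕ) × (Fin (m + 1) →₀ ℕ)) :=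
  finsuppAntidiag univ A ×ˢ finsuppAntidiag univ B

/-- the exponents of low degree -/
def Low (m A B k : ℕ) : Finset ((Fin (m + 2) →₀ ℕ) × (Fin (m + 1) →₀ ℕ)) :=
  (Ex m A B).filter fun x => x.1 1 + x.2 0 < k

lemma card_Ex (m A B : ℕ) :
    #(Ex m A B) = Nat.multichoose (m + 2) A * Nat.multichoose (m + 1) B := by
  rw [Ex, Finset.card_product, card_finsuppAntidiag_nat_eq_multichoose,
    card_finsuppAntidiag_nat_eq_multichoose]
  simp

lemma card_fib (m A B a b : ℕ) :
    #((Ex m A B).filter fun x => (x.1 1, x.2 0) = (a, b)) ≤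
      Nat.multichoose (m + 1) (A - a) * Nat.multichoose m (B - b) := by
  classical
  have h1 : #(finsuppAntidiag (univ.erase (1 : Fin (m + 2))) (A - a) ×ˢ
      finsuppAntidiag (univ.erase (0 : Fin (m + 1))) (B - b)) =
      Nat.multichoose (m + 1) (A - a) * Nat.multichoose m (B - b) := by
    rw [Finset.card_product, card_finsuppAntidiag_nat_eq_multichoose,
      card_finsuppAntidiag_nat_eq_multichoose]
    simp
  rw [← h1]
  apply Finset.card_le_card_of_injOn (fun x => (x.1.erase 1, x.2.erase 0))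
  · rintro x hx
    rw [Finset.coe_filter, Set.mem_ofPred_eq, Ex, Finset.mem_product, mem_finsuppAntidiag,
      mem_finsuppAntidiag, Prod.mk.injEq] at hx
    obtain ⟨⟨⟨hA, -⟩, hB, -⟩, ha, hb⟩ := hx
    rw [Finset.mem_coe, Finset.mem_product, mem_finsuppAntidiag, mem_finsuppAntidiag]
    refine ⟨⟨?_, ?_⟩, ?_, ?_⟩
    · have h2 : ∑ i ∈ univ.erase (1 : Fin (m + 2)), (x.1.erase 1) i =
          ∑ i ∈ univ.erase (1 : Fin (m + 2)), x.1 i :=
        Finset.sum_congr rfl fun i hi => Finsupp.erase_ne (Finset.ne_of_mem_erase hi)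
      have h3 := Finset.add_sum_erase univ (fun i => x.1 i) (Finset.mem_univ (1 : Fin (m + 2)))
      have h4 : ∑ i, x.1 i = A := hA
      simp only at h3 ⊢
      rw [h2]
      rw [h4, ha] at h3
      exact (Nat.sub_eq_of_eq_add' h3.symm).symm
    · intro i hi
      rw [Finsupp.support_erase] at hi
      exact Finset.mem_erase.2 ⟨Finset.ne_of_mem_erase hi, Finset.mem_univ _⟩
    · have h2 : ∑ i ∈ univ.erase (0 : Fin (m + 1)), (x.2.erase 0) i =
          ∑ i ∈ univ.erase (0 : Fin (m + 1)), x.2 i :=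
        Finset.sum_congr rfl fun i hi => Finsupp.erase_ne (Finset.ne_of_mem_erase hi)
      have h3 := Finset.add_sum_erase univ (fun i => x.2 i) (Finset.mem_univ (0 : Fin (m + 1)))
      have h4 : ∑ i, x.2 i = B := hB
      simp only at h3 ⊢
      rw [h2]
      rw [h4, hb] at h3
      exact (Nat.sub_eq_of_eq_add' h3.symm).symm
    · intro i hi
      rw [Finsupp.support_erase] at hi
      exact Finset.mem_erase.2 ⟨Finset.ne_of_mem_erase hi, Finset.mem_univ _⟩
  · rintro x hx y hy hxy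
    rw [Finset.coe_filter, Set.mem_ofPred_eq, Prod.mk.injEq] at hx hy
    obtain ⟨-, ha, hb⟩ := hx
    obtain ⟨-, ha', hb'⟩ := hy
    simp only [Prod.mk.injEq] at hxy
    refine Prod.ext ?_ ?_
    · ext i
      by_cases hi : i = 1
      · subst hi; rw [ha, ha']
      · have := DFunLike.congr_fun hxy.1 i
        rwa [Finsupp.erase_ne hi, Finsupp.erase_ne hi] at this
    · ext i
      by_cases hi : i = 0
      · subst hi; rw [hb, hb']
      · have := DFunLike.congr_fun hxy.2 i
        rwa [Finsupp.erase_ne hi, Finsupp.erase_ne hi] at this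

lemma mc_sub (m B b : ℕ) (hb : b < B) : Nat.multichoose m (B - b) ≤ Nat.multichoose m B := by
  rcases m with _ | m
  · obtain ⟨c, hc⟩ : ∃ c, B - b = c + 1 := ⟨B - b - 1, by omega⟩
    rw [hc, Nat.multichoose_zero_succ]
    exact Nat.zero_le _
  · exact mc_mono_right m (Nat.sub_le _ _)

lemma card_Low (m A B k : ℕ) (hk : k ≤ B) :
    #(Low m A B k) ≤ (∑ t ∈ range k, (t + 1)) *
      (Nat.multichoose (m + 1) A * Nat.multichoose m B) := by
  classical
  have hsub : Low m A B k ⊆ ((range k).biUnion fun t => antidiagonal t).biUnion fun ab =>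
      (Ex m A B).filter fun x => (x.1 1, x.2 0) = ab := by
    intro x hx
    rw [Low, Finset.mem_filter] at hx
    rw [Finset.mem_biUnion]
    refine ⟨(x.1 1, x.2 0), ?_, ?_⟩
    · rw [Finset.mem_biUnion]
      exact ⟨x.1 1 + x.2 0, Finset.mem_range.2 hx.2, Finset.HasAntidiagonal.mem_antidiagonal.2 rfl⟩
    · rw [Finset.mem_filter]
      exact ⟨hx.1, rfl⟩
  refine (Finset.card_le_card hsub).trans ?_
  refine (Finset.card_biUnion_le_card_mul _ _
    (Nat.multichoose (m + 1) A * Nat.multichoose m B) ?_).trans ?_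
  · rintro ⟨a, b⟩ hab
    rw [Finset.mem_biUnion] at hab
    obtain ⟨t, ht, hab⟩ := hab
    rw [Finset.mem_range] at ht
    rw [Finset.HasAntidiagonal.mem_antidiagonal] at hab
    simp only at hab
    refine (card_fib m A B a b).trans ?_
    exact Nat.mul_le_mul (mc_mono_right m (Nat.sub_le _ _)) (mc_sub m B b (by omega))
  · apply Nat.mul_le_mul_right
    refine Finset.card_biUnion_le.trans ?_
    refine Finset.sum_le_sum fun t _ => ?_
    rw [Finset.Nat.card_antidiagonal]

lemma sum_t (n : ℕ) : ∑ t ∈ range (8 * n + 2), (t + 1) = (4 * n + 1) * (8 * n + 3) := by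
  have h := Finset.sum_range_id_mul_two (8 * n + 2 + 1)
  rw [Finset.sum_range_succ'] at h
  simp only [Nat.add_zero] at h
  have h2 : (8 * n + 2 + 1) * (8 * n + 2 + 1 - 1) = ((4 * n + 1) * (8 * n + 3)) * 2 := by
    rw [Nat.add_sub_cancel]
    ring
  rw [h2] at h
  exact Nat.eq_of_mul_eq_mul_right two_pos h

lemma num (m : ℕ) : 16 * (m + 1) ^ 2 * #(Low m (32 * (m + 1) ^ 3) (16 * (m + 1) ^ 3)
    (8 * (m + 1) + 2)) < #(Ex m (32 * (m + 1) ^ 3) (16 * (m + 1) ^ 3)) := by
  have hk : 8 * (m + 1) + 2 ≤ 16 * (m + 1) ^ 3 := by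
    nlinarith [Nat.zero_le m, sq_nonneg (m : ℤ), Nat.zero_le (m ^ 2), Nat.zero_le (m ^ 3)]
  refine lt_of_le_of_lt (Nat.mul_le_mul_left _ (card_Low _ _ _ _ hk)) ?_
  rw [card_Ex, sum_t]
  set A := 32 * (m + 1) ^ 3 with hA
  set B := 16 * (m + 1) ^ 3 with hB
  have hB0 : 0 < B := by positivity
  set u := Nat.multichoose (m + 1) A with hu
  set v := Nat.multichoose m B with hv
  set U := Nat.multichoose (m + 2) A with hU
  set V := Nat.multichoose (m + 1) B with hV
  have hUpos : 0 < U := mc_pos _ _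
  have hVpos : 0 < V := mc_pos _ _
  have hupos : 0 < u := mc_pos _ _
  have e1 : U * (m + 1) = u * (m + 1 + A) := mc_rec (m + 1) A
  have e2 : V * m = v * (m + B) := mc_rec m B
  rcases Nat.eq_zero_or_pos m with hm | hm
  · have : v = 0 := by
      rw [hv, hm]
      obtain ⟨c, hc⟩ : ∃ c, B = c + 1 := ⟨B - 1, by omega⟩
      rw [hc, Nat.multichoose_zero_succ]
    rw [this]
    simp only [mul_zero]
    positivity
  · have hvpos : 0 < v := by
      obtain ⟨c, hc⟩ : ∃ c, m = c + 1 := ⟨m - 1, by omega⟩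
      rw [hv, hc]
      exact mc_pos _ _
    have hmm : 0 < (m + 1) * m := by positivity
    apply Nat.lt_of_mul_lt_mul_right (a := (m + 1) * m)
    have e3 : U * V * ((m + 1) * m) = (u * v) * ((m + 1 + A) * (m + B)) := by
      calc U * V * ((m + 1) * m) = (U * (m + 1)) * (V * m) := by ring
        _ = _ := by rw [e1, e2]; ring
    rw [e3]
    have e4 : 16 * (m + 1) ^ 2 * ((4 * (m + 1) + 1) * (8 * (m + 1) + 3) * (u * v)) *
        ((m + 1) * m) = (u * v) * (16 * (m + 1) ^ 3 * m * ((4 * (m + 1) + 1) * (8 * (m + 1) + 3))) := by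
      ring
    rw [e4]
    apply Nat.mul_lt_mul_of_pos_left _ (by positivity)
    rw [hA, hB]
    have e5 : (m + 1 + 32 * (m + 1) ^ 3) * (m + 16 * (m + 1) ^ 3) =
        16 * (m + 1) ^ 3 * m * ((4 * (m + 1) + 1) * (8 * (m + 1) + 3)) +
        (192 * (m + 1) ^ 5 + 320 * (m + 1) ^ 4 + 16 * (m + 1) ^ 3 + (m + 1) * m) := by
      ring
    rw [e5]
    exact Nat.lt_add_of_pos_right (by positivity)

/-- the exponent of a pair of exponents -/
noncomputable def ex (x : (Fin (m + 2) →₀ ℕ) × (Fin (m + 1) →₀ ℕ)) : Sg m →₀ ℕ :=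
  Finsupp.sumFinsuppEquivProdFinsupp.symm x

lemma ex_inl (x : (Fin (m + 2) →₀ ℕ) × (Fin (m + 1) →₀ ℕ)) (j : Fin (m + 2)) :
    ex x (Sum.inl j) = x.1 j := by
  unfold ex
  exact Finsupp.sumFinsuppEquivProdFinsupp_symm_inl _ _

lemma ex_inr (x : (Fin (m + 2) →₀ ℕ) × (Fin (m + 1) →₀ ℕ)) (j : Fin (m + 1)) :
    ex x (Sum.inr j) = x.2 j := by
  unfold ex
  exact Finsupp.sumFinsuppEquivProdFinsupp_symm_inr _ _

lemma ex_inj : Function.Injective (ex (m := m)) := Equiv.injective _

lemma weight_eq (d : Sg m →₀ ℕ) :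
    Finsupp.weight (wt m) d = (∑ j, d (Sum.inl j), ∑ j, d (Sum.inr j)) := by
  rw [Finsupp.weight_apply, Finsupp.sum_fintype _ _ (fun i => by simp), Fintype.sum_sum_type]
  have h1 : ∀ j : Fin (m + 2), d (Sum.inl j) • wt m (Sum.inl j) = (d (Sum.inl j), 0) := by
    intro j
    change d (Sum.inl j) • ((1, 0) : ℕ × ℕ) = _
    simp
  have h2 : ∀ j : Fin (m + 1), d (Sum.inr j) • wt m (Sum.inr j) = (0, d (Sum.inr j)) := by
    intro j
    change d (Sum.inr j) • ((0, 1) : ℕ × ℕ) = _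
    simp
  simp only [h1, h2]
  ext
  · simp [Prod.fst_sum]
  · simp [Prod.snd_sum]

lemma exists_ex {A B : ℕ} (d : Sg m →₀ ℕ) (hd : Finsupp.weight (wt m) d = (A, B)) :
    ∃ x ∈ Ex m A B, ex x = d := by
  rw [weight_eq, Prod.mk.injEq] at hd
  refine ⟨Finsupp.sumFinsuppEquivProdFinsupp d, ?_, Equiv.symm_apply_apply _ _⟩
  rw [Ex, Finset.mem_product, mem_finsuppAntidiag, mem_finsuppAntidiag]
  refine ⟨⟨?_, Finset.subset_univ _⟩, ?_, Finset.subset_univ _⟩
  · rw [← hd.1]
    exact Finset.sum_congr rfl fun i _ => rfl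
  · rw [← hd.2]
    exact Finset.sum_congr rfl fun i _ => rfl

/-- the polynomial with given coefficients -/
noncomputable def L0 (K : Type*) [Field K] (m A B : ℕ) :
    (↥(Ex m A B) → K) →ₗ[K] MvPolynomial (Sg m) K :=
  ∑ x : ↥(Ex m A B), (monomial (ex x.1) : K →ₗ[K] MvPolynomial (Sg m) K).comp (LinearMap.proj x)

lemma L0_apply (A B : ℕ) (c : ↥(Ex m A B) → K) :
    L0 K m A B c = ∑ x : ↥(Ex m A B), monomial (ex x.1) (c x) := by
  unfold L0
  simp

lemma coeff_L0 (A B : ℕ) (c : ↥(Ex m A B) → K) (x : ↥(Ex m A B)) :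
    coeff (ex x.1) (L0 K m A B c) = c x := by
  classical
  rw [L0_apply, coeff_sum, Finset.sum_eq_single x]
  · rw [coeff_monomial, if_pos rfl]
  · intro y _ hy
    rw [coeff_monomial, if_neg]
    intro h
    exact hy (Subtype.ext (ex_inj h))
  · intro h
    exact absurd (Finset.mem_univ x) h

lemma wh_L0 (A B : ℕ) (c : ↥(Ex m A B) → K) :
    IsWeightedHomogeneous (wt m) (L0 K m A B c) (A, B) := by
  rw [L0_apply]
  refine IsWeightedHomogeneous.sum _ _ _ fun x _ => ?_
  apply isWeightedHomogeneous_monomial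
  obtain ⟨x, hx⟩ := x
  rw [Ex, Finset.mem_product, mem_finsuppAntidiag, mem_finsuppAntidiag] at hx
  rw [weight_eq]
  simp only [ex_inl, ex_inr]
  obtain ⟨⟨h1, -⟩, h2, -⟩ := hx
  rw [Prod.mk.injEq]
  exact ⟨h1, h2⟩

/-- **Existence of the forms.** -/
theorem exists_P {I : Type*} [Fintype I] (hI : Fintype.card I ≤ 16 * (m + 1) ^ 2)
    (a : I → Fin (m + 2) → K) (ha : ∀ i, a i 1 ≠ 0) :
    ∃ P : MvPolynomial (Sg m) K, P ≠ 0 ∧
      IsWeightedHomogeneous (wt m) P (32 * (m + 1) ^ 3, 16 * (m + 1) ^ 3) ∧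
      ∀ i, P ∈ I1 (a i) ^ (8 * (m + 1) + 2) := by
  set A := 32 * (m + 1) ^ 3 with hA
  set B := 16 * (m + 1) ^ 3 with hB
  set k := 8 * (m + 1) + 2 with hk
  set Φ : (↥(Ex m A B) → K) →ₗ[K] (I × ↥(Low m A B k) → K) :=
    LinearMap.pi fun p => (lcoeff K (ex p.2.1)).comp ((TT (a p.1)).toLinearMap.comp (L0 K m A B))
    with hΦ
  have hker : LinearMap.ker Φ ≠ ⊥ := by
    apply LinearMap.ker_ne_bot_of_finrank_lt
    rw [Module.finrank_fintype_fun_eq_card, Module.finrank_fintype_fun_eq_card, Fintype.card_prod,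
      Fintype.card_coe, Fintype.card_coe]
    exact lt_of_le_of_lt (Nat.mul_le_mul_right _ hI) (num m)
  obtain ⟨c, hc, hc0⟩ := (Submodule.ne_bot_iff _).1 hker
  refine ⟨L0 K m A B c, ?_, wh_L0 A B c, fun i => ?_⟩
  · intro h0
    apply hc0
    funext x
    rw [← coeff_L0 A B c x, h0, coeff_zero]
    rfl
  · apply mem_I1_of_low (a i) (ha i)
    intro d hd
    by_contra hlt
    push Not at hlt
    have hw := wh_TT (a i) (wh_L0 A B c)
    obtain ⟨x, hx, rfl⟩ := exists_ex d (hw (mem_support_iff.1 hd))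
    rw [ex_inl, ex_inr] at hlt
    have hxl : x ∈ Low m A B k := by
      rw [Low, Finset.mem_filter]
      exact ⟨hx, hlt⟩
    have h1 : Φ c (i, ⟨x, hxl⟩) = 0 := by
      rw [LinearMap.mem_ker.1 hc]
      rfl
    rw [hΦ] at h1
    exact (mem_support_iff.1 hd) h1

end Main

end Pool.Agent.K7.H11.GG
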