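import Pool.Agent.K7.H11.GG.Exist

/-! The forms over a polynomial ring, and their specialisations. -/

set_option autoImplicit false

namespace Pool.Agent.K7.H11.GG

open MvPolynomial

section Clear

attribute [local instance] algebraMvPolynomial

lemma clear_den {R K σ : Type*} [CommRing R] [IsDomain R] [Field K] [Algebra R K]
    [IsFractionRing R K] (P : MvPolynomial σ K) :
    ∃ (P0 : MvPolynomial σ R) (r : R), r ≠ 0 ∧
      map (algebraMap R K) P0 = C (algebraMap R K r) * P := by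
  obtain ⟨⟨b, hb⟩, P0, hP0⟩ := IsLocalization.exists_integer_multiple
    (M := (nonZeroDivisors R).map (C (σ := σ))) (S := MvPolynomial σ K) P
  obtain ⟨r, hr, rfl⟩ := hb
  refine ⟨P0, r, nonZeroDivisors.ne_zero hr, ?_⟩
  have h1 : (algebraMap (MvPolynomial σ R) (MvPolynomial σ K)) P0 = (C r : MvPolynomial σ R) • P := hP0
  rw [algebraMap_def] at h1
  rw [h1, Algebra.smul_def, algebraMap_def, map_C]

lemma clear_mem {R K σ : Type*} [CommRing R] [IsDomain R] [Field K] [Algebra R K]
    [IsFractionRing R K] (J : Ideal (MvPolynomial σ R)) (P : MvPolynomial σ R)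
    (h : map (algebraMap R K) P ∈ J.map (map (algebraMap R K) : MvPolynomial σ R →+* _)) :
    ∃ r : R, r ≠ 0 ∧ C r * P ∈ J := by
  have h1 : algebraMap (MvPolynomial σ R) (MvPolynomial σ K) P ∈
      J.map (algebraMap (MvPolynomial σ R) (MvPolynomial σ K)) := by
    rw [algebraMap_def]
    exact h
  rw [IsLocalization.algebraMap_mem_map_algebraMap_iff
    (M := (nonZeroDivisors R).map (C (σ := σ)))] at h1
  obtain ⟨_, ⟨r, hr, rfl⟩, h2⟩ := h1
  exact ⟨r, nonZeroDivisors.ne_zero hr, h2⟩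

end Clear

lemma map_lin {R F κ σ : Type*} [CommRing R] [CommRing F] [Fintype κ] (φ : R →+* F) (a : κ → R)
    (e : κ → σ) : map φ (lin a e) = lin (fun j => φ (a j)) e := by
  unfold lin
  rw [map_sum]
  refine Finset.sum_congr rfl fun j _ => ?_
  rw [map_mul, map_C, map_X]

variable {m : ℕ}

lemma map_I1 {R F : Type*} [CommRing R] [CommRing F] (φ : R →+* F) (a : Fin (m + 2) → R) :
    (I1 a).map (map φ) = I1 fun j => φ (a j) := by
  unfold I1
  rw [Ideal.map_span, Set.image_pair, map_lin, map_lin]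

/-- the forms over the polynomial ring -/
theorem exists_PR (m : ℕ) {I : Type} [Fintype I] (hI : Fintype.card I ≤ 16 * (m + 1) ^ 2) :
    ∃ P : MvPolynomial (Sg m) (MvPolynomial (I × Fin (m + 2)) ℚ), P ≠ 0 ∧
      IsWeightedHomogeneous (wt m) P (32 * (m + 1) ^ 3, 16 * (m + 1) ^ 3) ∧
      ∀ i : I, P ∈ I1 (fun j => X (i, j)) ^ (8 * (m + 1) + 2) := by
  set R := MvPolynomial (I × Fin (m + 2)) ℚ with hR
  set K := FractionRing R with hK
  set a : I → Fin (m + 2) → K := fun i j => algebraMap R K (X (i, j)) with ha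
  have hinj : Function.Injective (algebraMap R K) := IsFractionRing.injective R K
  obtain ⟨P, hP0, hPw, hPm⟩ := exists_P hI a (fun i h => by
    have h1 : algebraMap R K (X (i, 1)) = algebraMap R K 0 := by rw [map_zero]; exact h
    exact X_ne_zero _ (hinj h1))
  obtain ⟨P0, r, hr, hPr⟩ := clear_den (R := R) P
  have hrK : algebraMap R K r ≠ 0 := by
    intro h
    rw [← map_zero (algebraMap R K)] at h
    exact hr (hinj h)
  have h1 : ∀ i : I, ∃ s : R, s ≠ 0 ∧ C s * P0 ∈ I1 (m := m) (fun j => (X (i, j) : R)) ^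
      (8 * (m + 1) + 2) := by
    intro i
    apply clear_mem (K := K)
    rw [hPr, Ideal.map_pow, map_I1]
    exact Ideal.mul_mem_left _ _ (hPm i)
  choose s hs0 hs using h1
  have hprod : (∏ i, s i) ≠ 0 := Finset.prod_ne_zero_iff.2 fun i _ => hs0 i
  have hP00 : P0 ≠ 0 := by
    rintro rfl
    rw [map_zero] at hPr
    have h2 : C (algebraMap R K r) * P ≠ 0 := mul_ne_zero (by
      rw [Ne, C_eq_zero]; exact hrK) hP0
    exact h2 hPr.symm
  refine ⟨C (∏ i, s i) * P0, mul_ne_zero (by rw [Ne, C_eq_zero]; exact hprod) hP00, ?_, ?_⟩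
  · refine IsWeightedHomogeneous.C_mul ?_ _
    intro d hd
    have h2 : coeff d (C (algebraMap R K r) * P) ≠ 0 := by
      rw [← hPr, coeff_map]
      intro h
      rw [← map_zero (algebraMap R K)] at h
      exact hd (hinj h)
    rw [coeff_C_mul] at h2
    exact hPw (right_ne_zero_of_mul h2)
  · intro i
    classical
    rw [← Finset.mul_prod_erase Finset.univ s (Finset.mem_univ i), C_mul, mul_assoc, mul_comm (C _),
      mul_assoc, mul_comm P0, mul_comm]
    rw [mul_comm]
    exact Ideal.mul_mem_left _ _ (hs i)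

/-- the passage to the homogeneous coordinates of the tangent vectors -/
noncomputable def eta (m : ℕ) (F : Type*) [CommRing F] :
    MvPolynomial (Sg m) F →ₐ[F] MvPolynomial (Fin (m + 2) ⊕ Fin (m + 2)) F :=
  aeval (Sum.elim (fun j => X (Sum.inl j)) (fun j => X (Sum.inl 0) * X (Sum.inr (Fin.succ j)) -
    X (Sum.inl (Fin.succ j)) * X (Sum.inr 0)))

/-- the ideal of the pairs of vectors in a hyperplane -/
noncomputable def I2 {R : Type*} [CommRing R] (a : Fin (m + 2) → R) :
    Ideal (MvPolynomial (Fin (m + 2) ⊕ Fin (m + 2)) R) :=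
  Ideal.span {lin a Sum.inl, lin a Sum.inr}

lemma eta_lin_inl {F : Type*} [CommRing F] (a : Fin (m + 2) → F) :
    eta m F (lin a Sum.inl) = lin a Sum.inl := by
  unfold lin
  rw [map_sum]
  refine Finset.sum_congr rfl fun j _ => ?_
  rw [map_mul, eta, aeval_X, Sum.elim_inl]
  congr 1
  exact (aeval (R := F) _).commutes (a j)

lemma eta_lin_inr {F : Type*} [CommRing F] (a : Fin (m + 2) → F) :
    eta m F (lin (fun j => a (Fin.succ j)) Sum.inr) =
      X (Sum.inl 0) * lin a Sum.inr - X (Sum.inr 0) * lin a Sum.inl := by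
  unfold lin
  have e1 : ∀ e : Fin (m + 2) → Fin (m + 2) ⊕ Fin (m + 2),
      ∑ j, C (a j) * (X (e j) : MvPolynomial (Fin (m + 2) ⊕ Fin (m + 2)) F) =
      C (a 0) * X (e 0) + ∑ j : Fin (m + 1), C (a j.succ) * X (e j.succ) := fun e =>
    Fin.sum_univ_succ _
  rw [map_sum, e1 Sum.inr, e1 Sum.inl, mul_add, mul_add, Finset.mul_sum, Finset.mul_sum]
  have h1 : ∀ j : Fin (m + 1), eta m F (C (a j.succ) * X (Sum.inr j)) =
      X (Sum.inl 0) * (C (a j.succ) * X (Sum.inr j.succ)) -
        X (Sum.inr 0) * (C (a j.succ) * X (Sum.inl j.succ)) := by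
    intro j
    rw [map_mul, eta, aeval_X, Sum.elim_inr]
    have : (aeval (R := F) (Sum.elim (fun j => X (Sum.inl j)) (fun j : Fin (m + 1) =>
      X (Sum.inl 0) * X (Sum.inr (Fin.succ j)) -
      X (Sum.inl (Fin.succ j)) * X (Sum.inr 0) : _ →
        MvPolynomial (Fin (m + 2) ⊕ Fin (m + 2)) F))) (C (a j.succ)) = C (a j.succ) :=
      (aeval (R := F) _).commutes (a j.succ)
    rw [this]
    ring
  simp only [h1]
  rw [Finset.sum_sub_distrib]
  ring

lemma eta_mem {F : Type*} [CommRing F] {a : Fin (m + 2) → F} {P : MvPolynomial (Sg m) F} {k : ℕ}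
    (h : P ∈ I1 a ^ k) : eta m F P ∈ I2 a ^ k := by
  have h1 := Ideal.mem_map_of_mem (eta m F).toRingHom h
  rw [Ideal.map_pow] at h1
  refine Ideal.pow_right_mono ?_ k h1
  rw [I1, Ideal.map_span, Ideal.span_le]
  rintro _ ⟨x, hx, rfl⟩
  rcases hx with rfl | hx
  · change eta m F (lin a Sum.inl) ∈ I2 a
    rw [eta_lin_inl]
    exact Ideal.subset_span (by simp)
  · rw [Set.mem_singleton_iff] at hx
    rw [hx]
    change eta m F (lin (fun j => a (Fin.succ j)) Sum.inr) ∈ I2 a
    rw [eta_lin_inr]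
    refine Ideal.sub_mem _ (Ideal.mul_mem_left _ _ (Ideal.subset_span (by simp)))
      (Ideal.mul_mem_left _ _ (Ideal.subset_span (by simp)))

lemma eval_eta {F : Type*} [CommRing F] (P : MvPolynomial (Sg m) F) (v w : Fin (m + 2) → F) :
    eval (Sum.elim v w) (eta m F P) =
      eval (Sum.elim v fun j => v 0 * w (Fin.succ j) - v (Fin.succ j) * w 0) P := by
  have h : (aeval (R := F) (Sum.elim v w)).comp (eta m F) =
      aeval (R := F) (Sum.elim v fun j => v 0 * w (Fin.succ j) - v (Fin.succ j) * w 0) := by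
    apply MvPolynomial.algHom_ext
    rintro (j | j)
    · simp [eta]
    · simp [eta]
  have h1 := congrArg (fun f => f P) h
  simp only [AlgHom.comp_apply] at h1
  rw [← coe_aeval_eq_eval, ← coe_aeval_eq_eval]
  exact h1

lemma eval_wh {F : Type*} [CommRing F] {P : MvPolynomial (Sg m) F} {A B : ℕ}
    (hP : IsWeightedHomogeneous (wt m) P (A, B)) (x : Fin (m + 2) → F) (y : Fin (m + 1) → F)
    (s t : F) :
    eval (Sum.elim (s • x) (t • y)) P = s ^ A * t ^ B * eval (Sum.elim x y) P := by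
  rw [eval_eq, eval_eq, Finset.mul_sum]
  refine Finset.sum_congr rfl fun d hd => ?_
  have h1 : Finsupp.weight (wt m) d = (A, B) := hP (mem_support_iff.1 hd)
  rw [weight_eq, Prod.mk.injEq] at h1
  have e1 : ∀ z : Sg m → F, ∏ i ∈ d.support, z i ^ d i = ∏ i, z i ^ d i := by
    intro z
    apply Finset.prod_subset (Finset.subset_univ _)
    intro i _ hi
    rw [Finsupp.notMem_support_iff.1 hi, pow_zero]
  rw [e1, e1, Fintype.prod_sum_type, Fintype.prod_sum_type]
  simp only [Sum.elim_inl, Sum.elim_inr, Pi.smul_apply, smul_eq_mul, mul_pow]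
  rw [Finset.prod_mul_distrib, Finset.prod_mul_distrib, Finset.prod_pow_eq_pow_sum,
    Finset.prod_pow_eq_pow_sum, h1.1, h1.2]
  ring

/-- the forms for given hyperplanes -/
structure Valid {I : Type} (a : I → Fin (m + 2) → ℂ)
    (Q : MvPolynomial (Fin (m + 2) ⊕ Fin (m + 2)) ℂ) : Prop where
  mem : ∀ i, Q ∈ I2 (a i) ^ (8 * (m + 1) + 2)
  hom : ∀ (s t u : ℂ) (v w : Fin (m + 2) → ℂ), eval (Sum.elim (s • v) (t • w + u • v)) Q =
    s ^ (48 * (m + 1) ^ 3) * t ^ (16 * (m + 1) ^ 3) * eval (Sum.elim v w) Q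

/-- **The forms exist for generic hyperplanes and do not all vanish at a given vector.** -/
theorem exists_q (m : ℕ) {I : Type} [Fintype I] (hI : Fintype.card I ≤ 16 * (m + 1) ^ 2) :
    ∃ (q : MvPolynomial (I × Fin (m + 2)) ℚ) (v w : Fin (m + 2) → ℚ), q ≠ 0 ∧ v 0 ≠ 0 ∧ w 0 = 0 ∧
      w 1 ≠ 0 ∧ ∀ a : I → Fin (m + 2) → ℂ, aeval (fun p : I × Fin (m + 2) => a p.1 p.2) q ≠ 0 →
        ∃ Q, Valid a Q ∧ eval (Sum.elim (fun j => (v j : ℂ)) (fun j => (w j : ℂ))) Q ≠ 0 := by
  obtain ⟨P, hP0, hPw, hPm⟩ := exists_PR m hI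
  set R := MvPolynomial (I × Fin (m + 2)) ℚ with hR
  obtain ⟨x, hx⟩ : ∃ x : Sg m → ℚ, eval (fun i => (C (x i) : R))
      (P * X (Sum.inl 0) * X (Sum.inr 0)) ≠ 0 := by
    by_contra hcon
    push Not at hcon
    have h1 : P * X (Sum.inl 0) * X (Sum.inr 0) = 0 := by
      apply funext_set (fun _ => Set.range (C : ℚ → R))
      · intro i
        exact Set.infinite_range_of_injective (C_injective _ _)
      · intro y hy
        choose z hz using fun i => hy i (Set.mem_univ i)
        have : y = fun i => C (z i) := funext fun i => (hz i).symm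
        rw [this, hcon z, map_zero]
    exact mul_ne_zero (mul_ne_zero hP0 (X_ne_zero _)) (X_ne_zero _) h1
  rw [map_mul, map_mul, eval_X, eval_X] at hx
  have hx1 : x (Sum.inl 0) ≠ 0 := by
    rintro h
    apply hx
    rw [h, C_0, mul_zero, zero_mul]
  have hx2 : x (Sum.inr 0) ≠ 0 := by
    rintro h
    apply hx
    rw [h, C_0, mul_zero]
  refine ⟨eval (fun i => (C (x i) : R)) P, fun j => x (Sum.inl j),
    Fin.cons 0 (fun j => x (Sum.inr j) / x (Sum.inl 0)), left_ne_zero_of_mul (left_ne_zero_of_mul hx),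
    hx1, rfl, ?_, ?_⟩
  · change (Fin.cons 0 (fun j => x (Sum.inr j) / x (Sum.inl 0)) : Fin (m + 2) → ℚ)
      (Fin.succ 0) ≠ 0
    rw [Fin.cons_succ]
    exact div_ne_zero hx2 hx1
  · intro a ha
    set φ : R →+* ℂ := (aeval (fun p : I × Fin (m + 2) => a p.1 p.2) : R →ₐ[ℚ] ℂ).toRingHom with hφ
    have hφX : ∀ i j, φ (X (i, j)) = a i j := by
      intro i j
      rw [hφ]
      change aeval _ (X (i, j)) = _
      rw [aeval_X]
    have hwh : IsWeightedHomogeneous (wt m) (map φ P) (32 * (m + 1) ^ 3, 16 * (m + 1) ^ 3) := by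
      intro d hd
      rw [coeff_map] at hd
      apply hPw
      intro h
      rw [h, map_zero] at hd
      exact hd rfl
    refine ⟨eta m ℂ (map φ P), ⟨fun i => ?_, fun s t u v w => ?_⟩, ?_⟩
    · apply eta_mem
      have h1 := Ideal.mem_map_of_mem (map φ) (hPm i)
      rw [Ideal.map_pow, map_I1] at h1
      simpa only [hφX] using h1
    · rw [eval_eta, eval_eta]
      have h1 : (fun j : Fin (m + 1) => (s • v) 0 * (t • w + u • v) j.succ -
          (s • v) j.succ * (t • w + u • v) 0) =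
          (s * t) • fun j : Fin (m + 1) => v 0 * w j.succ - v j.succ * w 0 := by
        funext j
        simp only [Pi.smul_apply, Pi.add_apply, smul_eq_mul]
        ring
      rw [h1, eval_wh hwh]
      have h2 : 48 * (m + 1) ^ 3 = 32 * (m + 1) ^ 3 + 16 * (m + 1) ^ 3 := by ring
      rw [h2, pow_add, mul_pow]
      ring
    · rw [eval_eta]
      have h1 : (fun j : Fin (m + 1) => ((x (Sum.inl 0) : ℚ) : ℂ) *
          (((Fin.cons 0 (fun j => x (Sum.inr j) / x (Sum.inl 0)) : Fin (m + 2) → ℚ) j.succ : ℚ) : ℂ) -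
          ((x (Sum.inl j.succ) : ℚ) : ℂ) *
          (((Fin.cons 0 (fun j => x (Sum.inr j) / x (Sum.inl 0)) : Fin (m + 2) → ℚ) 0 : ℚ) : ℂ)) =
          fun j : Fin (m + 1) => ((x (Sum.inr j) : ℚ) : ℂ) := by
        funext j
        rw [Fin.cons_succ, Fin.cons_zero]
        push_cast
        rw [mul_zero, sub_zero, mul_div_cancel₀]
        exact_mod_cast hx1
      rw [h1]
      have h2 : (Sum.elim (fun j => ((x (Sum.inl j) : ℚ) : ℂ)) fun j : Fin (m + 1) =>
          ((x (Sum.inr j) : ℚ) : ℂ)) = fun i => φ (C (x i)) := by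
        funext i
        have h3 : ∀ r : ℚ, φ (C r) = (r : ℂ) := by
          intro r
          rw [hφ]
          change aeval _ (C r) = _
          rw [aeval_C]
          rfl
        rw [h3]
        rcases i with i | i <;> rfl
      rw [h2, eval_map]
      have h4 : φ (eval (fun i => (C (x i) : R)) P) = eval₂ φ (fun i => φ (C (x i))) P := by
        have h5 := eval₂_comp_left φ (RingHom.id R) (fun i => (C (x i) : R)) P
        rw [RingHom.comp_id] at h5
        exact h5
      rw [← h4]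
      exact ha

end Pool.Agent.K7.H11.GG
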