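import Pool.Agent.K7.H11.GG.Form

/-! Generic independence, and passage to a Zariski open set. -/

set_option autoImplicit false

namespace Pool.Agent.K7.H11.GG

open MvPolynomial Cardinal

/-- From the generic point to an open set. -/
theorem spread {R K r s : Type} [CommRing R] [IsDomain R] [Field K] [Algebra R K]
    [IsFractionRing R K] [Finite r] (f : s → MvPolynomial r R)
    (hgen : ∀ (E : Type) [Field E] [Algebra K E] [Algebra.IsAlgebraic K E] (y : r → E),
      ∃ i, eval₂ ((algebraMap K E).comp (algebraMap R K)) y (f i) ≠ 0) :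
    ∃ h : R, h ≠ 0 ∧ ∀ φ : R →+* ℂ, φ h ≠ 0 → ∀ y : r → ℂ, ∃ i, eval₂ φ y (f i) ≠ 0 := by
  obtain ⟨J, hJ⟩ : ∃ J : Ideal (MvPolynomial r R), J = Ideal.span (Set.range f) := ⟨_, rfl⟩
  by_cases htop : J.map (map (algebraMap R K) : MvPolynomial r R →+* MvPolynomial r K) = ⊤
  · obtain ⟨h, hh0, hh⟩ := clear_mem (K := K) J 1 (by rw [htop]; trivial)
    refine ⟨h, hh0, fun φ hA y => ?_⟩
    by_contra hcon
    push Not at hcon
    have h1 : J ≤ RingHom.ker (eval₂Hom φ y) := by
      rw [hJ, Ideal.span_le]
      rintro _ ⟨i, rfl⟩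
      exact hcon i
    have h2 := h1 hh
    rw [RingHom.mem_ker, mul_one, coe_eval₂Hom, eval₂_C] at h2
    exact hA h2
  · obtain ⟨I, hI, hJI⟩ := Ideal.exists_le_maximal _ htop
    let : Field (MvPolynomial r K ⧸ I) := Ideal.Quotient.field I
    have : Module.Finite K (MvPolynomial r K ⧸ I) := finite_of_finite_type_of_isJacobsonRing _ _
    have : Algebra.IsAlgebraic K (MvPolynomial r K ⧸ I) := inferInstance
    obtain ⟨i, hi⟩ := hgen (MvPolynomial r K ⧸ I) (fun v => Ideal.Quotient.mk I (X v))
    exfalso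
    apply hi
    have h1 : ∀ p : MvPolynomial r R, eval₂ ((algebraMap K (MvPolynomial r K ⧸ I)).comp
        (algebraMap R K)) (fun v => Ideal.Quotient.mk I (X v)) p =
        Ideal.Quotient.mk I (map (algebraMap R K) p) := by
      intro p
      induction p using MvPolynomial.induction_on with
      | C a =>
        rw [eval₂_C, map_C]
        rfl
      | add p q hp hq => rw [eval₂_add, hp, hq, map_add, map_add]
      | mul_X p v hp => rw [eval₂_mul, eval₂_X, hp, map_mul, map_X, map_mul]
    rw [h1, Ideal.Quotient.eq_zero_iff_mem]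
    apply hJI
    apply Ideal.mem_map_of_mem
    rw [hJ]
    exact Ideal.subset_span ⟨i, rfl⟩

lemma trdeg_adjoin_le {k r E : Type} [Fintype r] [Field k] [Field E] [Algebra k E] (y : r → E) :
    Algebra.trdeg k (IntermediateField.adjoin k (Set.range y)) ≤ (Fintype.card r : Cardinal) := by
  obtain ⟨F, hF⟩ : ∃ F : IntermediateField k E, F = IntermediateField.adjoin k (Set.range y) :=
    ⟨_, rfl⟩
  rw [← hF]
  obtain ⟨y', hy'⟩ : ∃ y' : r → F, ∀ j, (y' j : E) = y j :=
    ⟨fun j => ⟨y j, by rw [hF]; exact IntermediateField.subset_adjoin _ _ ⟨j, rfl⟩⟩, fun j => rfl⟩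
  have halg : Algebra.IsAlgebraic (Algebra.adjoin k (Set.range y')) F := by
    have hfr : IntermediateField.adjoin k (Set.range y') = ⊤ := by
      rw [eq_top_iff]
      rintro ⟨z, hz⟩ -
      have h2 : (IntermediateField.adjoin k (Set.range y')).map F.val = F := by
        rw [IntermediateField.adjoin_map, ← Set.range_comp]
        have h6 : (F.val ∘ y') = y := funext hy'
        rw [h6]
        exact hF.symm
      have h3 : z ∈ (IntermediateField.adjoin k (Set.range y')).map F.val := by
        rw [h2]; exact hz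
      obtain ⟨z', hz', he⟩ := h3
      have : z' = ⟨z, hz⟩ := Subtype.ext he
      rw [← this]
      exact hz'
    refine ⟨fun z => ?_⟩
    have hz : z ∈ IntermediateField.adjoin k (Set.range y') := by rw [hfr]; trivial
    rw [IntermediateField.mem_adjoin_iff_div] at hz
    obtain ⟨a, ha, b, hb, rfl⟩ := hz
    have h4 : IsAlgebraic (Algebra.adjoin k (Set.range y')) a :=
      isAlgebraic_algebraMap (⟨a, ha⟩ : Algebra.adjoin k (Set.range y'))
    have h5 : IsAlgebraic (Algebra.adjoin k (Set.range y')) b :=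
      isAlgebraic_algebraMap (⟨b, hb⟩ : Algebra.adjoin k (Set.range y'))
    rw [div_eq_mul_inv]
    exact h4.mul h5.inv
  refine (Algebra.IsAlgebraic.trdeg_le_cardinalMk k (Set.range y')).trans ?_
  rw [← Cardinal.mk_fintype]
  exact Cardinal.mk_range_le

lemma alg_adjoin {k M E : Type} [Field k] [Field E] [Algebra k E] (F : IntermediateField k E)
    (x : M → E) (hx : IsTranscendenceBasis k x) :
    Algebra.IsAlgebraic (Algebra.adjoin F (Set.range x)) E := by
  have hle : Algebra.adjoin k (Set.range x) ≤ (Algebra.adjoin F (Set.range x)).restrictScalars k :=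
    Algebra.adjoin_le Algebra.subset_adjoin
  refine ⟨fun z => ?_⟩
  obtain ⟨p, hp0, hp⟩ := hx.isAlgebraic.isAlgebraic z
  refine ⟨p.map (Subalgebra.inclusion hle).toRingHom, ?_, ?_⟩
  · rw [Polynomial.map_ne_zero_iff]
    · exact hp0
    · exact Subalgebra.inclusion_injective hle
  · rw [Polynomial.aeval_def, Polynomial.eval₂_map, ← hp, Polynomial.aeval_def]
    rfl

/-- Most members of a transcendence basis are independent over a field of small transcendence
degree. -/
theorem big_indep {k M r E : Type} [Fintype M] [Fintype r] [DecidableEq M] [Field k] [Field E]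
    [Algebra k E] (x : M → E) (hx : IsTranscendenceBasis k x) (y : r → E) :
    ∃ S : Finset M, Sᶜ.card ≤ Fintype.card r ∧
      AlgebraicIndependent (IntermediateField.adjoin k (Set.range y)) (fun i : S => x i) := by
  classical
  have h1 := trdeg_adjoin_le (k := k) y
  obtain ⟨F, hF⟩ : ∃ F : IntermediateField k E, F = IntermediateField.adjoin k (Set.range y) :=
    ⟨_, rfl⟩
  rw [← hF] at h1 ⊢
  have h2 : Algebra.trdeg k E = (Fintype.card M : Cardinal) := by
    rw [← hx.cardinalMk_eq_trdeg, Cardinal.mk_fintype]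
  have halgE := alg_adjoin F x hx
  obtain ⟨t, ht, hbt⟩ := exists_isTranscendenceBasis_subset (R := F) (Set.range x)
  have h3 : Algebra.trdeg k F + Algebra.trdeg F E = Algebra.trdeg k E :=
    trdeg_add_eq k F (A := E)
  rw [h2, ← hbt.cardinalMk_eq_trdeg] at h3
  obtain ⟨S, hS⟩ : ∃ S : Finset M, ∀ i, i ∈ S ↔ x i ∈ t :=
    ⟨Finset.univ.filter fun i => x i ∈ t, fun i => by simp⟩
  have hinj : Function.Injective x := hx.1.injective
  have h4 : #t = (S.card : Cardinal) := by
    have h5 : x '' (S : Set M) = t := by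
      ext z
      constructor
      · rintro ⟨i, hi, rfl⟩
        exact (hS i).1 hi
      · intro hz
        obtain ⟨i, rfl⟩ := ht hz
        exact ⟨i, (hS i).2 hz, rfl⟩
    rw [← h5, Cardinal.mk_image_eq hinj]
    simp
  refine ⟨S, ?_, ?_⟩
  · rw [h4] at h3
    have h6 : (Fintype.card M : Cardinal) ≤ ((Fintype.card r + S.card : ℕ) : Cardinal) := by
      rw [← h3]
      push_cast
      exact add_le_add_left h1 _
    have h7 : Fintype.card M ≤ Fintype.card r + S.card := by exact_mod_cast h6
    rw [Finset.card_compl]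
    omega
  · exact hbt.1.comp (fun i : S => (⟨x i, (hS i).1 i.2⟩ : t)) fun i j hij =>
      Subtype.ext (hinj (congrArg Subtype.val hij))

/-- the substitution in a polynomial given by the product with a matrix -/
lemma sub_ne_zero {m : ℕ} {I F : Type} [Field F] [Algebra ℚ F]
    {q : MvPolynomial (I × Fin (m + 2)) ℚ} (hq : q ≠ 0)
    (N : Matrix (Fin (m + 2)) (Fin (m + 2)) F) (hN : IsUnit N.det) :
    (aeval (fun p : I × Fin (m + 2) => ∑ l, X (p.1, l) * C (N l p.2)) q :
      MvPolynomial (I × Fin (m + 2)) F) ≠ 0 := by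
  intro h0
  obtain ⟨b, hb⟩ : ∃ b : I × Fin (m + 2) → ℚ, eval b q ≠ 0 := by
    by_contra hcon
    push Not at hcon
    exact hq (MvPolynomial.funext fun b => by rw [hcon b, map_zero])
  set b' : Matrix I (Fin (m + 2)) F := Matrix.of fun i j => algebraMap ℚ F (b (i, j)) with hb'
  have h1 := congrArg (aeval (R := F) fun p : I × Fin (m + 2) => (b' * N⁻¹) p.1 p.2) h0
  rw [map_zero] at h1
  have h2 : ∀ q : MvPolynomial (I × Fin (m + 2)) ℚ,
      (aeval (R := F) fun p : I × Fin (m + 2) => (b' * N⁻¹) p.1 p.2)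
      (aeval (fun p : I × Fin (m + 2) => ∑ l, X (p.1, l) * C (N l p.2)) q :
      MvPolynomial (I × Fin (m + 2)) F) = algebraMap ℚ F (eval b q) := by
    intro q
    induction q using MvPolynomial.induction_on with
    | C a =>
      rw [eval_C]
      have h3 : (aeval (fun p : I × Fin (m + 2) => ∑ l, X (p.1, l) * C (N l p.2)) (C a) :
        MvPolynomial (I × Fin (m + 2)) F) = C (algebraMap ℚ F a) := by
        rw [aeval_C]
        rfl
      rw [h3, aeval_C]
      rfl
    | add p q hp hq => rw [map_add, map_add, hp, hq, map_add, map_add]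
    | mul_X p v hp =>
      rw [map_mul, map_mul, hp, aeval_X, map_mul, map_mul, eval_X]
      congr 1
      rw [map_sum]
      have h4 : ∑ l, (aeval (R := F) fun p : I × Fin (m + 2) => (b' * N⁻¹) p.1 p.2)
          (X (v.1, l) * C (N l v.2)) = (b' * N⁻¹ * N) v.1 v.2 := by
        rw [Matrix.mul_apply]
        refine Finset.sum_congr rfl fun l _ => ?_
        rw [map_mul, aeval_X, aeval_C]
        rfl
      rw [h4, Matrix.mul_assoc, Matrix.nonsing_inv_mul _ hN, Matrix.mul_one]
      rfl
  rw [h2] at h1
  exact hb ((algebraMap ℚ F).injective (by rw [h1, map_zero]))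

lemma gen_basis {M E : Type} [Field E] [Algebra (FractionRing (MvPolynomial M ℚ)) E]
    [Algebra.IsAlgebraic (FractionRing (MvPolynomial M ℚ)) E] [Algebra ℚ E] :
    IsTranscendenceBasis ℚ (fun i : M => algebraMap (FractionRing (MvPolynomial M ℚ)) E
      (algebraMap (MvPolynomial M ℚ) (FractionRing (MvPolynomial M ℚ)) (X i))) := by
  let : Algebra (MvPolynomial M ℚ) E :=
    ((algebraMap (FractionRing (MvPolynomial M ℚ)) E).comp
      (algebraMap (MvPolynomial M ℚ) (FractionRing (MvPolynomial M ℚ)))).toAlgebra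
  have t1 : IsScalarTower (MvPolynomial M ℚ) (FractionRing (MvPolynomial M ℚ)) E :=
    IsScalarTower.of_algebraMap_eq fun _ => rfl
  have t2 : IsScalarTower ℚ (MvPolynomial M ℚ) E :=
    IsScalarTower.of_algebraMap_eq fun a => DFunLike.congr_fun (Subsingleton.elim
      (algebraMap ℚ E) ((algebraMap (MvPolynomial M ℚ) E).comp (algebraMap ℚ _))) a
  have h1 : Algebra.IsAlgebraic (MvPolynomial M ℚ) E :=
    (IsFractionRing.comap_isAlgebraic_iff (K := FractionRing (MvPolynomial M ℚ))).2 inferInstance
  have h2 : FaithfulSMul (MvPolynomial M ℚ) E := by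
    rw [faithfulSMul_iff_algebraMap_injective]
    exact (algebraMap (FractionRing (MvPolynomial M ℚ)) E).injective.comp
      (IsFractionRing.injective _ _)
  exact (IsTranscendenceBasis.mvPolynomial M ℚ).algebraMap_comp (A := E)

/-- **Genericity.** -/
theorem exists_h {m : ℕ} {Gp I r Pm : Type} [Fintype Gp] [Fintype I] [Fintype r] [Fintype Pm]
    (q : MvPolynomial (I × Fin (m + 2)) ℚ) (hq : q ≠ 0)
    (N : Pm → Matrix (Fin (m + 2)) (Fin (m + 2)) (MvPolynomial r ℚ))
    (hN : ∀ s, IsUnit (N s).det) :
    ∃ h : MvPolynomial ((Gp × I) × Fin (m + 2)) ℚ, h ≠ 0 ∧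
      ∀ A : (Gp × I) × Fin (m + 2) → ℂ, aeval A h ≠ 0 → ∀ (s : Pm) (y : r → ℂ) (J : Finset Gp),
        Fintype.card r < J.card → ∃ g ∈ J,
          aeval (fun p : I × Fin (m + 2) => ∑ l, A ((g, p.1), l) * aeval y (N s l p.2)) q ≠ 0 := by
  classical
  have key : ∀ (s : Pm) (J : Finset Gp), ∃ h : MvPolynomial ((Gp × I) × Fin (m + 2)) ℚ, h ≠ 0 ∧
      (Fintype.card r < J.card → ∀ A : (Gp × I) × Fin (m + 2) → ℂ, aeval A h ≠ 0 →
        ∀ (y : r → ℂ), ∃ g ∈ J,
          aeval (fun p : I × Fin (m + 2) => ∑ l, A ((g, p.1), l) * aeval y (N s l p.2)) q ≠ 0) := by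
    intro s J
    by_cases hJ : Fintype.card r < J.card
    swap
    · exact ⟨1, one_ne_zero, fun h => absurd h hJ⟩
    have hgen : ∀ (E : Type) [Field E]
        [Algebra (FractionRing (MvPolynomial ((Gp × I) × Fin (m + 2)) ℚ)) E]
        [Algebra.IsAlgebraic (FractionRing (MvPolynomial ((Gp × I) × Fin (m + 2)) ℚ)) E]
        (y : r → E), ∃ g : J, eval₂
          ((algebraMap (FractionRing (MvPolynomial ((Gp × I) × Fin (m + 2)) ℚ)) E).comp
            (algebraMap (MvPolynomial ((Gp × I) × Fin (m + 2)) ℚ)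
              (FractionRing (MvPolynomial ((Gp × I) × Fin (m + 2)) ℚ)))) y
          (aeval (fun p : I × Fin (m + 2) => ∑ l, C (X ((g.1, p.1), l)) *
          map (algebraMap ℚ (MvPolynomial ((Gp × I) × Fin (m + 2)) ℚ)) (N s l p.2)) q) ≠ 0 := by
      intro E _ _ _ y
      have : CharZero E := charZero_of_injective_algebraMap
        (algebraMap (FractionRing (MvPolynomial ((Gp × I) × Fin (m + 2)) ℚ)) E).injective
      obtain ⟨x, hx⟩ : ∃ x : (Gp × I) × Fin (m + 2) → E, ∀ i, x i =
        algebraMap (FractionRing (MvPolynomial ((Gp × I) × Fin (m + 2)) ℚ)) E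
          (algebraMap (MvPolynomial ((Gp × I) × Fin (m + 2)) ℚ)
            (FractionRing (MvPolynomial ((Gp × I) × Fin (m + 2)) ℚ)) (X i)) :=
        ⟨_, fun _ => rfl⟩
      have hxb : IsTranscendenceBasis ℚ x := by
        have := gen_basis (M := (Gp × I) × Fin (m + 2)) (E := E)
        convert this using 1
        exact funext hx
      obtain ⟨S, hS, hind⟩ := big_indep x hxb y
      obtain ⟨g, hgJ, hg⟩ : ∃ g ∈ J, ∀ p : I × Fin (m + 2), ((g, p.1), p.2) ∈ S := by
        by_contra hcon
        push Not at hcon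
        have h1 : J ⊆ Sᶜ.image fun i => i.1.1 := by
          intro g hg
          obtain ⟨p, hp⟩ := hcon g hg
          exact Finset.mem_image.2 ⟨_, Finset.mem_compl.2 hp, rfl⟩
        have h2 := (Finset.card_le_card h1).trans Finset.card_image_le
        omega
      refine ⟨⟨g, hgJ⟩, ?_⟩
      obtain ⟨F, hF⟩ : ∃ F : IntermediateField ℚ E, F = IntermediateField.adjoin ℚ (Set.range y) :=
        ⟨_, rfl⟩
      rw [← hF] at hind
      obtain ⟨y', hy'⟩ : ∃ y' : r → F, ∀ j, (y' j : E) = y j :=
        ⟨fun j => ⟨y j, by rw [hF]; exact IntermediateField.subset_adjoin _ _ ⟨j, rfl⟩⟩,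
          fun j => rfl⟩
      set N' : Matrix (Fin (m + 2)) (Fin (m + 2)) F :=
        (N s).map (aeval y' : MvPolynomial r ℚ →ₐ[ℚ] F) with hN'
      have hN'u : IsUnit N'.det := by
        have h1 : N'.det = (aeval y' : MvPolynomial r ℚ →ₐ[ℚ] F) (N s).det := by
          rw [AlgHom.map_det]
          rfl
        rw [h1]
        exact (hN s).map _
      have h3 := sub_ne_zero hq N' hN'u
      intro h0
      apply h3
      have hind2 : AlgebraicIndependent F (fun p : I × Fin (m + 2) => x ((g, p.1), p.2)) := by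
        have := hind.comp (fun p : I × Fin (m + 2) => (⟨((g, p.1), p.2), hg p⟩ : S)) (by
          intro p p' hpp
          have := congrArg Subtype.val hpp
          simp only [Prod.mk.injEq, true_and] at this
          exact Prod.ext this.1 this.2)
        exact this
      apply hind2
      rw [map_zero, ← h0]
      have h1 : ∀ q : MvPolynomial (I × Fin (m + 2)) ℚ,
          (aeval (R := F) fun p : I × Fin (m + 2) => x ((g, p.1), p.2))
          (aeval (fun p : I × Fin (m + 2) => ∑ l, X (p.1, l) * C (N' l p.2)) q :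
            MvPolynomial (I × Fin (m + 2)) F) =
          eval₂ ((algebraMap (FractionRing (MvPolynomial ((Gp × I) × Fin (m + 2)) ℚ)) E).comp
            (algebraMap (MvPolynomial ((Gp × I) × Fin (m + 2)) ℚ)
              (FractionRing (MvPolynomial ((Gp × I) × Fin (m + 2)) ℚ)))) y
          (aeval (fun p : I × Fin (m + 2) => ∑ l, C (X ((g, p.1), l)) *
          map (algebraMap ℚ (MvPolynomial ((Gp × I) × Fin (m + 2)) ℚ)) (N s l p.2)) q) := by
        intro q
        induction q using MvPolynomial.induction_on with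
        | C a =>
          rw [aeval_C, aeval_C]
          have h3 : algebraMap ℚ (MvPolynomial r (MvPolynomial ((Gp × I) × Fin (m + 2)) ℚ)) a =
            C (C a) := rfl
          have h4 : algebraMap ℚ (MvPolynomial (I × Fin (m + 2)) F) a = C (algebraMap ℚ F a) := rfl
          rw [h3, h4, eval₂_C, aeval_C]
          have h5 : ∀ (φ ψ : ℚ →+* E), φ = ψ := fun φ ψ => Subsingleton.elim _ _
          exact DFunLike.congr_fun (h5 ((algebraMap F E).comp (algebraMap ℚ F))
            (((algebraMap (FractionRing (MvPolynomial ((Gp × I) × Fin (m + 2)) ℚ)) E).comp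
            (algebraMap (MvPolynomial ((Gp × I) × Fin (m + 2)) ℚ)
              (FractionRing (MvPolynomial ((Gp × I) × Fin (m + 2)) ℚ)))).comp C)) a
        | add p q hp hq => rw [map_add, map_add, hp, hq, map_add, eval₂_add]
        | mul_X p v hp =>
          rw [map_mul, map_mul, hp, aeval_X, map_mul (aeval _), aeval_X, eval₂_mul]
          congr 1
          rw [map_sum, eval₂_sum]
          refine Finset.sum_congr rfl fun l _ => ?_
          rw [map_mul, aeval_X, aeval_C, eval₂_mul, eval₂_C, eval₂_map]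
          congr 1
          · exact hx _
          · have h6 : N' l v.2 = aeval y' (N s l v.2) := rfl
            rw [h6]
            have h7 : algebraMap F E (aeval y' (N s l v.2)) = aeval y (N s l v.2) := by
              have h8 := congrArg (fun f => f (N s l v.2)) (MvPolynomial.comp_aeval y' F.val)
              simp only [AlgHom.comp_apply] at h8
              have h9 : (fun i => F.val (y' i)) = y := funext hy'
              rw [h9] at h8
              exact h8
            rw [h7, aeval_def]
            congr 1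
            exact Subsingleton.elim _ _
      exact h1 q
    obtain ⟨h, hh0, hh⟩ := spread (R := MvPolynomial ((Gp × I) × Fin (m + 2)) ℚ)
      (K := FractionRing (MvPolynomial ((Gp × I) × Fin (m + 2)) ℚ)) (r := r) (s := J)
      (fun g => aeval (fun p : I × Fin (m + 2) => ∑ l, C (X ((g.1, p.1), l)) *
        map (algebraMap ℚ (MvPolynomial ((Gp × I) × Fin (m + 2)) ℚ)) (N s l p.2)) q) hgen
    · refine ⟨h, hh0, fun _ A hA y => ?_⟩
      obtain ⟨g, hg⟩ := hh (aeval A : MvPolynomial ((Gp × I) × Fin (m + 2)) ℚ →ₐ[ℚ] ℂ) hA y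
      refine ⟨g.1, g.2, ?_⟩
      intro h0
      apply hg
      rw [← h0]
      have h1 : ∀ q : MvPolynomial (I × Fin (m + 2)) ℚ,
          eval₂ ((aeval A : MvPolynomial ((Gp × I) × Fin (m + 2)) ℚ →ₐ[ℚ] ℂ) : _ →+* ℂ) y
          (aeval (fun p : I × Fin (m + 2) => ∑ l, C (X ((g.1, p.1), l)) *
          map (algebraMap ℚ (MvPolynomial ((Gp × I) × Fin (m + 2)) ℚ)) (N s l p.2)) q) =
          aeval (fun p : I × Fin (m + 2) => ∑ l, A ((g.1, p.1), l) * aeval y (N s l p.2)) q := by
        intro q
        induction q using MvPolynomial.induction_on with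
        | C a =>
          rw [aeval_C, aeval_C]
          have h3 : algebraMap ℚ (MvPolynomial r (MvPolynomial ((Gp × I) × Fin (m + 2)) ℚ)) a =
            C (C a) := rfl
          rw [h3, eval₂_C]
          exact aeval_C _ _
        | add p q hp hq => rw [map_add, eval₂_add, hp, hq, map_add]
        | mul_X p v hp =>
          rw [map_mul, eval₂_mul, hp, aeval_X, map_mul, aeval_X]
          congr 1
          rw [eval₂_sum]
          refine Finset.sum_congr rfl fun l _ => ?_
          rw [eval₂_mul, eval₂_C, eval₂_map]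
          congr 1
          · exact aeval_X _ _
          · rw [aeval_def]
            congr 1
            exact Subsingleton.elim _ _
      exact h1 q
  choose h hh0 hh using key
  refine ⟨∏ s, ∏ J, h s J, ?_, fun A hA s y J hJ => ?_⟩
  · exact Finset.prod_ne_zero_iff.2 fun s _ => Finset.prod_ne_zero_iff.2 fun J _ => hh0 s J
  · apply hh s J hJ A ?_ y
    intro h0
    apply hA
    rw [map_prod]
    apply Finset.prod_eq_zero (Finset.mem_univ s)
    rw [map_prod]
    exact Finset.prod_eq_zero (Finset.mem_univ J) h0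

end Pool.Agent.K7.H11.GG
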