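import Mathlib

/-! A version of Liouville's theorem. -/

set_option autoImplicit false

namespace Pool.Agent.K7.H11.GG

open Metric Set Filter Topology

/-- If `|p| ≤ C |q|` for entire functions `p`, `q` then `p` is a constant multiple of `q`. -/
theorem liou {p q : ℂ → ℂ} (hp : Differentiable ℂ p) (hq : Differentiable ℂ q) {C : ℝ}
    (h : ∀ z, ‖p z‖ ≤ C * ‖q z‖) : ∃ c : ℂ, ∀ z, p z = c * q z := by
  have hpq : ∀ z, q z = 0 → p z = 0 := by
    intro z hz
    have := h z
    rw [hz, norm_zero, mul_zero] at this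
    exact norm_le_zero_iff.1 this
  by_cases hq0 : ∀ z, q z = 0
  · exact ⟨0, fun z => by rw [hpq z (hq0 z), zero_mul]⟩
  push Not at hq0
  obtain ⟨z1, hz1⟩ := hq0
  have hC : 0 ≤ C := by
    by_contra hcon
    push Not at hcon
    have h1 := (norm_nonneg _).trans (h z1)
    have h2 : C * ‖q z1‖ < 0 := mul_neg_of_neg_of_pos hcon (norm_pos_iff.2 hz1)
    linarith
  have hA : AnalyticOnNhd ℂ q univ := fun z _ => hq.analyticAt z
  have hev : ∀ z, ∀ᶠ w in 𝓝[≠] z, q w ≠ 0 := by
    intro z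
    rcases (hq.analyticAt z).eventually_eq_zero_or_eventually_ne_zero with h1 | h1
    · exact absurd (hA.eqOn_zero_of_preconnected_of_eventuallyEq_zero isPreconnected_univ
        (mem_univ z) h1 (mem_univ z1)) hz1
    · exact h1
  set f : ℂ → ℂ := fun z => p z / q z with hf
  have hfb : ∀ z, ‖f z‖ ≤ C := by
    intro z
    rw [hf]
    simp only
    by_cases hz : q z = 0
    · rw [hz, div_zero, norm_zero]; exact hC
    · rw [norm_div, div_le_iff₀ (norm_pos_iff.2 hz)]
      exact h z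
  set F : ℂ → ℂ := fun z => limUnder (𝓝[≠] z) f with hF
  have hFeq : ∀ z, q z ≠ 0 → F z = f z := by
    intro z hz
    have h1 : ContinuousAt f z :=
      (hp z).continuousAt.div (hq z).continuousAt hz
    exact Tendsto.limUnder_eq (h1.tendsto.mono_left nhdsWithin_le_nhds)
  have hFd : Differentiable ℂ F := by
    intro z
    obtain ⟨s, hs, hsq⟩ : ∃ s ∈ 𝓝 z, ∀ w ∈ s, w ≠ z → q w ≠ 0 := by
      have := hev z
      rw [eventually_nhdsWithin_iff] at this
      exact ⟨_, this, fun w hw hwz => hw hwz⟩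
    have h1 : DifferentiableOn ℂ f (s \ {z}) := by
      intro w hw
      have hw2 : w ≠ z := fun h => hw.2 (mem_singleton_iff.2 h)
      exact ((hp w).div (hq w) (hsq w hw.1 hw2)).differentiableWithinAt
    have h2 := Complex.differentiableOn_update_limUnder_of_bddAbove hs h1
      ⟨C, by rintro _ ⟨w, -, rfl⟩; exact hfb w⟩
    have h3 : DifferentiableAt ℂ (Function.update f z (limUnder (𝓝[≠] z) f)) z :=
      h2.differentiableAt hs
    refine h3.congr_of_eventuallyEq ?_
    filter_upwards [hs] with w hw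
    by_cases hwz : w = z
    · rw [hwz, Function.update_self]
    · rw [Function.update_of_ne hwz]
      exact hFeq w (hsq w hw hwz)
  have hFb : ∀ z, ‖F z‖ ≤ C := by
    intro z
    have h1 : Tendsto F (𝓝[≠] z) (𝓝 (F z)) :=
      (hFd z).continuousAt.tendsto.mono_left nhdsWithin_le_nhds
    refine le_of_tendsto h1.norm ?_
    filter_upwards [hev z] with w hw
    rw [hFeq w hw]
    exact hfb w
  have hconst : ∀ z, F z = F z1 := fun z => hFd.apply_eq_apply_of_bounded
    ((isBounded_iff_forall_norm_le).2 ⟨C, by rintro _ ⟨w, rfl⟩; exact hFb w⟩) z z1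
  refine ⟨F z1, fun z => ?_⟩
  by_cases hz : q z = 0
  · rw [hz, mul_zero, hpq z hz]
  · rw [← hconst z, hFeq z hz, hf]
    simp only
    rw [div_mul_cancel₀ _ hz]

/-- Entire functions with the same powers up to constants are proportional. -/
theorem const_of_pow {f g : ℂ → ℂ} (hf : Differentiable ℂ f) (hg : Differentiable ℂ g) {e : ℕ}
    (he : e ≠ 0) (hg0 : ∀ z, g z ≠ 0) {c : ℂ} (h : ∀ z, f z ^ e = c * g z ^ e) :
    ∃ d : ℂ, ∀ z, f z = d * g z := by
  have h1 : ∀ z, ‖f z‖ ≤ (max 1 ‖c‖) * ‖g z‖ := by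
    intro z
    by_contra hcon
    push Not at hcon
    have h2 : (max 1 ‖c‖ * ‖g z‖) ^ e < ‖f z‖ ^ e := pow_lt_pow_left₀ hcon (by positivity) he
    have h3 : ‖f z‖ ^ e = ‖c‖ * ‖g z‖ ^ e := by
      rw [← norm_pow, h z, norm_mul, norm_pow]
    rw [h3, mul_pow] at h2
    have h4 : ‖c‖ ≤ (max 1 ‖c‖) ^ e := (le_max_right 1 ‖c‖).trans
      (le_self_pow₀ (le_max_left _ _) he)
    have h5 : ‖c‖ * ‖g z‖ ^ e ≤ (max 1 ‖c‖) ^ e * ‖g z‖ ^ e := by gcongr
    linarith
  exact liou hf hg h1

end Pool.Agent.K7.H11.GG
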