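import Pool.Agent.K7.H11.GG.Bro
import Pool.Agent.K7.H11.GG.Gen
import Pool.Agent.K7.H11.GG.Liou

/-! Entire curves ramified over generic hyperplanes are constant. -/

set_option autoImplicit false

namespace Pool.Agent.K7.H11.GG

open MvPolynomial
open Pool.Agent.Y190.OP (Phi Phi_smul Phi_inj)

variable {m N : ℕ}

lemma entire_zero {f : ℂ → ℂ} (hf : Differentiable ℂ f) {z0 : ℂ} (h : ∀ᶠ z in nhds z0, f z = 0) :
    ∀ z, f z = 0 := by
  have hA : AnalyticOnNhd ℂ f Set.univ := fun z _ => hf.analyticAt z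
  intro z
  exact hA.eqOn_zero_of_preconnected_of_eventuallyEq_zero isPreconnected_univ
    (Set.mem_univ z0) h (Set.mem_univ z)

lemma entire_mul_zero {f g : ℂ → ℂ} (hf : Differentiable ℂ f) (hg : Differentiable ℂ g)
    (h : ∀ z, f z * g z = 0) {z0 : ℂ} (h0 : f z0 ≠ 0) : ∀ z, g z = 0 := by
  apply entire_zero hg (z0 := z0)
  filter_upwards [hf.continuous.continuousAt.eventually_ne h0] with z hz
  rcases mul_eq_zero.1 (h z) with h1 | h1
  · exact absurd h1 hz
  · exact h1

/-- curves with vanishing Wronskians are constant -/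
lemma wron {G : ℂ → Fin N → ℂ} (hG : Differentiable ℂ G) (hG0 : ∀ z, G z ≠ 0)
    (h : ∀ z j k, deriv G z j * G z k = G z j * deriv G z k) : ∀ z, Phi (G z) = Phi (G 0) := by
  have hGd : ∀ k, Differentiable ℂ fun z => G z k := fun k z => differentiableAt_pi.1 (hG z) k
  have hGd' : ∀ z k, HasDerivAt (fun z => G z k) (deriv G z k) z := fun z k =>
    (hasDerivAt_pi.1 (hG z).hasDerivAt) k
  obtain ⟨k, hk⟩ := Function.ne_iff.1 (hG0 0)
  have hk' : G 0 k ≠ 0 := hk
  obtain ⟨r, hr, hrb⟩ := Metric.eventually_nhds_iff_ball.1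
    ((hGd k).continuous.continuousAt.eventually_ne hk')
  have h1 : ∀ j z, G z j - G 0 j / G 0 k * G z k = 0 := by
    intro j
    apply entire_zero ((hGd j).sub ((hGd k).const_mul _)) (z0 := 0)
    filter_upwards [Metric.ball_mem_nhds (0 : ℂ) hr] with z hz
    have h2 : G z j / G z k = G 0 j / G 0 k := by
      refine Convex.is_const_of_fderivWithin_eq_zero (𝕜 := ℂ) (f := fun z => G z j / G z k)
        (convex_ball (0 : ℂ) r) ?_ ?_ hz (Metric.mem_ball_self hr)
      · intro w hw
        exact (((hGd j) w).div ((hGd k) w) (hrb w hw)).differentiableWithinAt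
      · intro w hw
        have h3 := (hGd' w j).div (hGd' w k) (hrb w hw)
        rw [h w j k, sub_self, zero_div] at h3
        have h4 : HasDerivAt (fun z => G z j / G z k) 0 w := h3
        rw [h4.hasFDerivAt.hasFDerivWithinAt.fderivWithin
          (Metric.isOpen_ball.uniqueDiffWithinAt hw)]
        ext
        simp
    have h5 : G z j - G 0 j / G 0 k * G z k = 0 := by
      rw [← h2, div_mul_cancel₀ _ (hrb z hz), sub_self]
    exact h5
  have h2 : ∀ z, G z = G z k • fun j => G 0 j / G 0 k := by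
    intro z
    funext j
    rw [Pi.smul_apply, smul_eq_mul, mul_comm]
    exact sub_eq_zero.1 (h1 j z)
  have h3 : ∀ z, G z k ≠ 0 := by
    intro z h0
    apply hG0 z
    rw [h2 z, h0, zero_smul]
  intro z
  obtain ⟨c, hc⟩ : ∃ c : Fin N → ℂ, c = fun j => G 0 j / G 0 k := ⟨_, rfl⟩
  rw [← hc] at h2
  rw [h2 z, Phi_smul (h3 z), h2 0, Phi_smul (h3 0)]

/-- The curve satisfies the differential equations given by the forms. -/
theorem dich {I : Type} [Fintype I] (hI : Fintype.card I = 16 * (m + 1) ^ 2)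
    (a : I → Fin (m + 2) → ℂ) (ha : GenPos a) {Q : MvPolynomial (Fin (m + 2) ⊕ Fin (m + 2)) ℂ}
    (hQ : Valid a Q) {G : ℂ → Fin (m + 2) → ℂ} {R : ℝ} (hG : Differentiable ℂ G)
    (hG0 : ∀ z, G z ≠ 0) (hne : ¬ ∀ z, Phi (G z) = Phi (G 0))
    (hdata : ∀ z, ∃ (j : Fin (m + 2)) (v w : Fin (m + 2) → ℂ) (t : ℂ),
        ‖v‖ = 1 ∧ v j = 1 ∧ ‖w‖ ≤ R ∧ (∀ i, ‖dot (a i) w‖ ^ 2 ≤ R * ‖dot (a i) v‖) ∧
        G z j ≠ 0 ∧ G z = G z j • v ∧ deriv G z = G z j • w + t • v) :
    ∀ z, eval (Sum.elim (G z) (deriv G z)) Q = 0 := by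
  by_contra hcon
  push Not at hcon
  obtain ⟨z0, hz0⟩ := hcon
  obtain ⟨C, hC0, hC⟩ := est a ha Q (4 * (m + 1) + 1) (fun i => by
    have := hQ.mem i
    have e : 8 * (m + 1) + 2 = 2 * (4 * (m + 1) + 1) := by ring
    rwa [e] at this) R
  have hGd : ∀ k, Differentiable ℂ fun z => G z k := fun k z => differentiableAt_pi.1 (hG z) k
  have hdG : Differentiable ℂ (deriv G) := by
    intro z
    exact ((hG.analyticAt z).deriv).differentiableAt
  have hdGd : ∀ k, Differentiable ℂ fun z => deriv G z k := fun k z =>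
    differentiableAt_pi.1 (hdG z) k
  set P : ℂ → ℂ := fun z => eval (Sum.elim (G z) (deriv G z)) Q with hP
  have hPd : Differentiable ℂ P := by
    rw [hP]
    have : ∀ Q : MvPolynomial (Fin (m + 2) ⊕ Fin (m + 2)) ℂ,
        Differentiable ℂ fun z => eval (Sum.elim (G z) (deriv G z)) Q := by
      intro Q
      induction Q using MvPolynomial.induction_on with
      | C a => simp only [eval_C]; exact differentiable_const _
      | add p q hp hq => simp only [map_add]; exact hp.add hq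
      | mul_X p i hp =>
        simp only [map_mul, eval_X]
        refine hp.mul ?_
        rcases i with i | i
        · exact hGd i
        · exact hdGd i
    exact this Q
  set q : ℂ → ℂ := fun z => ∏ i, dot (a i) (G z) ^ (4 * (m + 1) + 1) with hq
  have hqd : Differentiable ℂ q := by
    rw [hq]
    exact Differentiable.fun_finsetProd fun i _ => fun z => (diff_dot (a i) (hG z)).pow _
  have hbound : ∀ k z, ‖P z * G z k ^ (16 * (m + 1) ^ 2)‖ ≤ C * ‖q z‖ := by
    intro k z
    obtain ⟨j, v, w, t, hv, -, hw, hvw, hGj, hGv, hGw⟩ := hdata z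
    obtain ⟨s, hs⟩ : ∃ s, s = G z j := ⟨_, rfl⟩
    rw [← hs] at hGj hGv hGw
    have h1 : P z = s ^ (64 * (m + 1) ^ 3) * eval (Sum.elim v w) Q := by
      rw [hP]
      simp only
      rw [hGw, hGv, hQ.hom s s t v w, ← pow_add]
      congr 2
      ring
    have h2 : q z = s ^ (16 * (m + 1) ^ 2 * (4 * (m + 1) + 1)) *
        ∏ i, dot (a i) v ^ (4 * (m + 1) + 1) := by
      rw [hq]
      simp only
      have h3 : ∀ i, dot (a i) (G z) = s * dot (a i) v := by
        intro i
        rw [hGv]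
        unfold dot
        rw [Finset.mul_sum]
        refine Finset.sum_congr rfl fun l _ => ?_
        rw [Pi.smul_apply, smul_eq_mul]
        ring
      simp only [h3, mul_pow]
      rw [Finset.prod_mul_distrib, Finset.prod_const, Finset.card_univ, hI, ← pow_mul]
      congr 2
      ring
    have h4 : ‖G z k‖ ≤ ‖s‖ := by
      rw [hGv, Pi.smul_apply, norm_smul]
      have := (norm_le_pi_norm v k).trans_eq hv
      nlinarith [norm_nonneg s]
    rw [h1, h2, norm_mul, norm_mul, norm_mul, norm_pow, norm_pow, norm_pow, norm_prod]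
    simp only [norm_pow]
    have h5 := hC v w hv hw hvw
    have h6 : 16 * (m + 1) ^ 2 * (4 * (m + 1) + 1) = 64 * (m + 1) ^ 3 + 16 * (m + 1) ^ 2 := by ring
    rw [h6, pow_add]
    calc ‖s‖ ^ (64 * (m + 1) ^ 3) * ‖eval (Sum.elim v w) Q‖ * ‖G z k‖ ^ (16 * (m + 1) ^ 2)
        ≤ ‖s‖ ^ (64 * (m + 1) ^ 3) * (C * ∏ i, ‖dot (a i) v‖ ^ (4 * (m + 1) + 1)) *
          ‖s‖ ^ (16 * (m + 1) ^ 2) := by gcongr
      _ = _ := by ring
  choose c hc using fun k => liou (hPd.mul ((hGd k).pow (16 * (m + 1) ^ 2))) hqd (hbound k)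
  obtain ⟨k0, hk0⟩ := Function.ne_iff.1 (hG0 z0)
  have hk0' : G z0 k0 ≠ 0 := hk0
  have hck0 : c k0 ≠ 0 := by
    intro h0
    have h1 := hc k0 z0
    rw [h0, zero_mul] at h1
    exact (mul_ne_zero hz0 (pow_ne_zero _ hk0')) h1
  have h1 : ∀ k z, c k0 * G z k ^ (16 * (m + 1) ^ 2) - c k * G z k0 ^ (16 * (m + 1) ^ 2) = 0 := by
    intro k
    refine entire_mul_zero (f := P) hPd (((hGd k).pow _).const_mul _ |>.sub
      (((hGd k0).pow _).const_mul _)) (fun z => ?_) hz0
    have e1 : P z * G z k ^ (16 * (m + 1) ^ 2) = c k * q z := hc k z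
    have e2 : P z * G z k0 ^ (16 * (m + 1) ^ 2) = c k0 * q z := hc k0 z
    linear_combination c k0 * e1 - c k * e2
  have hE : 16 * (m + 1) ^ 2 ≠ 0 := by positivity
  have hnz : ∀ z, G z k0 ≠ 0 := by
    intro z h0
    apply hG0 z
    funext k
    have h2 := h1 k z
    rw [h0, zero_pow hE, mul_zero, sub_zero] at h2
    rcases mul_eq_zero.1 h2 with h3 | h3
    · exact absurd h3 hck0
    · exact pow_eq_zero_iff hE |>.1 h3
  choose d hd using fun k => const_of_pow (hGd k) (hGd k0) hE hnz (c := c k / c k0) (fun z => by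
    have h2 := h1 k z
    field_simp
    linear_combination h2)
  apply hne
  intro z
  have h2 : ∀ z, G z = G z k0 • d := fun z => by
    funext k
    rw [Pi.smul_apply, smul_eq_mul, mul_comm]
    exact hd k z
  rw [h2 z, h2 0, Phi_smul (hnz z), Phi_smul (hnz 0)]

end Pool.Agent.K7.H11.GG
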