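import Pool.Agent.K7.H11.GG.Main

/-! Entire curves ramified over generic hyperplanes are constant: assembly. -/

set_option autoImplicit false

namespace Pool.Agent.K7.H11.GG

open MvPolynomial
open Pool.Agent.Y190.OP (Phi Phi_smul Phi_inj)

variable {m : ℕ}

/-- the matrix with the columns `v`, `w`, `e_2`, … -/
def colMat {F : Type*} [CommRing F] (v w : Fin (m + 2) → F) :
    Matrix (Fin (m + 2)) (Fin (m + 2)) F :=
  Matrix.of fun i j => if j = 0 then v i else if j = 1 then w i else if i = j then 1 else 0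

lemma colMat_det {F : Type*} [CommRing F] (v w : Fin (m + 2) → F) (hw : w 0 = 0)
    (h0 : IsUnit (v 0)) (h1 : IsUnit (w 1)) : IsUnit (colMat v w).det := by
  rw [Matrix.det_of_isLowerTriangular]
  · refine Finset.prod_induction _ IsUnit (fun a b ha hb => ha.mul hb) isUnit_one fun i _ => ?_
    unfold colMat
    rw [Matrix.of_apply]
    split_ifs with h2 h3 h4
    · rw [h2]; exact h0
    · rw [h3]; exact h1
    · exact isUnit_one
    · exact absurd rfl h4
  · intro i j hij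
    have hij' : i < j := hij
    unfold colMat
    rw [Matrix.of_apply]
    split_ifs with h2 h3 h4
    · rw [h2] at hij'
      exact absurd hij' (Fin.not_lt_zero i)
    · rw [h3] at hij'
      have : i = 0 := by
        apply Fin.ext
        have h5 : i.val < (1 : Fin (m + 2)).val := hij'
        rw [Fin.val_one] at h5
        simp only [Fin.val_zero]
        omega
      rw [this, hw]
    · exact absurd h4 hij'.ne
    · rfl

lemma colMat_map {F F' : Type*} [CommRing F] [CommRing F'] (φ : F →+* F')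
    (v w : Fin (m + 2) → F) :
    (colMat v w).map φ = colMat (fun i => φ (v i)) (fun i => φ (w i)) := by
  ext i j
  unfold colMat
  rw [Matrix.map_apply, Matrix.of_apply, Matrix.of_apply]
  split_ifs <;> simp

lemma colMat_zero {F : Type*} [CommRing F] (v w : Fin (m + 2) → F) :
    (colMat v w).mulVec (Pi.single 0 1) = v := by
  rw [Matrix.mulVec_single_one]
  funext i
  change colMat v w i 0 = v i
  unfold colMat
  rw [Matrix.of_apply, if_pos rfl]

lemma colMat_one {F : Type*} [CommRing F] (v w : Fin (m + 2) → F) :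
    (colMat v w).mulVec (Pi.single 1 1) = w := by
  rw [Matrix.mulVec_single_one]
  funext i
  change colMat v w i 1 = w i
  unfold colMat
  rw [Matrix.of_apply, if_neg (by simp), if_pos rfl]

lemma exists_perm {j k : Fin (m + 2)} (hjk : j ≠ k) :
    ∃ π : Equiv.Perm (Fin (m + 2)), π 0 = k ∧ π 1 = j := by
  set j' := Equiv.swap 0 k j with hj'
  have h1 : j' ≠ 0 := by
    intro h
    have : j = k := by
      calc j = Equiv.swap 0 k (Equiv.swap 0 k j) := (Equiv.swap_apply_self 0 k j).symm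
        _ = Equiv.swap 0 k 0 := congrArg _ (hj'.symm.trans h)
        _ = k := Equiv.swap_apply_left 0 k
    exact hjk this
  refine ⟨Equiv.swap 0 k * Equiv.swap 1 j', ?_, ?_⟩
  · rw [Equiv.Perm.mul_apply, Equiv.swap_apply_of_ne_of_ne (by simp) (Ne.symm h1),
      Equiv.swap_apply_left]
  · rw [Equiv.Perm.mul_apply, Equiv.swap_apply_left, hj', Equiv.swap_apply_self]

lemma Valid.tau {I : Type} {a a' : I → Fin (m + 2) → ℂ}
    {Q : MvPolynomial (Fin (m + 2) ⊕ Fin (m + 2)) ℂ} (hQ : Valid a' Q)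
    (T : Matrix (Fin (m + 2)) (Fin (m + 2)) ℂ) (hT : ∀ i l, ∑ p, a' i p * T p l = a i l) :
    Valid a (tau T Q) := by
  refine ⟨fun i => ?_, fun s t u v w => ?_⟩
  · have h1 := Ideal.mem_map_of_mem (GG.tau T).toRingHom (hQ.mem i)
    rw [Ideal.map_pow, I2, Ideal.map_span, Set.image_pair] at h1
    have h2 : (fun l => ∑ p, a' i p * T p l) = a i := funext fun l => hT i l
    have h4 : (GG.tau T).toRingHom (lin (a' i) Sum.inl) = lin (a i) Sum.inl := by
      change GG.tau T (lin (a' i) Sum.inl) = _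
      rw [(tau_lin T (a' i)).1, h2]
    have h5 : (GG.tau T).toRingHom (lin (a' i) Sum.inr) = lin (a i) Sum.inr := by
      change GG.tau T (lin (a' i) Sum.inr) = _
      rw [(tau_lin T (a' i)).2, h2]
    rw [h4, h5] at h1
    exact h1
  · rw [eval_tau, eval_tau, Matrix.mulVec_smul, Matrix.mulVec_add, Matrix.mulVec_smul,
      Matrix.mulVec_smul, hQ.hom]

/-- the determinant of the chosen rows -/
noncomputable def minor {q : ℕ} (s : Fin (m + 2) → Fin q) : MvPolynomial (Fin q × Fin (m + 2)) ℚ :=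
  (Matrix.of fun j l => X (s j, l) :
    Matrix (Fin (m + 2)) (Fin (m + 2)) (MvPolynomial (Fin q × Fin (m + 2)) ℚ)).det

lemma minor_ne {q : ℕ} (s : Fin (m + 2) ↪ Fin q) : minor s ≠ 0 := by
  classical
  intro h
  have h1 := congrArg (eval fun p : Fin q × Fin (m + 2) => if p.1 = s p.2 then (1 : ℚ) else 0) h
  rw [map_zero, minor, RingHom.map_det] at h1
  have h2 : (eval fun p : Fin q × Fin (m + 2) => if p.1 = s p.2 then (1 : ℚ) else 0).mapMatrix
      (Matrix.of fun j l => X (s j, l) :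
        Matrix (Fin (m + 2)) (Fin (m + 2)) (MvPolynomial (Fin q × Fin (m + 2)) ℚ)) = 1 := by
    ext j l
    rw [RingHom.mapMatrix_apply, Matrix.map_apply, Matrix.of_apply, eval_X, Matrix.one_apply]
    simp only [EmbeddingLike.apply_eq_iff_eq]
  rw [h2, Matrix.det_one] at h1
  exact one_ne_zero h1

lemma aeval_minor {q : ℕ} (s : Fin (m + 2) → Fin q) (A : Fin q → Fin (m + 2) → ℂ) :
    aeval (fun p : Fin q × Fin (m + 2) => A p.1 p.2) (minor s) =
      (Matrix.of fun j l => A (s j) l).det := by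
  rw [minor, AlgHom.map_det]
  congr 1
  ext j l
  rw [AlgHom.mapMatrix_apply, Matrix.map_apply, Matrix.of_apply, Matrix.of_apply, aeval_X]

/-- general position -/
lemma genPos_of {q : ℕ} (hq : m + 2 ≤ q) (A : Fin q → Fin (m + 2) → ℂ)
    (h : ∀ s : Fin (m + 2) ↪ Fin q, aeval (fun p : Fin q × Fin (m + 2) => A p.1 p.2) (minor s) ≠ 0) :
    GenPos A := by
  classical
  have hind : ∀ s : Fin (m + 2) ↪ Fin q, LinearIndependent ℂ fun j => A (s j) := by
    intro s
    have h1 := h s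
    rw [aeval_minor] at h1
    have h2 : IsUnit (Matrix.of fun j l => A (s j) l : Matrix (Fin (m + 2)) (Fin (m + 2)) ℂ) :=
      (Matrix.isUnit_iff_isUnit_det _).2 (isUnit_iff_ne_zero.2 h1)
    exact Matrix.linearIndependent_rows_iff_isUnit.2 h2
  intro v hv
  -- at most `m + 1` of the linear forms vanish
  have hcard : (Finset.univ.filter fun i => dot (A i) v = 0).card ≤ m + 1 := by
    by_contra hcon
    push Not at hcon
    obtain ⟨T, hT, hTc⟩ := Finset.exists_subset_card_eq (show m + 2 ≤ _ from hcon)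
    set s : Fin (m + 2) ↪ Fin q := (T.orderEmbOfFin hTc).toEmbedding with hs
    have h1 := h s
    rw [aeval_minor] at h1
    apply h1
    rw [← Matrix.exists_mulVec_eq_zero_iff]
    refine ⟨v, hv, ?_⟩
    funext j
    have h2 : s j ∈ Finset.univ.filter fun i => dot (A i) v = 0 :=
      hT (Finset.orderEmbOfFin_mem T hTc j)
    exact (Finset.mem_filter.1 h2).2
  obtain ⟨T, hT, -, hTc⟩ := Finset.exists_subsuperset_card_eq (n := m + 2)
    (Finset.subset_univ (Finset.univ.filter fun i => dot (A i) v = 0)) (by omega)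
    (by rw [Finset.card_univ, Fintype.card_fin]; exact hq)
  set e : Fin (m + 2) ≃o T := T.orderIsoOfFin hTc with he
  have h1 := hind (T.orderEmbOfFin hTc).toEmbedding
  have h2 := h1.comp (fun i : {i // dot (A i) v = 0} =>
    e.symm ⟨i.1, hT (Finset.mem_filter.2 ⟨Finset.mem_univ _, i.2⟩)⟩) (by
      intro i j hij
      have := e.symm.injective hij
      exact Subtype.ext (Subtype.mk.inj this))
  convert h2 using 1
  funext i
  change A i = A (T.orderEmbOfFin hTc (e.symm _))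
  rw [← Finset.coe_orderIsoOfFin_apply, ← he, e.apply_symm_apply]

/-- normal form of a pair of independent vectors -/
lemma normal_form {v w : Fin (m + 2) → ℂ} {j k : Fin (m + 2)} (hk : v k ≠ 0)
    (hjk : w j * v k ≠ v j * w k) :
    ∃ (π : Equiv.Perm (Fin (m + 2))) (y1 : Fin (m + 1) → ℂ) (y2 : Fin m → ℂ) (s t u : ℂ),
      s ≠ 0 ∧ t ≠ 0 ∧ v ∘ π = s • (Fin.cons 1 y1 : Fin (m + 2) → ℂ) ∧
      w ∘ π = t • (Fin.cons 0 (Fin.cons 1 y2) : Fin (m + 2) → ℂ) +
        u • (Fin.cons 1 y1 : Fin (m + 2) → ℂ) := by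
  have hne : j ≠ k := by
    rintro rfl
    exact hjk (mul_comm _ _)
  obtain ⟨π, hπ0, hπ1⟩ := exists_perm hne
  set w1 : Fin (m + 2) → ℂ := fun l => w l - w k / v k * v l with hw1
  have hw1k : w1 k = 0 := by
    rw [hw1]
    simp only
    rw [div_mul_cancel₀ _ hk, sub_self]
  have hw1j : w1 j ≠ 0 := by
    rw [hw1]
    simp only
    intro h
    apply hjk
    field_simp at h
    linear_combination h
  refine ⟨π, fun l => v (π l.succ) / v k, fun l => w1 (π l.succ.succ) / w1 j, v k, w1 j, w k,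
    hk, hw1j, ?_, ?_⟩
  · funext l
    refine Fin.cases ?_ (fun l => ?_) l
    · rw [Function.comp_apply, Pi.smul_apply, Fin.cons_zero, hπ0, smul_eq_mul, mul_one]
    · rw [Function.comp_apply, Pi.smul_apply, Fin.cons_succ, smul_eq_mul, mul_div_cancel₀ _ hk]
  · have hw : ∀ l, w l = w1 l + w k / v k * v l := fun l => by rw [hw1]; ring
    funext l
    rw [Function.comp_apply, hw, Pi.add_apply, Pi.smul_apply, Pi.smul_apply, smul_eq_mul,
      smul_eq_mul]
    refine Fin.cases ?_ (fun l => ?_) l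
    · rw [hπ0, Fin.cons_zero, Fin.cons_zero, hw1k, div_mul_cancel₀ _ hk]
      ring
    · rw [Fin.cons_succ, Fin.cons_succ]
      congr 1
      · refine Fin.cases ?_ (fun l => ?_) l
        · rw [Fin.cons_zero, mul_one]
          change w1 (π 1) = w1 j
          rw [hπ1]
        · rw [Fin.cons_succ, mul_div_cancel₀ _ hw1j]
      · field_simp

/-- the matrices of polynomials -/
noncomputable def NN (V : Matrix (Fin (m + 2)) (Fin (m + 2)) ℚ) (π : Equiv.Perm (Fin (m + 2))) :
    Matrix (Fin (m + 2)) (Fin (m + 2)) (MvPolynomial (Fin (m + 1) ⊕ Fin m) ℚ) :=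
  ((colMat (Fin.cons 1 fun l => X (Sum.inl l))
    (Fin.cons 0 (Fin.cons 1 fun l => X (Sum.inr l)))) * V⁻¹.map C).submatrix π.symm id

lemma NN_det {V : Matrix (Fin (m + 2)) (Fin (m + 2)) ℚ} (hV : IsUnit V.det)
    (π : Equiv.Perm (Fin (m + 2))) : IsUnit (NN V π).det := by
  rw [NN, Matrix.det_permute, Matrix.det_mul]
  refine IsUnit.mul ?_ (IsUnit.mul ?_ ?_)
  · rcases Int.units_eq_one_or (Equiv.Perm.sign π.symm) with h | h
    · rw [h]; simp
    · rw [h]; simp
  · refine colMat_det _ _ ?_ ?_ ?_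
    · rw [Fin.cons_zero]
    · rw [Fin.cons_zero]; exact isUnit_one
    · change IsUnit ((Fin.cons 0 (Fin.cons 1 fun l => X (Sum.inr l)) :
        Fin (m + 2) → MvPolynomial (Fin (m + 1) ⊕ Fin m) ℚ) (Fin.succ 0))
      rw [Fin.cons_succ, Fin.cons_zero]
      exact isUnit_one
  · have h1 : (V⁻¹.map C : Matrix (Fin (m + 2)) (Fin (m + 2))
        (MvPolynomial (Fin (m + 1) ⊕ Fin m) ℚ)).det = C (V⁻¹.det) := by
      exact (RingHom.map_det (C : ℚ →+* MvPolynomial (Fin (m + 1) ⊕ Fin m) ℚ) V⁻¹).symm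
    rw [h1]
    have h2 : IsUnit V⁻¹.det := by
      rw [Matrix.det_nonsing_inv]
      exact hV.ringInverse
    exact h2.map C

/-- the matrix over the complex numbers -/
noncomputable def MM (V : Matrix (Fin (m + 2)) (Fin (m + 2)) ℚ) (y1 : Fin (m + 1) → ℂ)
    (y2 : Fin m → ℂ) : Matrix (Fin (m + 2)) (Fin (m + 2)) ℂ :=
  colMat (Fin.cons 1 y1) (Fin.cons 0 (Fin.cons 1 y2)) * V⁻¹.map (algebraMap ℚ ℂ)

lemma NN_aeval (V : Matrix (Fin (m + 2)) (Fin (m + 2)) ℚ) (π : Equiv.Perm (Fin (m + 2)))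
    (y1 : Fin (m + 1) → ℂ) (y2 : Fin m → ℂ) (l p : Fin (m + 2)) :
    aeval (Sum.elim y1 y2) (NN V π l p) = MM V y1 y2 (π.symm l) p := by
  rw [NN, MM, Matrix.submatrix_apply, id, Matrix.mul_apply, Matrix.mul_apply, map_sum]
  refine Finset.sum_congr rfl fun x _ => ?_
  rw [map_mul, Matrix.map_apply, Matrix.map_apply, aeval_C]
  congr 1
  have h1 := congrFun (congrFun (colMat_map (aeval (Sum.elim y1 y2) :
    MvPolynomial (Fin (m + 1) ⊕ Fin m) ℚ →ₐ[ℚ] ℂ).toRingHom
    (Fin.cons 1 fun l => X (Sum.inl l)) (Fin.cons 0 (Fin.cons 1 fun l => X (Sum.inr l))))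
    (π.symm l)) x
  rw [Matrix.map_apply] at h1
  refine h1.trans ?_
  congr 1
  · funext i
    refine Fin.cases ?_ (fun i => ?_) i
    · rw [Fin.cons_zero, Fin.cons_zero, map_one]
    · rw [Fin.cons_succ, Fin.cons_succ]
      exact aeval_X _ _
  · funext i
    refine Fin.cases ?_ (fun i => ?_) i
    · rw [Fin.cons_zero, Fin.cons_zero, map_zero]
    · rw [Fin.cons_succ, Fin.cons_succ]
      refine Fin.cases ?_ (fun i => ?_) i
      · rw [Fin.cons_zero, Fin.cons_zero, map_one]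
      · rw [Fin.cons_succ, Fin.cons_succ]
        exact aeval_X _ _

lemma MM_unit {V : Matrix (Fin (m + 2)) (Fin (m + 2)) ℚ} (hV : IsUnit V.det)
    (y1 : Fin (m + 1) → ℂ) (y2 : Fin m → ℂ) : IsUnit (MM V y1 y2).det := by
  rw [MM, Matrix.det_mul]
  refine IsUnit.mul ?_ ?_
  · refine colMat_det _ _ ?_ ?_ ?_
    · rw [Fin.cons_zero]
    · rw [Fin.cons_zero]; exact isUnit_one
    · change IsUnit ((Fin.cons 0 (Fin.cons 1 y2) : Fin (m + 2) → ℂ) (Fin.succ 0))
      rw [Fin.cons_succ, Fin.cons_zero]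
      exact isUnit_one
  · have h1 : (V⁻¹.map (algebraMap ℚ ℂ)).det = algebraMap ℚ ℂ (V⁻¹.det) :=
      (RingHom.map_det (algebraMap ℚ ℂ) V⁻¹).symm
    rw [h1]
    have h2 : IsUnit V⁻¹.det := by
      rw [Matrix.det_nonsing_inv]
      exact hV.ringInverse
    exact h2.map _

/-- the inverse takes the first columns to the first columns -/
lemma MM_inv {V : Matrix (Fin (m + 2)) (Fin (m + 2)) ℚ} (hV : IsUnit V.det)
    (y1 : Fin (m + 1) → ℂ) (y2 : Fin m → ℂ) (x : Fin (m + 2) → ℂ) :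
    (MM V y1 y2)⁻¹.mulVec ((colMat (Fin.cons 1 y1) (Fin.cons 0 (Fin.cons 1 y2))).mulVec x) =
      (V.map (algebraMap ℚ ℂ)).mulVec x := by
  have h1 : MM V y1 y2 * V.map (algebraMap ℚ ℂ) =
      colMat (Fin.cons 1 y1) (Fin.cons 0 (Fin.cons 1 y2)) := by
    rw [MM, Matrix.mul_assoc, ← Matrix.map_mul, Matrix.nonsing_inv_mul _ hV]
    rw [Matrix.map_one _ (map_zero _) (map_one _), Matrix.mul_one]
  rw [← h1, ← Matrix.mulVec_mulVec, Matrix.mulVec_mulVec (M := (MM V y1 y2)⁻¹),
    Matrix.nonsing_inv_mul _ (MM_unit hV y1 y2), Matrix.one_mulVec]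

lemma nonprop_wron {N : ℕ} {G : ℂ → Fin N → ℂ} (hG : Differentiable ℂ G) (hG0 : ∀ z, G z ≠ 0)
    (hne : ¬ ∀ z, Phi (G z) = Phi (G 0)) :
    ∃ z j k, G z k ≠ 0 ∧ deriv G z j * G z k ≠ G z j * deriv G z k := by
  by_contra hcon
  push Not at hcon
  apply hne
  apply wron hG hG0
  intro z j k
  by_cases hk : G z k = 0
  · by_cases hj : G z j = 0
    · rw [hk, hj, mul_zero, zero_mul]
    · have := hcon z k j hj
      linear_combination -this
  · exact hcon z j k hk

/-- **Entire curves ramified over generic hyperplanes.** -/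
theorem orb (m q : ℕ) (hq : 32 * (m + 1) ^ 3 ≤ q) :
    ∃ h : MvPolynomial (Fin q × Fin (m + 2)) ℚ, h ≠ 0 ∧ ∀ A : Fin q → Fin (m + 2) → ℂ,
      aeval (fun p : Fin q × Fin (m + 2) => A p.1 p.2) h ≠ 0 → GenPos A ∧
      ∀ g : ℂ → Fin (m + 2) → ℂ, Differentiable ℂ g → (∀ z, g z ≠ 0) → (∀ i, Ram (A i) g) →
        ∀ z w, ∃ c : ℂ, g w = c • g z := by
  classical
  obtain ⟨qp, v', w', hqp, hv0, hw0, hw1, hqpQ⟩ := exists_q m (I := Fin (16 * (m + 1) ^ 2))
    (by rw [Fintype.card_fin])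
  set V : Matrix (Fin (m + 2)) (Fin (m + 2)) ℚ := colMat v' w' with hV
  have hVu : IsUnit V.det := colMat_det v' w' hw0 (isUnit_iff_ne_zero.2 hv0)
    (isUnit_iff_ne_zero.2 hw1)
  obtain ⟨h1, h10, hh1⟩ := exists_h (Gp := Fin (2 * (m + 1))) qp hqp
    (NN V) (NN_det hVu)
  have hlt : 2 * (m + 1) * (16 * (m + 1) ^ 2) ≤ q := by
    calc 2 * (m + 1) * (16 * (m + 1) ^ 2) = 32 * (m + 1) ^ 3 := by ring
      _ ≤ q := hq
  set emb : Fin (2 * (m + 1)) × Fin (16 * (m + 1) ^ 2) ↪ Fin q :=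
    finProdFinEquiv.toEmbedding.trans (Fin.castLEEmb hlt) with hemb
  set ren : (Fin (2 * (m + 1)) × Fin (16 * (m + 1) ^ 2)) × Fin (m + 2) → Fin q × Fin (m + 2) :=
    fun p => (emb p.1, p.2) with hren
  have hreninj : Function.Injective ren := by
    intro p p' hpp
    rw [hren] at hpp
    simp only [Prod.mk.injEq, EmbeddingLike.apply_eq_iff_eq] at hpp
    exact Prod.ext hpp.1 hpp.2
  refine ⟨rename ren h1 * ∏ s : Fin (m + 2) ↪ Fin q, minor s, ?_, ?_⟩
  · refine mul_ne_zero ?_ (Finset.prod_ne_zero_iff.2 fun s _ => minor_ne s)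
    rw [Ne, map_eq_zero_iff _ (rename_injective ren hreninj)]
    exact h10
  intro A hA
  rw [map_mul] at hA
  have hA1 := left_ne_zero_of_mul hA
  have hA2 := right_ne_zero_of_mul hA
  rw [map_prod] at hA2
  have hmq : m + 2 ≤ q := by
    refine le_trans ?_ hq
    nlinarith [Nat.zero_le (m ^ 3), Nat.zero_le (m ^ 2), Nat.zero_le m]
  have hgp : GenPos A := genPos_of hmq A fun s => Finset.prod_ne_zero_iff.1 hA2 s (Finset.mem_univ s)
  refine ⟨hgp, fun g hg hg0 hr => ?_⟩
  by_contra hcon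
  push Not at hcon
  obtain ⟨za, zb, hab⟩ := hcon
  have hne : ¬ ∀ z, Phi (g z) = Phi (g 0) := by
    intro h
    have h2 : Phi (g za) = Phi (g zb) := (h za).trans (h zb).symm
    obtain ⟨c, -, hc⟩ := Phi_inj (hg0 za) (hg0 zb) h2
    exact hab c hc
  obtain ⟨G, R, hG, hG0, hGne, hdata⟩ := brody_ram A hg hg0 hr hne
  obtain ⟨z0, j, k, hk, hjk⟩ := nonprop_wron hG hG0 hGne
  obtain ⟨π, y1, y2, s, t, u, hs, ht, hvπ, hwπ⟩ := normal_form hk hjk
  rw [aeval_rename] at hA1
  obtain ⟨g0, -, hg0q⟩ := hh1 _ hA1 π (Sum.elim y1 y2) Finset.univ (by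
    rw [Finset.card_univ, Fintype.card_fin, Fintype.card_sum, Fintype.card_fin, Fintype.card_fin]
    omega)
  set a : Fin (16 * (m + 1) ^ 2) → Fin (m + 2) → ℂ := fun i => A (emb (g0, i)) with ha
  set a' : Fin (16 * (m + 1) ^ 2) → Fin (m + 2) → ℂ := fun i p =>
    ∑ l, a i l * MM V y1 y2 (π.symm l) p with ha'
  obtain ⟨Q, hQ, hQ0⟩ := hqpQ a' (by
    convert hg0q using 3
    funext p
    rw [ha']
    refine Finset.sum_congr rfl fun l _ => ?_
    rw [NN_aeval]
    rfl)
  set M := MM V y1 y2 with hM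
  have hMu : IsUnit M.det := MM_unit hVu y1 y2
  set T : Matrix (Fin (m + 2)) (Fin (m + 2)) ℂ := M⁻¹.submatrix id π.symm with hT
  have hVal : Valid a (tau T Q) := by
    refine hQ.tau T fun i l => ?_
    rw [ha', hT]
    simp only [Matrix.submatrix_apply, id, Finset.sum_mul, mul_assoc]
    rw [Finset.sum_comm]
    have h2 : ∀ x, ∑ p, a i x * (M (π.symm x) p * M⁻¹ p (π.symm l)) =
        a i x * (if x = l then 1 else 0) := by
      intro x
      rw [← Finset.mul_sum]
      congr 1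
      have h3 := Matrix.mul_nonsing_inv M hMu
      have h4 := congrFun (congrFun h3 (π.symm x)) (π.symm l)
      rw [Matrix.mul_apply, Matrix.one_apply] at h4
      rw [h4]
      simp only [EmbeddingLike.apply_eq_iff_eq]
    simp only [h2]
    simp
  have hgpa : GenPos a := by
    intro v hv
    have h2 := (hgp v hv).comp (fun i : {i // dot (a i) v = 0} =>
      (⟨emb (g0, i.1), i.2⟩ : {i // dot (A i) v = 0})) (by
        intro i i' hii
        have h3 := Subtype.mk.inj hii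
        have h4 := emb.injective h3
        exact Subtype.ext (Prod.mk.inj h4).2)
    exact h2
  have hz := dich (by rw [Fintype.card_fin]) a hgpa hVal hG hG0 hGne (fun z => by
    obtain ⟨j, v, w, t, h2, h3, h4, h5, h6, h7, h8⟩ := hdata z
    exact ⟨j, v, w, t, h2, h3, h4, fun i => h5 _, h6, h7, h8⟩) z0
  rw [eval_tau] at hz
  have hTv : ∀ x : Fin (m + 2) → ℂ, T.mulVec x = M⁻¹.mulVec (x ∘ π) := by
    intro x
    rw [hT, Matrix.submatrix_mulVec_equiv]
    rfl
  have e0 : (V.map (algebraMap ℚ ℂ)).mulVec (Pi.single 0 1) = fun j => (v' j : ℂ) := by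
    have : V.map (algebraMap ℚ ℂ) = colMat (fun i => algebraMap ℚ ℂ (v' i))
      (fun i => algebraMap ℚ ℂ (w' i)) := colMat_map (algebraMap ℚ ℂ) v' w'
    rw [this, colMat_zero]
    rfl
  have e1 : (V.map (algebraMap ℚ ℂ)).mulVec (Pi.single 1 1) = fun j => (w' j : ℂ) := by
    have : V.map (algebraMap ℚ ℂ) = colMat (fun i => algebraMap ℚ ℂ (v' i))
      (fun i => algebraMap ℚ ℂ (w' i)) := colMat_map (algebraMap ℚ ℂ) v' w'
    rw [this, colMat_one]
    rfl
  have f0 := MM_inv hVu y1 y2 (Pi.single 0 1)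
  have f1 := MM_inv hVu y1 y2 (Pi.single 1 1)
  rw [colMat_zero, e0] at f0
  rw [colMat_one, e1] at f1
  rw [hTv, hTv, hvπ, hwπ, Matrix.mulVec_smul, Matrix.mulVec_add, Matrix.mulVec_smul,
    Matrix.mulVec_smul, f0, f1] at hz
  rw [hQ.hom] at hz
  exact (mul_ne_zero (mul_ne_zero (pow_ne_zero _ hs) (pow_ne_zero _ ht)) hQ0) hz

end Pool.Agent.K7.H11.GG
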