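import Pool.Agent.K7.H11.GG.Orb

/-! Hyperbolicity of the varieties given by generic linear relations between powerful forms. -/

set_option autoImplicit false

namespace Pool.Agent.K7.H11.GG

open MvPolynomial

/-- the zeros of powerful functions are multiple -/
lemma deriv_powerful {α β : ℂ → ℂ} (hα : Differentiable ℂ α) (hβ : Differentiable ℂ β) {z : ℂ}
    (h : α z ^ 2 * β z ^ 3 = 0) : deriv (fun z => α z ^ 2 * β z ^ 3) z = 0 := by
  have h1 := ((hα z).hasDerivAt.pow 2).mul ((hβ z).hasDerivAt.pow 3)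
  have h2 : HasDerivAt (fun z => α z ^ 2 * β z ^ 3) _ z := h1
  rw [h2.deriv]
  rcases mul_eq_zero.1 h with h3 | h3
  · have h4 : α z = 0 := pow_eq_zero_iff two_ne_zero |>.1 h3
    simp [h4]
  · have h4 : β z = 0 := pow_eq_zero_iff three_ne_zero |>.1 h3
    simp [h4]

lemma diff_eval {N : ℕ} {f : ℂ → Fin N → ℂ} (hf : Differentiable ℂ f) (p : MvPolynomial (Fin N) ℂ) :
    Differentiable ℂ fun z => eval (f z) p := by
  induction p using MvPolynomial.induction_on with
  | C a => simp only [eval_C]; exact differentiable_const _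
  | add p q hp hq => simp only [map_add]; exact hp.add hq
  | mul_X p i hp =>
    simp only [map_mul, eval_X]
    exact hp.mul fun z => differentiableAt_pi.1 (hf z) i

lemma eval_smul_hom {N e : ℕ} {p : MvPolynomial (Fin N) ℂ} (hp : p.IsHomogeneous e) (s : ℂ)
    (x : Fin N → ℂ) : eval (s • x) p = s ^ e * eval x p := by
  rw [eval_eq', eval_eq', Finset.mul_sum]
  refine Finset.sum_congr rfl fun d hd => ?_
  have h1 : ∑ i, d i = e := by
    have := hp (mem_support_iff.1 hd)
    rw [Finsupp.weight_apply, Finsupp.sum_fintype _ _ (fun i => by simp)] at this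
    simpa using this
  simp only [Pi.smul_apply, smul_eq_mul, mul_pow]
  rw [Finset.prod_mul_distrib, Finset.prod_pow_eq_pow_sum, h1]
  ring

/-- Curves with constant image under a finite morphism are constant. -/
theorem const_of_image {N d : ℕ} (hd : d ≠ 0) {ι : Type} [Fintype ι]
    {S : Set (MvPolynomial (Fin N) ℂ)} {F : ι → MvPolynomial (Fin N) ℂ}
    (hS : ∀ p ∈ S, ∃ e, p.IsHomogeneous e) (hF : ∀ i, (F i).IsHomogeneous d)
    (h0 : ∀ x, x ≠ 0 → (∀ p ∈ S, eval x p = 0) → ∃ i, eval x (F i) ≠ 0)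
    {f : ℂ → Fin N → ℂ} (hf : Differentiable ℂ f) (hf0 : ∀ z, f z ≠ 0)
    (hfS : ∀ z, ∀ p ∈ S, eval (f z) p = 0)
    (hc : ∀ w, ∃ c : ℂ, ∀ i, eval (f w) (F i) = c * eval (f 0) (F i)) :
    ∀ z w, ∃ c : ℂ, f w = c • f z := by
  classical
  obtain ⟨i0, hi0⟩ := h0 _ (hf0 0) (hfS 0)
  have hφ : ∀ w i, eval (f w) (F i) =
      eval (f 0) (F i) / eval (f 0) (F i0) * eval (f w) (F i0) := by
    intro w i
    obtain ⟨c, hc⟩ := hc w
    rw [hc i, hc i0]
    field_simp
  -- compactness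
  set K : Set (Fin N → ℂ) := Metric.sphere 0 1 ∩ {x | ∀ p ∈ S, eval x p = 0} with hK
  have hKc : IsCompact K := by
    apply (isCompact_sphere _ _).inter_right
    have : {x : Fin N → ℂ | ∀ p ∈ S, eval x p = 0} = ⋂ p ∈ S, {x | eval x p = 0} := by
      ext x
      simp
    rw [this]
    exact isClosed_biInter fun p _ => isClosed_eq (MvPolynomial.continuous_eval p) continuous_const
  have hunit : ∀ x : Fin N → ℂ, x ≠ 0 → (∀ p ∈ S, eval x p = 0) → (‖x‖ : ℂ)⁻¹ • x ∈ K := by
    intro x hx hxS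
    have hxn : (0 : ℝ) < ‖x‖ := norm_pos_iff.2 hx
    refine ⟨?_, fun p hp => ?_⟩
    · rw [mem_sphere_zero_iff_norm, norm_smul, norm_inv, Complex.norm_real, norm_norm]
      exact inv_mul_cancel₀ hxn.ne'
    · obtain ⟨e, he⟩ := hS p hp
      rw [eval_smul_hom he, hxS p hp, mul_zero]
  have hKne : K.Nonempty := ⟨_, hunit _ (hf0 0) (hfS 0)⟩
  set Nf : (Fin N → ℂ) → ℝ := fun x => ∑ i, ‖eval x (F i)‖ with hNf
  have hNc : Continuous Nf := continuous_finsetSum _ fun i _ =>
    (MvPolynomial.continuous_eval (F i)).norm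
  obtain ⟨x0, hx0K, hx0⟩ := hKc.exists_isMinOn hKne hNc.continuousOn
  have hκ : 0 < Nf x0 := by
    obtain ⟨i, hi⟩ := h0 x0 (by
      rintro rfl
      have := hx0K.1
      rw [mem_sphere_zero_iff_norm, norm_zero] at this
      exact zero_ne_one this) hx0K.2
    exact Finset.sum_pos' (fun i _ => norm_nonneg _) ⟨i, Finset.mem_univ i, norm_pos_iff.2 hi⟩
  have hlow : ∀ w, Nf x0 * ‖f w‖ ^ d ≤ Nf (f w) := by
    intro w
    have h1 : Nf x0 ≤ Nf ((‖f w‖ : ℂ)⁻¹ • f w) := hx0 (hunit _ (hf0 w) (hfS w))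
    have h2 : Nf ((‖f w‖ : ℂ)⁻¹ • f w) = (‖f w‖ ^ d)⁻¹ * Nf (f w) := by
      rw [hNf]
      simp only
      rw [Finset.mul_sum]
      refine Finset.sum_congr rfl fun i _ => ?_
      rw [eval_smul_hom (hF i), norm_mul, norm_pow, norm_inv, Complex.norm_real, norm_norm, inv_pow]
    rw [h2] at h1
    have h3 : 0 < ‖f w‖ ^ d := pow_pos (norm_pos_iff.2 (hf0 w)) d
    calc Nf x0 * ‖f w‖ ^ d ≤ ((‖f w‖ ^ d)⁻¹ * Nf (f w)) * ‖f w‖ ^ d := by gcongr
      _ = Nf (f w) := by field_simp
  set t : ℝ := ∑ i, ‖eval (f 0) (F i) / eval (f 0) (F i0)‖ with ht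
  have hup : ∀ w, Nf (f w) = t * ‖eval (f w) (F i0)‖ := by
    intro w
    rw [hNf, ht]
    simp only
    rw [Finset.sum_mul]
    refine Finset.sum_congr rfl fun i _ => ?_
    rw [hφ w i, norm_mul]
  have hbound : ∀ k w, ‖f w k ^ d‖ ≤ (t / Nf x0) * ‖eval (f w) (F i0)‖ := by
    intro k w
    have h1 := hlow w
    rw [hup w] at h1
    have h2 : ‖f w k ^ d‖ ≤ ‖f w‖ ^ d := by
      rw [norm_pow]
      exact pow_le_pow_left₀ (norm_nonneg _) (norm_le_pi_norm _ k) d
    have h3 : Nf x0 * ‖f w k ^ d‖ ≤ t * ‖eval (f w) (F i0)‖ :=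
      (mul_le_mul_of_nonneg_left h2 hκ.le).trans h1
    rw [div_mul_eq_mul_div, le_div_iff₀ hκ]
    linarith
  have hfd : ∀ k, Differentiable ℂ fun z => f z k := fun k z => differentiableAt_pi.1 (hf z) k
  choose c hcc using fun k => liou ((hfd k).pow d) (diff_eval hf (F i0)) (hbound k)
  have hcc' : ∀ k z, f z k ^ d = c k * eval (f z) (F i0) := fun k z => hcc k z
  obtain ⟨k0, hk0⟩ := Function.ne_iff.1 (hf0 0)
  have hk0' : f 0 k0 ≠ 0 := hk0
  have hck0 : c k0 ≠ 0 := by
    intro h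
    have h1 := hcc' k0 0
    rw [h, zero_mul] at h1
    exact hk0' (pow_eq_zero_iff hd |>.1 h1)
  have hrel : ∀ k z, f z k ^ d = c k / c k0 * f z k0 ^ d := by
    intro k z
    rw [hcc' k z, hcc' k0 z]
    field_simp
  have hnz : ∀ z, f z k0 ≠ 0 := by
    intro z h
    apply hf0 z
    funext k
    have h1 := hrel k z
    rw [h, zero_pow hd, mul_zero] at h1
    exact pow_eq_zero_iff hd |>.1 h1
  choose e he using fun k => const_of_pow (hfd k) (hfd k0) hd hnz (hrel k)
  intro z w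
  refine ⟨f w k0 / f z k0, ?_⟩
  funext k
  rw [Pi.smul_apply, smul_eq_mul, he k w, he k z]
  field_simp [hnz z]

/-! ### from equations to parametrisations -/

section Ker

variable {m r : ℕ} {R : Type*} [CommRing R]

/-- the last columns -/
def Cb (C : Matrix (Fin r) (Fin (m + 2 + r)) R) : Matrix (Fin r) (Fin r) R :=
  C.submatrix id (Fin.natAdd (m + 2))

/-- the first columns -/
def Ca (C : Matrix (Fin r) (Fin (m + 2 + r)) R) : Matrix (Fin r) (Fin (m + 2)) R :=
  C.submatrix id (Fin.castAdd r)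

/-- a matrix whose columns generate the kernel -/
def ker (C : Matrix (Fin r) (Fin (m + 2 + r)) R) : Matrix (Fin (m + 2 + r)) (Fin (m + 2)) R :=
  Matrix.of fun i j => Fin.addCases (fun i => if i = j then (Cb C).det else 0)
    (fun l => -((Cb C).adjugate * Ca C) l j) i

lemma ker_top (C : Matrix (Fin r) (Fin (m + 2 + r)) R) (i j : Fin (m + 2)) :
    ker C (Fin.castAdd r i) j = if i = j then (Cb C).det else 0 := by
  unfold ker
  rw [Matrix.of_apply, Fin.addCases_left]

lemma ker_bot (C : Matrix (Fin r) (Fin (m + 2 + r)) R) (l : Fin r) (j : Fin (m + 2)) :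
    ker C (Fin.natAdd (m + 2) l) j = -((Cb C).adjugate * Ca C) l j := by
  unfold ker
  rw [Matrix.of_apply, Fin.addCases_right]

lemma ker_map {R' : Type*} [CommRing R'] (φ : R →+* R') (C : Matrix (Fin r) (Fin (m + 2 + r)) R) :
    (ker C).map φ = ker (C.map φ) := by
  have e1 : Cb (C.map φ) = φ.mapMatrix (Cb C) := rfl
  have e2 : Ca (C.map φ) = (Ca C).map φ := rfl
  ext i j
  rw [Matrix.map_apply]
  refine Fin.addCases (fun i => ?_) (fun l => ?_) i
  · rw [ker_top, ker_top, e1, ← RingHom.map_det]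
    split_ifs <;> simp
  · rw [ker_bot, ker_bot, e1, e2, ← RingHom.map_adjugate, map_neg]
    congr 1
    rw [Matrix.mul_apply, Matrix.mul_apply, map_sum]
    refine Finset.sum_congr rfl fun x _ => ?_
    rw [map_mul]
    rfl

lemma ker_spec (C : Matrix (Fin r) (Fin (m + 2 + r)) ℂ) (hC : (Cb C).det ≠ 0)
    (F : Fin (m + 2 + r) → ℂ) (hF : ∀ l, ∑ i, C l i * F i = 0) (i : Fin (m + 2 + r)) :
    F i = ∑ j, ker C i j * (F (Fin.castAdd r j) / (Cb C).det) := by
  refine Fin.addCases (fun i => ?_) (fun l => ?_) i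
  · simp only [ker_top, ite_mul, zero_mul]
    rw [Finset.sum_ite_eq, if_pos (Finset.mem_univ _), mul_div_cancel₀ _ hC]
  · have h1 : (Ca C).mulVec (fun j => F (Fin.castAdd r j)) =
        -(Cb C).mulVec (fun k => F (Fin.natAdd (m + 2) k)) := by
      funext l
      have := hF l
      rw [Fin.sum_univ_add] at this
      rw [Pi.neg_apply]
      exact eq_neg_of_add_eq_zero_left this
    have h2 : ((Cb C).adjugate * Ca C).mulVec (fun j => F (Fin.castAdd r j)) =
        -((Cb C).det • fun k => F (Fin.natAdd (m + 2) k)) := by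
      rw [← Matrix.mulVec_mulVec, h1, Matrix.mulVec_neg, Matrix.mulVec_mulVec,
        Matrix.adjugate_mul, Matrix.smul_mulVec, Matrix.one_mulVec]
    have h3 := congrFun h2 l
    simp only [ker_bot]
    have h4 : ∑ j, -((Cb C).adjugate * Ca C) l j * (F (Fin.castAdd r j) / (Cb C).det) =
        -(((Cb C).adjugate * Ca C).mulVec (fun j => F (Fin.castAdd r j)) l) / (Cb C).det := by
      unfold Matrix.mulVec dotProduct
      rw [← Finset.sum_neg_distrib, Finset.sum_div]
      refine Finset.sum_congr rfl fun j _ => ?_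
      ring
    rw [h4, h3, Pi.neg_apply, neg_neg, Pi.smul_apply, smul_eq_mul, mul_div_cancel_left₀ _ hC]

end Ker

/-- passage from the parametrisations to the equations -/
theorem exists_C {m r : ℕ} (h : MvPolynomial (Fin (m + 2 + r) × Fin (m + 2)) ℚ) (hh : h ≠ 0) :
    ∃ (B : Matrix (Fin (m + 2)) (Fin (m + 2)) ℚ) (h' : MvPolynomial (Fin r × Fin (m + 2 + r)) ℚ),
      IsUnit B.det ∧ h' ≠ 0 ∧ ∀ C : Matrix (Fin r) (Fin (m + 2 + r)) ℂ,
        aeval (fun p : Fin r × Fin (m + 2 + r) => C p.1 p.2) h' ≠ 0 → (Cb C).det ≠ 0 ∧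
        aeval (fun p : Fin (m + 2 + r) × Fin (m + 2) =>
          (ker C * B.map (algebraMap ℚ ℂ)) p.1 p.2) h ≠ 0 := by
  classical
  obtain ⟨x, hx⟩ : ∃ x : Fin (m + 2 + r) × Fin (m + 2) → ℚ,
      eval x (h * minor (Fin.castAddEmb r)) ≠ 0 := by
    by_contra hcon
    push Not at hcon
    exact mul_ne_zero hh (minor_ne (Fin.castAddEmb r)) (MvPolynomial.funext fun x => by
      rw [hcon x, map_zero])
  rw [map_mul] at hx
  have hx1 := left_ne_zero_of_mul hx
  have hx2 := right_ne_zero_of_mul hx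
  set B : Matrix (Fin (m + 2)) (Fin (m + 2)) ℚ := Matrix.of fun i j => x (Fin.castAdd r i, j) with hB
  have hBdet : B.det = eval x (minor (Fin.castAddEmb r)) := by
    rw [minor, RingHom.map_det]
    congr 1
    ext i j
    rw [RingHom.mapMatrix_apply, Matrix.map_apply, Matrix.of_apply, eval_X]
    rfl
  have hBu : IsUnit B.det := isUnit_iff_ne_zero.2 (by rw [hBdet]; exact hx2)
  set A2 : Matrix (Fin r) (Fin (m + 2)) ℚ := Matrix.of fun i j => x (Fin.natAdd (m + 2) i, j) with hA2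
  set Xm : Matrix (Fin r) (Fin (m + 2 + r)) (MvPolynomial (Fin r × Fin (m + 2 + r)) ℚ) :=
    Matrix.of fun l i => X (l, i) with hXm
  set Bm : Matrix (Fin (m + 2)) (Fin (m + 2)) (MvPolynomial (Fin r × Fin (m + 2 + r)) ℚ) :=
    B.map (algebraMap ℚ _) with hBm
  set sub : Fin (m + 2 + r) × Fin (m + 2) → MvPolynomial (Fin r × Fin (m + 2 + r)) ℚ :=
    fun p => (ker Xm * Bm) p.1 p.2 with hsub
  -- specialisation
  have hspec : ∀ {K : Type} [Field K] [Algebra ℚ K] (c : Matrix (Fin r) (Fin (m + 2 + r)) K),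
      aeval (fun p : Fin r × Fin (m + 2 + r) => c p.1 p.2) ((Cb Xm).det * aeval sub h) =
      (Cb c).det * aeval (fun p : Fin (m + 2 + r) × Fin (m + 2) =>
          (ker c * B.map (algebraMap ℚ K)) p.1 p.2) h := by
    intro K _ _ c
    obtain ⟨φ, hφ⟩ : ∃ φ : MvPolynomial (Fin r × Fin (m + 2 + r)) ℚ →ₐ[ℚ] K,
      φ = aeval (fun p : Fin r × Fin (m + 2 + r) => c p.1 p.2) := ⟨_, rfl⟩
    rw [← hφ, map_mul]
    have hX : Xm.map φ.toRingHom = c := by
      ext l i
      rw [Matrix.map_apply, hXm, Matrix.of_apply, hφ]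
      exact aeval_X _ _
    congr 1
    · have e1 : φ (Cb Xm).det = φ.toRingHom (Cb Xm).det := rfl
      rw [e1, RingHom.map_det]
      congr 1
      rw [← hX]
      rfl
    · have e2 := congrArg (fun f => f h) (MvPolynomial.comp_aeval sub φ)
      simp only [AlgHom.comp_apply] at e2
      rw [e2]
      congr 2
      funext p
      rw [hsub]
      simp only
      rw [Matrix.mul_apply, Matrix.mul_apply, map_sum]
      refine Finset.sum_congr rfl fun l _ => ?_
      rw [map_mul]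
      congr 1
      · have e3 := congrFun (congrFun (ker_map φ.toRingHom Xm) p.1) l
        rw [Matrix.map_apply, hX] at e3
        exact e3
      · exact φ.commutes _
  refine ⟨B, (Cb Xm).det * aeval sub h, hBu, ?_, ?_⟩
  · intro h0
    set c0 : Matrix (Fin r) (Fin (m + 2 + r)) ℚ := Matrix.of fun l i =>
      Fin.addCases (fun j => -(A2 * B⁻¹) l j) (fun k => if l = k then 1 else 0) i with hc0
    have hCb : Cb c0 = 1 := by
      ext l k
      rw [Cb, Matrix.submatrix_apply, hc0, Matrix.of_apply, id, Fin.addCases_right,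
        Matrix.one_apply]
    have hCa : Ca c0 = -(A2 * B⁻¹) := by
      ext l j
      rw [Ca, Matrix.submatrix_apply, hc0, Matrix.of_apply, id, Fin.addCases_left,
        Matrix.neg_apply]
    have h1 := hspec c0
    rw [h0, map_zero, hCb, Matrix.det_one, one_mul] at h1
    have h2 : (fun p : Fin (m + 2 + r) × Fin (m + 2) =>
        (ker c0 * B.map (algebraMap ℚ ℚ)) p.1 p.2) = x := by
      have h3 : ∀ i j, (ker c0 * B) i j = x (i, j) := by
        intro i j
        refine Fin.addCases (fun i => ?_) (fun l => ?_) i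
        · rw [Matrix.mul_apply]
          simp only [ker_top, hCb, Matrix.det_one, ite_mul, one_mul, zero_mul]
          rw [Finset.sum_ite_eq, if_pos (Finset.mem_univ _)]
          rfl
        · have h4 : ∀ j, ker c0 (Fin.natAdd (m + 2) l) j = (A2 * B⁻¹) l j := by
            intro j
            rw [ker_bot, hCb, hCa, Matrix.adjugate_one, Matrix.one_mul, Matrix.neg_apply, neg_neg]
          rw [Matrix.mul_apply]
          simp only [h4]
          rw [← Matrix.mul_apply, Matrix.mul_assoc, Matrix.nonsing_inv_mul _ hBu, Matrix.mul_one]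
          rfl
      funext p
      have h5 : B.map (algebraMap ℚ ℚ) = B := by
        ext i j
        rfl
      rw [h5, h3]
    rw [h2] at h1
    exact hx1 (by rw [← coe_aeval_eq_eval]; exact h1.symm)
  · intro C hC
    rw [hspec] at hC
    exact ⟨left_ne_zero_of_mul hC, right_ne_zero_of_mul hC⟩

/-- **Hyperbolicity.** -/
theorem main (n r : ℕ) (hn : 1 ≤ n) (hr : 32 * n ^ 3 ≤ n + 1 + r) :
    ∃ h : MvPolynomial (Fin r × Fin (n + 1 + r)) ℚ, h ≠ 0 ∧
      ∀ C : Matrix (Fin r) (Fin (n + 1 + r)) ℂ,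
        aeval (fun p : Fin r × Fin (n + 1 + r) => C p.1 p.2) h ≠ 0 →
      ∀ (N d : ℕ), 1 ≤ d → ∀ (S : Set (MvPolynomial (Fin N) ℂ))
        (F : Fin (n + 1 + r) → MvPolynomial (Fin N) ℂ), (∀ p ∈ S, ∃ e, p.IsHomogeneous e) →
        (∀ i, (F i).IsHomogeneous d) → (∀ i, ∃ G H, F i = G ^ 2 * H ^ 3) →
        (∀ x, x ≠ 0 → (∀ p ∈ S, eval x p = 0) → ∃ i, eval x (F i) ≠ 0) →
        ∀ f : ℂ → Fin N → ℂ, Differentiable ℂ f → (∀ z, f z ≠ 0) →
          (∀ z, ∀ p ∈ S, eval (f z) p = 0) → (∀ z l, ∑ i, C l i * eval (f z) (F i) = 0) →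
          ∀ z w, ∃ c : ℂ, f w = c • f z := by
  obtain ⟨m, rfl⟩ : ∃ m, n = m + 1 := ⟨n - 1, by omega⟩
  obtain ⟨h0, hh0, hh⟩ := orb m (m + 2 + r) hr
  obtain ⟨B, h, hB, hh1, hC⟩ := exists_C h0 hh0
  refine ⟨h, hh1, ?_⟩
  intro C hCh N d hd S F hS hF hpow hne f hf hf0 hfS hfC
  obtain ⟨hdet, hA⟩ := hC C hCh
  obtain ⟨-, hcur⟩ := hh (fun i j => (ker C * B.map (algebraMap ℚ ℂ)) i j) hA
  set A : Matrix (Fin (m + 2 + r)) (Fin (m + 2)) ℂ := ker C * B.map (algebraMap ℚ ℂ) with hAdef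
  have hBu : IsUnit (B.map (algebraMap ℚ ℂ)).det := by
    have h1 : (B.map (algebraMap ℚ ℂ)).det = algebraMap ℚ ℂ B.det :=
      (RingHom.map_det (algebraMap ℚ ℂ) B).symm
    rw [h1]
    exact hB.map _
  set g : ℂ → Fin (m + 2) → ℂ := fun z =>
    ((B.map (algebraMap ℚ ℂ))⁻¹).mulVec fun j => eval (f z) (F (Fin.castAdd r j)) / (Cb C).det
    with hg
  have hgF : ∀ z i, dot (A i) (g z) = eval (f z) (F i) := by
    intro z i
    have h1 := ker_spec C hdet (fun i => eval (f z) (F i)) (fun l => hfC z l) i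
    rw [h1]
    change (A.mulVec (g z)) i = _
    rw [hAdef, hg]
    simp only
    rw [Matrix.mulVec_mulVec, Matrix.mul_assoc, Matrix.mul_nonsing_inv _ hBu, Matrix.mul_one]
    rfl
  have hgd : Differentiable ℂ g := by
    rw [differentiable_pi]
    intro i
    rw [hg]
    unfold Matrix.mulVec dotProduct
    simp only
    refine Differentiable.fun_sum fun j _ => ?_
    exact ((diff_eval hf _).div_const _).const_mul _
  have hg0 : ∀ z, g z ≠ 0 := by
    intro z h1
    obtain ⟨i, hi⟩ := hne (f z) (hf0 z) (hfS z)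
    apply hi
    rw [← hgF z i, h1]
    unfold dot
    simp
  have hram : ∀ i, Ram (fun j => A i j) g := by
    intro i z hz
    obtain ⟨P, Q, hPQ⟩ := hpow i
    have h1 : ∀ z, dot (fun j => A i j) (g z) = eval (f z) P ^ 2 * eval (f z) Q ^ 3 := by
      intro z
      have := hgF z i
      rw [hPQ, map_mul, map_pow, map_pow] at this
      exact this
    have h2 : (fun z => dot (fun j => A i j) (g z)) = fun z => eval (f z) P ^ 2 * eval (f z) Q ^ 3 :=
      funext h1
    rw [h2]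
    rw [h1] at hz
    exact deriv_powerful (diff_eval hf P) (diff_eval hf Q) hz
  have hcon := hcur g hgd hg0 hram
  refine const_of_image (by omega : d ≠ 0) hS hF hne hf hf0 hfS fun w => ?_
  obtain ⟨c, hc⟩ := hcon 0 w
  refine ⟨c, fun i => ?_⟩
  rw [← hgF w i, ← hgF 0 i, hc]
  unfold dot
  rw [Finset.mul_sum]
  refine Finset.sum_congr rfl fun j _ => ?_
  rw [Pi.smul_apply, smul_eq_mul]
  ring

end Pool.Agent.K7.H11.GG
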